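import Pool.Agent.CofSN2.Targets

/-!
# MP_3e8648_lc, second model: countable supports (ANT)
-/

set_option autoImplicit false

namespace CofSN2

open CofSN

namespace ANT_

lemma max_anti {Q : Type} [Preorder Q] (C : Set Q) :
    ∃ A ⊆ C, (A.Pairwise fun a b => ¬ Cmp a b) ∧ ∀ c ∈ C, ∃ a ∈ A, Cmp a c := by
  obtain ⟨A, hA⟩ := zorn_subset {A : Set Q | A ⊆ C ∧ A.Pairwise fun a b => ¬ Cmp a b} (by
    intro K hK hch
    refine ⟨⋃₀ K, ⟨Set.sUnion_subset fun s hs => (hK hs).1, ?_⟩, fun s hs =>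
      Set.subset_sUnion_of_mem hs⟩
    rw [Set.pairwise_sUnion hch.directedOn]
    exact fun s hs => (hK hs).2)
  refine ⟨A, hA.prop.1, hA.prop.2, fun c hc => ?_⟩
  by_contra hno
  have h1 : insert c A ∈ {A : Set Q | A ⊆ C ∧ A.Pairwise fun a b => ¬ Cmp a b} := by
    refine ⟨Set.insert_subset hc hA.prop.1, ?_⟩
    refine hA.prop.2.insert fun b hb _ => ⟨?_, ?_⟩
    · rintro ⟨r, h1, h2⟩
      exact hno ⟨b, hb, r, h2, h1⟩
    · exact fun h => hno ⟨b, hb, h⟩
  have h2 : c ∈ A := hA.le_of_ge h1 (Set.subset_insert _ _) (Set.mem_insert _ _)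
  exact hno ⟨c, h2, c, le_rfl, le_rfl⟩

/-- the restriction to sets which contain the supports of `a` stays below `a` -/
lemma res_le {Ω P : Type} [Preorder P] {μ : Set (Mk P)} (I : Set (Ω → Nm (RO P) ℕ))
    (I' : Set (Mk P)) (a c : S3 Ω P μ)
    (hI : ∀ F, a.cs F ≠ [] ∨ a.ds F ≠ [] ∨ a.dp F ≠ [] → F ∈ I)
    (hI' : ∀ G, a.st G ≠ [] ∨ a.pr G ≠ [] → G ∈ I') (h : c ≤ a) : S3.res I I' c ≤ a := by
  rw [S3.le_def] at h ⊢
  obtain ⟨h1, h2, h3, h4, h5, h6, h7, h8⟩ := h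
  have k1 : ∀ F, F ∉ I → a.cs F = [] ∧ a.ds F = [] ∧ a.dp F = [] := by
    intro F hF
    by_contra hn
    apply hF
    apply hI
    tauto
  have k2 : ∀ G, G ∉ I' → a.st G = [] ∧ a.pr G = [] := by
    intro G hG
    by_contra hn
    apply hG
    apply hI'
    tauto
  refine ⟨h1, fun F => ?_, fun F => ?_, fun F => ?_, ?_, fun G => ?_, fun G => ?_, ?_⟩
  · by_cases hF : F ∈ I
    · simpa [S3.res, hF] using h2 F
    · rw [(k1 F hF).1]
      exact ⟨_, List.nil_append _⟩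
  · by_cases hF : F ∈ I
    · simpa [S3.res, hF] using h3 F
    · rw [(k1 F hF).2.1]
      exact ⟨_, List.nil_append _⟩
  · by_cases hF : F ∈ I
    · simpa [S3.res, hF] using h4 F
    · rw [(k1 F hF).2.2]
      exact List.nil_subset _
  · intro F n hn hn' ξ hξ q hq k hk
    by_cases hF : F ∈ I
    · have e : (S3.res I I' c).ds F = c.ds F := by simp [S3.res, hF]
      have h := h5 F n (by rw [← e]; exact hn) hn' ξ hξ q hq k hk
      simpa only [e] using h
    · exfalso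
      have e : (S3.res I I' c).ds F = [] := by simp [S3.res, hF]
      rw [e] at hn
      exact absurd hn (Nat.not_lt_zero _)
  · by_cases hG : G ∈ I'
    · simpa [S3.res, hG] using h6 G
    · rw [(k2 G hG).1]
      exact ⟨_, List.nil_append _⟩
  · by_cases hG : G ∈ I'
    · simpa [S3.res, hG] using h7 G
    · rw [(k2 G hG).2]
      exact List.nil_subset _
  · intro G n hn hn' x hx q hq k hk
    by_cases hG : G ∈ I'
    · have e : (S3.res I I' c).st G = c.st G := by simp [S3.res, hG]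
      have h := h8 G n (by rw [← e]; exact hn) hn' x hx q hq k hk
      simpa only [e] using h
    · exfalso
      have e : (S3.res I I' c).st G = [] := by simp [S3.res, hG]
      rw [e] at hn
      exact absurd hn (Nat.not_lt_zero _)

end ANT_

/-- ANT. -/
theorem p_ANT : T_ANT := by
  intro Ω P _ μ hccc m ψ hψ
  choose A hA1 hA2 hA3 using fun j : ℕ =>
    ANT_.max_anti {c : S3 Ω P μ | ∃ S, VS m j S ∧ c ∈ ψ j S}
  have hcount : ∀ j, (A j).Countable := by
    intro j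
    have h1 : Countable (A j) := hccc (A j) (fun a => (a : S3 Ω P μ)) (by
      intro a b hab
      exact hA2 j a.2 b.2 fun h => hab (Subtype.ext h))
    exact Set.countable_coe_iff.1 h1
  refine ⟨⋃ j, ⋃ a ∈ A j, {F | a.cs F ≠ [] ∨ a.ds F ≠ [] ∨ a.dp F ≠ []},
    ⋃ j, ⋃ a ∈ A j, {G | a.st G ≠ [] ∨ a.pr G ≠ []},
    fun j S => {c | ∃ a ∈ A j, a ∈ ψ j S ∧ VS m j S ∧ c ≤ a}, ?_, ?_, ?_, ?_, ?_, ?_⟩
  · exact Set.countable_iUnion fun j => (hcount j).biUnion fun a _ => a.finF.countable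
  · exact Set.countable_iUnion fun j => (hcount j).biUnion fun a _ => a.finG.countable
  · rintro j S p q hqp ⟨a, h1, h2, h3, h4⟩
    exact ⟨a, h1, h2, h3, hqp.trans h4⟩
  · rintro j S c ⟨a, h1, h2, h3, h4⟩
    exact hψ j S a c h4 h2
  · rintro j c ⟨d, hd, S, h1, h2⟩
    obtain ⟨a, ha, r, hr1, hr2⟩ := hA3 j d ⟨S, h1, h2⟩
    obtain ⟨S', h3, h4⟩ := hA1 j ha
    exact ⟨r, hr2.trans hd, S', h3, a, ha, h4, h3, hr1⟩
  · rintro I I' hI hI' j S c ⟨a, h1, h2, h3, h4⟩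
    refine ⟨a, h1, h2, h3, ANT_.res_le I I' a c ?_ ?_ h4⟩
    · intro F hF
      exact hI (Set.mem_iUnion.2 ⟨j, Set.mem_biUnion h1 hF⟩)
    · intro G hG
      exact hI' (Set.mem_iUnion.2 ⟨j, Set.mem_biUnion h1 hG⟩)

end CofSN2
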