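import Pool.Agent.CofSN2.Targets
import Pool.Agent.CofSN.DEL

/-!
# MP_3e8648_lc, second model, target CCS: the chain condition of the successor step
-/

set_option autoImplicit false

namespace CofSN2

open CofSN

namespace CCS_

variable {Ω P : Type} [Preorder P] {μ : Set (Mk P)}

/-- slaloms twice as long as the promises -/
theorem long (hE : T_EXL) (hμ : ∀ G ∈ μ, GM G) (c : S3 Ω P μ) :
    ∃ c' : S3 Ω P μ, c' ≤ c ∧ ∀ G, 2 * (c'.pr G).length ≤ (c'.st G).length := by
  obtain ⟨d, h1, -, -, -, h5, h6, h7⟩ := hE Ω P μ hμ c {G | c.st G ≠ [] ∨ c.pr G ≠ []}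
    (fun G => 2 * (c.pr G).length) c.finG (by
      intro G hG
      by_contra h
      have h2 := c.sup G h
      rcases hG with h3 | h3
      · exact h3 h2.1
      · exact h3 h2.2)
  refine ⟨d, h1, fun G => ?_⟩
  rw [h5]
  by_cases hG : G ∈ {G | c.st G ≠ [] ∨ c.pr G ≠ []}
  · rw [h7 G hG]
    exact le_max_right _ _
  · have h8 : c.pr G = [] := by
      by_contra h
      exact hG (Or.inr h)
    rw [h8]
    exact Nat.zero_le _

open Classical in
/-- the first list if it is not empty, otherwise the second one -/
noncomputable def mg {α : Type} (x y : List α) : List α := if x = [] then y else x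

theorem mg_or {α : Type} (x y : List α) : mg x y = x ∨ mg x y = y := by
  unfold mg
  by_cases h : x = []
  · right; rw [if_pos h]
  · left; rw [if_neg h]

theorem mg_nil_left {α : Type} {x : List α} (y : List α) (h : x = []) : mg x y = y := by
  unfold mg
  rw [if_pos h]

theorem mg_nil_right {α : Type} (x : List α) {y : List α} (h : y = []) : mg x y = x := by
  unfold mg
  by_cases h' : x = []
  · rw [if_pos h', h, h']
  · rw [if_neg h']

theorem mg_self {α : Type} {x y : List α} (h : x = y) : mg x y = x := by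
  unfold mg
  by_cases h' : x = []
  · rw [if_pos h', h]
  · rw [if_neg h']

/-- a common extension -/
theorem common (hμ : ∀ G ∈ μ, GM G) (a b : S3 Ω P μ) (q : P) (hqa : q ≤ a.p) (hqb : q ≤ b.p)
    (ha : ∀ G, 2 * (a.pr G).length ≤ (a.st G).length)
    (hb : ∀ G, 2 * (b.pr G).length ≤ (b.st G).length)
    (hF : ∀ F, (a.cs F = [] ∧ a.ds F = [] ∧ a.dp F = []) ∨
      (b.cs F = [] ∧ b.ds F = [] ∧ b.dp F = []) ∨ (a.cs F = b.cs F ∧ a.ds F = b.ds F))
    (hG : ∀ G, (a.st G = [] ∧ a.pr G = []) ∨ (b.st G = [] ∧ b.pr G = []) ∨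
      a.st G = b.st G) : Cmp a b := by
  have hFa : ∀ F, (mg (a.cs F) (b.cs F) = a.cs F ∧ mg (a.ds F) (b.ds F) = a.ds F) ∨
      (a.cs F = [] ∧ a.ds F = [] ∧ a.dp F = []) := by
    intro F
    rcases hF F with h | h | h
    · exact Or.inr h
    · exact Or.inl ⟨mg_nil_right _ h.1, mg_nil_right _ h.2.1⟩
    · exact Or.inl ⟨mg_self h.1, mg_self h.2⟩
  have hFb : ∀ F, (mg (a.cs F) (b.cs F) = b.cs F ∧ mg (a.ds F) (b.ds F) = b.ds F) ∨
      (b.cs F = [] ∧ b.ds F = [] ∧ b.dp F = []) := by
    intro F
    rcases hF F with h | h | h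
    · exact Or.inl ⟨mg_nil_left _ h.1, mg_nil_left _ h.2.1⟩
    · exact Or.inr h
    · exact Or.inl ⟨(mg_self h.1).trans h.1, (mg_self h.2).trans h.2⟩
  have hGa : ∀ G, mg (a.st G) (b.st G) = a.st G ∨ (a.st G = [] ∧ a.pr G = []) := by
    intro G
    rcases hG G with h | h | h
    · exact Or.inr h
    · exact Or.inl (mg_nil_right _ h.1)
    · exact Or.inl (mg_self h)
  have hGb : ∀ G, mg (a.st G) (b.st G) = b.st G ∨ (b.st G = [] ∧ b.pr G = []) := by
    intro G
    rcases hG G with h | h | h
    · exact Or.inl (mg_nil_left _ h.1)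
    · exact Or.inr h
    · exact Or.inl ((mg_self h).trans h)
  let d : S3 Ω P μ :=
    { p := q
      cs := fun F => mg (a.cs F) (b.cs F)
      ds := fun F => mg (a.ds F) (b.ds F)
      dp := fun F => a.dp F ++ b.dp F
      st := fun G => mg (a.st G) (b.st G)
      pr := fun G => a.pr G ++ b.pr G
      finF := by
        refine (a.finF.union b.finF).subset fun F h => ?_
        by_contra hc
        simp only [Set.mem_union, Set.mem_setOf_eq, not_or, not_not] at hc
        obtain ⟨⟨h1, h2, h3⟩, h4, h5, h6⟩ := hc
        simp only [Set.mem_setOf_eq] at h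
        rw [mg_nil_left _ h1, mg_nil_left _ h2, h3, h4, h5, h6] at h
        simp at h
      finG := by
        refine (a.finG.union b.finG).subset fun G h => ?_
        by_contra hc
        simp only [Set.mem_union, Set.mem_setOf_eq, not_or, not_not] at hc
        obtain ⟨⟨h1, h2⟩, h4, h5⟩ := hc
        simp only [Set.mem_setOf_eq] at h
        rw [mg_nil_left _ h1, h2, h4, h5] at h
        simp at h
      sup := by
        intro G h
        obtain ⟨h1, h2⟩ := a.sup G h
        obtain ⟨h3, h4⟩ := b.sup G h
        refine ⟨?_, ?_⟩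
        · change mg (a.st G) (b.st G) = []
          rw [mg_nil_left _ h1, h3]
        · change a.pr G ++ b.pr G = []
          rw [h2, h4]
          rfl
      hgt := by
        intro G n hn r hr k hk x hx
        rcases mg_or (a.st G) (b.st G) with h | h
        · simp only [h] at hn hx
          exact a.hgt G n hn r (hr.trans hqa) k hk x hx
        · simp only [h] at hn hx
          exact b.hgt G n hn r (hr.trans hqb) k hk x hx
      wid := by
        intro G n hn r hr k hk
        rcases mg_or (a.st G) (b.st G) with h | h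
        · simp only [h] at hn ⊢
          exact a.wid G n hn r (hr.trans hqa) k hk
        · simp only [h] at hn ⊢
          exact b.wid G n hn r (hr.trans hqb) k hk
      len := by
        intro G r hr k hk
        by_cases hm : G ∈ μ
        · have h0 := (hμ G hm).big _ _ _ hk
          have h1 := ha G
          have h2 := hb G
          have h3 : 2 * (a.pr G).length ≤ (mg (a.st G) (b.st G)).length := by
            rcases hGa G with h | h
            · rw [h]
              exact h1
            · rw [h.2]
              exact Nat.zero_le _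
          have h4 : 2 * (b.pr G).length ≤ (mg (a.st G) (b.st G)).length := by
            rcases hGb G with h | h
            · rw [h]
              exact h2
            · rw [h.2]
              exact Nat.zero_le _
          rw [List.length_append]
          omega
        · rw [(a.sup G hm).2, (b.sup G hm).2]
          exact Nat.zero_le _
      bd := by
        intro G x hx
        rcases List.mem_append.1 hx with h | h
        · exact a.bd G x h
        · exact b.bd G x h }
  refine ⟨d, S3.le_def.2 ⟨hqa, ?_, ?_, ?_, ?_, ?_, ?_, ?_⟩,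
    S3.le_def.2 ⟨hqb, ?_, ?_, ?_, ?_, ?_, ?_, ?_⟩⟩
  · intro F
    change a.cs F <+: mg (a.cs F) (b.cs F)
    rcases hFa F with h | h
    · rw [h.1]
    · rw [h.1]
      exact List.nil_prefix
  · intro F
    change a.ds F <+: mg (a.ds F) (b.ds F)
    rcases hFa F with h | h
    · rw [h.2]
    · rw [h.2.1]
      exact List.nil_prefix
  · intro F
    exact List.subset_append_left _ _
  · intro F n hn hn2 ξ hξ
    exfalso
    have hn' : n < (mg (a.ds F) (b.ds F)).length := hn
    rcases hFa F with h | h
    · rw [h.2] at hn'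
      omega
    · rw [h.2.2] at hξ
      exact absurd hξ List.not_mem_nil
  · intro G
    change a.st G <+: mg (a.st G) (b.st G)
    rcases hGa G with h | h
    · rw [h]
    · rw [h.1]
      exact List.nil_prefix
  · intro G
    exact List.subset_append_left _ _
  · intro G n hn hn2 x hx
    exfalso
    have hn' : n < (mg (a.st G) (b.st G)).length := hn
    rcases hGa G with h | h
    · rw [h] at hn'
      omega
    · rw [h.2] at hx
      exact absurd hx List.not_mem_nil
  · intro F
    change b.cs F <+: mg (a.cs F) (b.cs F)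
    rcases hFb F with h | h
    · rw [h.1]
    · rw [h.1]
      exact List.nil_prefix
  · intro F
    change b.ds F <+: mg (a.ds F) (b.ds F)
    rcases hFb F with h | h
    · rw [h.2]
    · rw [h.2.1]
      exact List.nil_prefix
  · intro F
    exact List.subset_append_right _ _
  · intro F n hn hn2 ξ hξ
    exfalso
    have hn' : n < (mg (a.ds F) (b.ds F)).length := hn
    rcases hFb F with h | h
    · rw [h.2] at hn'
      omega
    · rw [h.2.2] at hξ
      exact absurd hξ List.not_mem_nil
  · intro G
    change b.st G <+: mg (a.st G) (b.st G)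
    rcases hGb G with h | h
    · rw [h]
    · rw [h.1]
      exact List.nil_prefix
  · intro G
    exact List.subset_append_right _ _
  · intro G n hn hn2 x hx
    exfalso
    have hn' : n < (mg (a.st G) (b.st G)).length := hn
    rcases hGb G with h | h
    · rw [h] at hn'
      omega
    · rw [h.2] at hx
      exact absurd hx List.not_mem_nil

/-- the stems of a condition at an index -/
def tp (c : S3 Ω P μ) : (Ω → Nm (RO P) ℕ) ⊕ Mk P → List ℕ × List ℕ × List (Finset ℕ)
  | Sum.inl F => (c.cs F, c.ds F, [])
  | Sum.inr G => ([], [], c.st G)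

/-- the support of a condition -/
noncomputable def spt (c : S3 Ω P μ) : Finset ((Ω → Nm (RO P) ℕ) ⊕ Mk P) :=
  c.finF.toFinset.disjSum c.finG.toFinset

theorem not_spt_l {c : S3 Ω P μ} {F : Ω → Nm (RO P) ℕ} (h : Sum.inl F ∉ spt c) :
    c.cs F = [] ∧ c.ds F = [] ∧ c.dp F = [] := by
  by_contra hc
  apply h
  unfold spt
  rw [Finset.inl_mem_disjSum, Set.Finite.mem_toFinset]
  change c.cs F ≠ [] ∨ c.ds F ≠ [] ∨ c.dp F ≠ []
  by_contra h2
  simp only [not_or, not_not] at h2
  exact hc h2

theorem not_spt_r {c : S3 Ω P μ} {G : Mk P} (h : Sum.inr G ∉ spt c) :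
    c.st G = [] ∧ c.pr G = [] := by
  by_contra hc
  apply h
  unfold spt
  rw [Finset.inr_mem_disjSum, Set.Finite.mem_toFinset]
  change c.st G ≠ [] ∨ c.pr G ≠ []
  by_contra h2
  simp only [not_or, not_not] at h2
  exact hc h2

end CCS_

open CCS_ in
/-- CCS: the successor step has the countable chain condition -/
theorem p_CCS (h_EXL : T_EXL) : T_CCS := by
  classical
  intro Ω P _ μ hμ hP ι f hf
  by_contra hι
  choose g hg1 hg2 using fun a => long h_EXL hμ (f a)
  obtain ⟨S, r, hS, hr⟩ := p_DEL ι ((Ω → Nm (RO P) ℕ) ⊕ Mk P) (fun a => spt (g a)) hι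
  obtain ⟨t, ht⟩ : ∃ t : (↥r → List ℕ × List ℕ × List (Finset ℕ)),
      ¬ {a | a ∈ S ∧ (fun i : ↥r => tp (g a) i) = t}.Countable := by
    by_contra hcon
    push Not at hcon
    apply hS
    refine (Set.countable_iUnion hcon).mono fun a ha => ?_
    simp only [Set.mem_iUnion]
    exact ⟨_, ha, rfl⟩
  set S' : Set ι := {a | a ∈ S ∧ (fun i : ↥r => tp (g a) i) = t} with hS'
  obtain ⟨a, b, hne, q, hqa, hqb⟩ : ∃ a b : ↥S', a ≠ b ∧ ∃ q, q ≤ (g a).p ∧ q ≤ (g b).p := by
    by_contra hcon
    push Not at hcon
    apply ht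
    have := hP ↥S' (fun a => (g a).p) (fun a b hab hc => by
      obtain ⟨q, h1, h2⟩ := hc
      exact hcon a b hab q h1 h2)
    exact Set.countable_coe_iff.1 this
  have hne' : (a : ι) ≠ b := fun h => hne (Subtype.ext h)
  have key : ∀ x, x ∉ spt (g a) ∨ x ∉ spt (g b) ∨ tp (g a) x = tp (g b) x := by
    intro x
    by_cases h1 : x ∈ spt (g a)
    · by_cases h2 : x ∈ spt (g b)
      · have h3 := hr a a.2.1 b b.2.1 hne'
        have h4 : x ∈ (r : Set ((Ω → Nm (RO P) ℕ) ⊕ Mk P)) := by
          rw [← h3]
          exact ⟨h1, h2⟩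
        have h5 := congrFun a.2.2 ⟨x, h4⟩
        have h6 := congrFun b.2.2 ⟨x, h4⟩
        simp only at h5 h6
        exact Or.inr (Or.inr (h5.trans h6.symm))
      · exact Or.inr (Or.inl h2)
    · exact Or.inl h1
  obtain ⟨d, h1, h2⟩ := common hμ (g a) (g b) q hqa hqb (hg2 a) (hg2 b)
    (fun F => by
      rcases key (Sum.inl F) with h | h | h
      · exact Or.inl (not_spt_l h)
      · exact Or.inr (Or.inl (not_spt_l h))
      · have h' : ((g a).cs F, (g a).ds F, ([] : List (Finset ℕ))) =
            ((g b).cs F, (g b).ds F, []) := h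
        rw [Prod.mk.injEq, Prod.mk.injEq] at h'
        exact Or.inr (Or.inr ⟨h'.1, h'.2.1⟩))
    (fun G => by
      rcases key (Sum.inr G) with h | h | h
      · exact Or.inl (not_spt_r h)
      · exact Or.inr (Or.inl (not_spt_r h))
      · have h' : (([] : List ℕ), ([] : List ℕ), (g a).st G) = ([], [], (g b).st G) := h
        rw [Prod.mk.injEq, Prod.mk.injEq] at h'
        exact Or.inr (Or.inr h'.2.2))
  exact hf a b hne' ⟨d, h1.trans (hg1 a), h2.trans (hg1 b)⟩

end CofSN2
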