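import Pool.Agent.CofSN2.Targets

/-!
# MP_3e8648_lc, second model: DMN, the generic dominating functions
-/

set_option autoImplicit false

namespace CofSN2

open CofSN

namespace DMN_

variable {Ω P : Type} [Preorder P] {μ : Set (Mk P)}

/-- the Boolean value of `E(n) = k` for the generic dominating function of the family `F` -/
def dsv (F : Ω → Nm (RO P) ℕ) (n k : ℕ) : RO (S3 Ω P μ) :=
  RO.gen {c | ∃ h : n < (c.ds F).length, (c.ds F)[n] = k}

theorem ds_prefix {c' c : S3 Ω P μ} (h : c' ≤ c) (F : Ω → Nm (RO P) ℕ) : c.ds F <+: c'.ds F :=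
  (S3.le_def.1 h).2.2.1 F

theorem mem_dsv {F : Ω → Nm (RO P) ℕ} {n k : ℕ} {c : S3 Ω P μ} :
    c ∈ dsv F n k ↔ ∀ q ≤ c, ∃ r ≤ q, ∃ h : n < (r.ds F).length, (r.ds F)[n] = k := by
  unfold dsv
  rw [RO.mem_gen]
  constructor
  · intro h q hq
    obtain ⟨r, hr, s, ⟨hn, hs⟩, hrs⟩ := h q hq
    have hpre := ds_prefix hrs F
    refine ⟨r, hr, lt_of_lt_of_le hn hpre.length_le, ?_⟩
    rw [← hs]
    exact (hpre.getElem hn).symm
  · intro h q hq
    obtain ⟨r, hr, hn, hs⟩ := h q hq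
    exact ⟨r, hr, r, ⟨hn, hs⟩, le_rfl⟩

theorem eq_of_mem {F : Ω → Nm (RO P) ℕ} {n k : ℕ} {c : S3 Ω P μ}
    (hc : c ∈ dsv F n k) (hn : n < (c.ds F).length) : (c.ds F)[n] = k := by
  obtain ⟨r, hr, h, hs⟩ := mem_dsv.1 hc c le_rfl
  have hpre := ds_prefix hr F
  rw [← hs]
  exact hpre.getElem hn

theorem self_mem {F : Ω → Nm (RO P) ℕ} {n : ℕ} {c : S3 Ω P μ} (hn : n < (c.ds F).length) :
    c ∈ dsv F n ((c.ds F)[n]) := by
  refine mem_dsv.2 fun q hq => ?_
  have hpre := ds_prefix hq F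
  exact ⟨q, le_rfl, lt_of_lt_of_le hn hpre.length_le, (hpre.getElem hn).symm⟩

open Classical in
/-- add one promise -/
noncomputable def addd (F : Ω → Nm (RO P) ℕ) (ξ : Ω) (c : S3 Ω P μ) : S3 Ω P μ where
  p := c.p
  cs := c.cs
  ds := c.ds
  dp := fun H => if H = F then ξ :: c.dp H else c.dp H
  st := c.st
  pr := c.pr
  finF := by
    refine (c.finF.union (Set.finite_singleton F)).subset ?_
    intro H hH
    by_cases h : H = F
    · exact Or.inr h
    · left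
      simpa [h] using hH
  finG := c.finG
  sup := c.sup
  hgt := c.hgt
  wid := c.wid
  len := c.len
  bd := c.bd

theorem addd_le (F : Ω → Nm (RO P) ℕ) (ξ : Ω) (c : S3 Ω P μ) : addd F ξ c ≤ c := by
  refine S3.le_def.2 ⟨le_rfl, fun _ => List.prefix_rfl, fun _ => List.prefix_rfl,
    fun H => ?_, fun _ _ h h' => absurd h (not_lt.2 h'),
    fun _ => List.prefix_rfl, fun _ => List.Subset.refl _, fun _ _ h h' => absurd h (not_lt.2 h')⟩
  by_cases h : H = F
  · subst h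
    simp only [addd, if_true]
    exact List.subset_cons_self _ _
  · simp only [addd, h, if_false]
    exact List.Subset.refl _

theorem mem_addd (F : Ω → Nm (RO P) ℕ) (ξ : Ω) (c : S3 Ω P μ) : ξ ∈ (addd F ξ c).dp F := by
  simp [addd]

/-- the generic dominating function as a name -/
noncomputable def dn (hEXD : T_EXD) (F : Ω → Nm (RO P) ℕ) : Nm (RO (S3 Ω P μ)) ℕ where
  v n k := dsv F n k
  disj n a b hab := by
    refine le_antisymm (fun c hc => ?_) bot_le
    obtain ⟨r, hr, h, hs⟩ := mem_dsv.1 hc.1 c le_rfl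
    have hb := eq_of_mem (RO.mem_down hc.2 hr) h
    exact absurd (hs.symm.trans hb) hab
  tot n := by
    rw [RO.eq_top_iff']
    intro c
    refine RO.mem_iSup.2 fun q _ => ?_
    obtain ⟨c', hc', _, _, _, _, hl⟩ := hEXD Ω P μ q F (n + 1)
    have hn : n < (c'.ds F).length := lt_of_lt_of_le (Nat.lt_succ_self n) hl
    exact ⟨c', hc', _, self_mem hn⟩

end DMN_

theorem p_DMN (hEXD : T_EXD) : T_DMN := by
  intro Ω P _ μ h F
  refine ⟨DMN_.dn hEXD F, fun ξ => ?_⟩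
  rw [RO.eq_top_iff']
  intro c
  refine Nm.mem_leS.2 fun q _ => ?_
  refine ⟨DMN_.addd F ξ q, DMN_.addd_le F ξ q, (q.ds F).length, fun n hn s hs a k ha hk => ?_⟩
  obtain ⟨t, ht, hnt, htk⟩ := DMN_.mem_dsv.1 hk s le_rfl
  have h2 : t.p ∈ (F ξ).v n a :=
    RO.mem_down ((Nm.mem_cm h (F ξ) n a s).1 ha) (S3.le_def.1 ht).1
  have h1 := (S3.le_def.1 (ht.trans hs)).2.2.2.2.1 F n hnt hn ξ
    (DMN_.mem_addd F ξ q) t.p le_rfl a h2
  rw [htk] at h1
  exact h1

end CofSN2
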