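import Pool.Agent.CofSN2.Targets

/-!
# MP_3e8648_lc: target EPS, the embedding of `P` in `S3 Ω P μ` (helper11)
-/

set_option autoImplicit false

namespace CofSN2

open CofSN

namespace EPS_

variable {Ω P : Type} [Preorder P] {μ : Set (Mk P)}

theorem le_emb (c : S3 Ω P μ) (p : P) (h : c.p ≤ p) : c ≤ (S3.emb p : S3 Ω P μ) := by
  refine ⟨h, fun _ => List.nil_prefix, fun _ => List.nil_prefix, fun _ => List.nil_subset _, ?_,
    fun _ => List.nil_prefix, fun _ => List.nil_subset _, ?_⟩
  · intro F n _ _ ξ hξ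
    exact absurd hξ (by simp [S3.emb])
  · intro G n _ _ x hx
    exact absurd hx (by simp [S3.emb])

end EPS_

theorem p_EPS : T_EPS := by
  intro Ω P _ μ
  exact
  { emono := fun p q h => EPS_.le_emb _ _ h
    pmono := fun a b h => h.1
    pe := fun p => le_rfl
    pe' := fun p => le_rfl
    ep := fun q => EPS_.le_emb _ _ le_rfl
    lift := fun q p h => ⟨S3.put q p h, S3.put_le q p h, EPS_.le_emb _ _ le_rfl⟩ }

end CofSN2
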