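import Pool.Agent.CofSN2.Targets

/-!
# MP_3e8648_lc, second model: the dominating functions can be made longer (helper16)
-/

set_option autoImplicit false

namespace CofSN2

open CofSN

namespace EXD_

variable {Ω P : Type} [Preorder P]

/-- a bound for the next values of finitely many functions -/
theorem dec (F : Ω → Nm (RO P) ℕ) (l : List Ω) (n : ℕ) (p : P) :
    ∃ q ≤ p, ∃ v : ℕ, ∀ ξ ∈ l, ∃ a ≤ v, q ∈ (F ξ).v n a := by
  induction l with
  | nil => exact ⟨p, le_rfl, 0, by simp⟩
  | cons x l ih =>
    obtain ⟨q, hq, v, h⟩ := ih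
    obtain ⟨r, hr, a, ha⟩ := (F x).decide n q
    refine ⟨r, hr.trans hq, max a v, ?_⟩
    intro y hy
    rcases List.mem_cons.1 hy with rfl | hy
    · exact ⟨a, le_max_left _ _, ha⟩
    · obtain ⟨b, hb, hb2⟩ := h y hy
      exact ⟨b, hb.trans (le_max_right _ _), RO.mem_down hb2 hr⟩

variable {μ : Set (Mk P)}

/-- one more value -/
theorem step (c : S3 Ω P μ) (F : Ω → Nm (RO P) ℕ) :
    ∃ d ≤ c, d.cs = c.cs ∧ d.dp = c.dp ∧ d.pr = c.pr ∧ d.st = c.st ∧
      (d.ds F).length = (c.ds F).length + 1 := by
  classical
  obtain ⟨q, hq, v, h⟩ := dec F (c.dp F) (c.ds F).length c.p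
  have hself : Function.update c.ds F (c.ds F ++ [v]) F = c.ds F ++ [v] :=
    Function.update_self ..
  have hne : ∀ j, j ≠ F → Function.update c.ds F (c.ds F ++ [v]) j = c.ds j := fun j hj =>
    Function.update_of_ne hj ..
  refine ⟨{ c.put q hq with
    ds := Function.update c.ds F (c.ds F ++ [v])
    finF := ?_ }, ?_, rfl, rfl, rfl, rfl, ?_⟩
  · refine (c.finF.insert F).subset fun j hj => ?_
    by_cases hji : j = F
    · exact Or.inl hji
    · refine Or.inr ?_
      have h1 : c.cs j ≠ [] ∨ Function.update c.ds F (c.ds F ++ [v]) j ≠ [] ∨ c.dp j ≠ [] := hj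
      rw [hne j hji] at h1
      exact h1
  · refine S3.le_def.2 ⟨hq, fun _ => List.prefix_rfl, ?_, fun _ => List.Subset.refl _, ?_,
      fun _ => List.prefix_rfl, fun _ => List.Subset.refl _,
      fun _ _ h h' => absurd h (not_lt.2 h')⟩
    · intro j
      dsimp only
      by_cases hji : j = F
      · subst hji
        rw [hself]
        exact List.prefix_append _ _
      · rw [hne j hji]
    · intro j n hn hn2 ξ hξ r hr a ha
      dsimp only at hn hr ⊢
      by_cases hji : j = F
      · subst hji
        have hn3 : n = (c.ds j).length := by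
          rw [hself, List.length_append, List.length_singleton] at hn
          omega
        subst hn3
        simp only [hself, List.getElem_concat_length]
        obtain ⟨b, hb, hb2⟩ := h ξ hξ
        rw [Nm.uniq ha (RO.mem_down hb2 hr)]
        exact hb
      · rw [hne j hji] at hn
        exact absurd hn (not_lt.2 hn2)
  · dsimp only
    rw [hself, List.length_append, List.length_singleton]

end EXD_

open EXD_ in
/-- EXD: the dominating functions can be made longer -/
theorem p_EXD : T_EXD := by
  intro Ω P _ μ c F N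
  induction N with
  | zero => exact ⟨c, le_rfl, rfl, rfl, rfl, rfl, Nat.zero_le _⟩
  | succ N ih =>
    obtain ⟨c1, h1, h2, h3, h4, h5, h6⟩ := ih
    obtain ⟨c2, k1, k2, k3, k4, k5, k6⟩ := step c1 F
    exact ⟨c2, k1.trans h1, k2.trans h2, k3.trans h3, k4.trans h4, k5.trans h5, by omega⟩

end CofSN2
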