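import Pool.Agent.CofSN2.Targets

/-!
# MP_3e8648_lc, second model: the slaloms can be made longer (helper56)
-/

set_option autoImplicit false

namespace CofSN2

open CofSN

namespace EXL_

variable {Ω P : Type} [Preorder P] {μ : Set (Mk P)}

/-- the next values of finitely many promises decided at once -/
theorem dec (l : List (Nm (RO P) ℕ)) (n : ℕ) (p : P) :
    ∃ q ≤ p, ∃ T : Finset ℕ, T.card ≤ l.length ∧ (∀ y ∈ l, ∃ a ∈ T, q ∈ y.v n a) ∧
      ∀ a ∈ T, ∃ y ∈ l, q ∈ y.v n a := by
  classical
  induction l with
  | nil => exact ⟨p, le_rfl, ∅, by simp, by simp, by simp⟩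
  | cons x l ih =>
    obtain ⟨q, hq, T, hT, h, h'⟩ := ih
    obtain ⟨r, hr, a, ha⟩ := x.decide n q
    refine ⟨r, hr.trans hq, insert a T, (Finset.card_insert_le a T).trans (by simpa using hT),
      ?_, ?_⟩
    · intro y hy
      rcases List.mem_cons.1 hy with rfl | hy
      · exact ⟨a, Finset.mem_insert_self a T, ha⟩
      · obtain ⟨b, hb, hb2⟩ := h y hy
        exact ⟨b, Finset.mem_insert_of_mem hb, RO.mem_down hb2 hr⟩
    · intro b hb
      rcases Finset.mem_insert.1 hb with rfl | hb
      · exact ⟨x, List.mem_cons.2 (Or.inl rfl), ha⟩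
      · obtain ⟨y, hy, hy2⟩ := h' b hb
        exact ⟨y, List.mem_cons.2 (Or.inr hy), RO.mem_down hy2 hr⟩

/-- one more set for one mark -/
theorem step (c : S3 Ω P μ) (G : Mk P) (hG : G ∈ μ) (hM : GM G) :
    ∃ d : S3 Ω P μ, d ≤ c ∧ d.cs = c.cs ∧ d.ds = c.ds ∧ d.dp = c.dp ∧ d.pr = c.pr ∧
      (∀ G', G' ≠ G → d.st G' = c.st G') ∧ (d.st G).length = (c.st G).length + 1 := by
  classical
  obtain ⟨p1, hp1, h0, hh0⟩ := hM.tot false (c.st G).length c.p
  obtain ⟨p2, hp2, w0, hw0⟩ := hM.tot true (c.st G).length p1
  obtain ⟨q, hq2, T, hT, h, h'⟩ := dec (c.pr G) (c.st G).length p2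
  have hq : q ≤ c.p := hq2.trans (hp2.trans hp1)
  have hh : q ∈ G.nv false (c.st G).length h0 := RO.mem_down hh0 (hq2.trans hp2)
  have hw : q ∈ G.nv true (c.st G).length w0 := RO.mem_down hw0 hq2
  have hl : (c.pr G).length ≤ w0 := c.len G q hq w0 hw
  have hself : Function.update c.st G (c.st G ++ [T]) G = c.st G ++ [T] :=
    Function.update_self ..
  have hne : ∀ j, j ≠ G → Function.update c.st G (c.st G ++ [T]) j = c.st j := fun j hj =>
    Function.update_of_ne hj ..
  refine ⟨{ p := q, cs := c.cs, ds := c.ds, dp := c.dp,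
            st := Function.update c.st G (c.st G ++ [T]), pr := c.pr, finF := c.finF,
            finG := ?_, sup := ?_, hgt := ?_, wid := ?_, len := ?_, bd := c.bd },
          ?_, rfl, rfl, rfl, rfl, hne, ?_⟩
  · refine (c.finG.insert G).subset fun j hj => ?_
    by_cases hji : j = G
    · exact Or.inl hji
    · refine Or.inr ?_
      have h1 : Function.update c.st G (c.st G ++ [T]) j ≠ [] ∨ c.pr j ≠ [] := hj
      rw [hne j hji] at h1
      exact h1
  · intro j hj
    have hji : j ≠ G := fun e => hj (e ▸ hG)
    rw [hne j hji]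
    exact c.sup j hj
  · intro j n hn r hr k hk a ha
    by_cases hji : j = G
    · subst hji
      simp only [hself] at hn ha
      by_cases hn2 : n < (c.st j).length
      · rw [List.getElem_append_left hn2] at ha
        exact c.hgt j n hn2 r (hr.trans hq) k hk a ha
      · have hn3 : n = (c.st j).length := by
          rw [List.length_append, List.length_singleton] at hn
          omega
        subst hn3
        simp only [List.getElem_concat_length] at ha
        obtain ⟨y, hy, hy2⟩ := h' a ha
        exact c.bd j y hy (c.st j).length r a k (RO.mem_down hy2 hr) hk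
    · simp only [hne j hji] at hn ha
      exact c.hgt j n hn r (hr.trans hq) k hk a ha
  · intro j n hn r hr k hk
    by_cases hji : j = G
    · subst hji
      simp only [hself] at hn ⊢
      by_cases hn2 : n < (c.st j).length
      · rw [List.getElem_append_left hn2]
        exact c.wid j n hn2 r (hr.trans hq) k hk
      · have hn3 : n = (c.st j).length := by
          rw [List.length_append, List.length_singleton] at hn
          omega
        subst hn3
        simp only [List.getElem_concat_length]
        exact hT.trans (c.len j r (hr.trans hq) k hk)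
    · simp only [hne j hji] at hn ⊢
      exact c.wid j n hn r (hr.trans hq) k hk
  · intro j r hr k hk
    by_cases hji : j = G
    · subst hji
      rw [hself, List.length_append, List.length_singleton] at hk
      exact hl.trans (hM.mono _ _ _ _ r (Nat.le_succ _) (RO.mem_down hw hr) hk)
    · rw [hne j hji] at hk
      exact c.len j r (hr.trans hq) k hk
  · refine S3.le_def.2 ⟨hq, fun _ => List.prefix_rfl, fun _ => List.prefix_rfl,
      fun _ => List.Subset.refl _, fun _ _ h1 h2 => absurd h1 (not_lt.2 h2), ?_,
      fun _ => List.Subset.refl _, ?_⟩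
    · intro j
      dsimp only
      by_cases hji : j = G
      · subst hji
        rw [hself]
        exact List.prefix_append _ _
      · rw [hne j hji]
    · intro j n hn hn2 y hy r hr b hb
      dsimp only at hn hr ⊢
      by_cases hji : j = G
      · subst hji
        have hn3 : n = (c.st j).length := by
          rw [hself, List.length_append, List.length_singleton] at hn
          omega
        subst hn3
        simp only [hself, List.getElem_concat_length]
        obtain ⟨a, ha, ha2⟩ := h y hy
        rw [Nm.uniq hb (RO.mem_down ha2 hr)]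
        exact ha
      · rw [hne j hji] at hn
        exact absurd hn (not_lt.2 hn2)
  · dsimp only
    rw [hself, List.length_append, List.length_singleton]

/-- many more sets for one mark -/
theorem steps (G : Mk P) (hG : G ∈ μ) (hM : GM G) (N : ℕ) (c : S3 Ω P μ) :
    ∃ d : S3 Ω P μ, d ≤ c ∧ d.cs = c.cs ∧ d.ds = c.ds ∧ d.dp = c.dp ∧ d.pr = c.pr ∧
      (∀ G', G' ≠ G → d.st G' = c.st G') ∧ (d.st G).length = (c.st G).length + N := by
  induction N with
  | zero => exact ⟨c, le_rfl, rfl, rfl, rfl, rfl, fun _ _ => rfl, rfl⟩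
  | succ N ih =>
    obtain ⟨c1, h1, h2, h3, h4, h5, h6, h7⟩ := ih
    obtain ⟨c2, k1, k2, k3, k4, k5, k6, k7⟩ := step c1 G hG hM
    exact ⟨c2, k1.trans h1, k2.trans h2, k3.trans h3, k4.trans h4, k5.trans h5,
      fun j hj => (k6 j hj).trans (h6 j hj), by omega⟩

end EXL_

open EXL_ in
/-- EXL: the slaloms can be made longer -/
theorem p_EXL : T_EXL := by
  intro Ω P _ μ hμ c A k hA
  induction A, hA using Set.Finite.induction_on with
  | empty =>
    intro _
    exact ⟨c, le_rfl, rfl, rfl, rfl, rfl, fun _ _ => rfl, fun G hG => absurd hG (Set.notMem_empty G)⟩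
  | @insert G A hGA _ ih =>
    intro hsub
    obtain ⟨c1, h1, h2, h3, h4, h5, h6, h7⟩ := ih ((Set.subset_insert G A).trans hsub)
    have hG : G ∈ μ := hsub (Set.mem_insert G A)
    obtain ⟨c2, k1, k2, k3, k4, k5, k6, k7⟩ :=
      steps G hG (hμ G hG) (k G - (c1.st G).length) c1
    have hst : c1.st G = c.st G := h6 G hGA
    refine ⟨c2, k1.trans h1, k2.trans h2, k3.trans h3, k4.trans h4, k5.trans h5, ?_, ?_⟩
    · intro j hj
      have hji : j ≠ G := fun e => hj (Or.inl e)
      rw [k6 j hji]
      exact h6 j fun e => hj (Or.inr e)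
    · intro j hj
      by_cases hji : j = G
      · subst hji
        rw [k7, hst]
        omega
      · rw [k6 j hji]
        exact h7 j (hj.resolve_left hji)

end CofSN2
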