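import Pool.Agent.CofSN2.Targets

/-!
# MP_3e8648_lc, second model: the new marks are good (target GMN)
-/

set_option autoImplicit false

namespace CofSN2

open CofSN

namespace GMN_

theorem foldr_mono_init (l : List ℕ) {a b : ℕ} (h : a ≤ b) :
    l.foldr max a ≤ l.foldr max b := by
  induction l with
  | nil => simpa using h
  | cons x l ih => simpa using max_le_max (le_refl x) ih

theorem foldr_prefix {l₁ l₂ : List ℕ} (h : l₁ <+: l₂) : l₁.foldr max 0 ≤ l₂.foldr max 0 := by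
  obtain ⟨t, rfl⟩ := h
  rw [List.foldr_append]
  exact foldr_mono_init l₁ (Nat.zero_le _)

theorem om_mono (s : List ℕ) {n m : ℕ} (h : n ≤ m) : om s n ≤ om s m := by
  unfold om
  have h1 : s.take (n + 1) <+: s.take (m + 1) :=
    List.take_prefix_take_left (by omega)
  have h2 := foldr_prefix h1
  omega

theorem om_prefix {s t : List ℕ} (h : s <+: t) {i : ℕ} (hi : i < s.length) :
    om t i = om s i := by
  unfold om
  obtain ⟨u, rfl⟩ := h
  rw [List.take_append_of_le_length (by omega)]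

theorem sm_congr {w w' : ℕ → ℕ} {n : ℕ} (h : ∀ i ≤ n, w i = w' i) : sm w n = sm w' n := by
  unfold sm
  refine Finset.sum_congr rfl fun i hi => h i ?_
  have := Finset.mem_range.1 hi
  omega

variable {Ω P : Type} [Preorder P] {μ : Set (Mk P)}

theorem cs_le {c c' : S3 Ω P μ} (h : c' ≤ c) (F : Ω → Nm (RO P) ℕ) : c.cs F <+: c'.cs F :=
  (S3.le_def.1 h).2.1 F

theorem p_le {c c' : S3 Ω P μ} (h : c' ≤ c) : c'.p ≤ c.p := (S3.le_def.1 h).1

theorem mem_true {F : Ω → Nm (RO P) ℕ} {ξ : Ω} {n k : ℕ} {c : S3 Ω P μ} :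
    c ∈ (newG F ξ : Mk (S3 Ω P μ)) true n k ↔ n < (c.cs F).length ∧ k = om (c.cs F) n := by
  simp [newG]

theorem mem_false {F : Ω → Nm (RO P) ℕ} {ξ : Ω} {n k : ℕ} {c : S3 Ω P μ} :
    c ∈ (newG F ξ : Mk (S3 Ω P μ)) false n k ↔ n < (c.cs F).length ∧
      ∃ a : ℕ → ℕ, (∀ m < sm (om (c.cs F)) n, c.p ∈ (F ξ).v m (a m)) ∧
        k = (Finset.range (sm (om (c.cs F)) n)).sup a := by
  simp [newG]

theorem sm_prefix {s t : List ℕ} (h : s <+: t) {n : ℕ} (hn : n < s.length) :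
    sm (om t) n = sm (om s) n :=
  sm_congr fun _ hi => om_prefix h (lt_of_le_of_lt hi hn)

/-- the sets of the new mark are closed under extension -/
theorem down {F : Ω → Nm (RO P) ℕ} {ξ : Ω} {b : Bool} {n k : ℕ} {c c' : S3 Ω P μ}
    (h : c' ≤ c) (hc : c ∈ (newG F ξ : Mk (S3 Ω P μ)) b n k) :
    c' ∈ (newG F ξ : Mk (S3 Ω P μ)) b n k := by
  have hp := cs_le h F
  cases b with
  | true =>
    rw [mem_true] at hc ⊢
    exact ⟨lt_of_lt_of_le hc.1 hp.length_le, by rw [om_prefix hp hc.1]; exact hc.2⟩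
  | false =>
    rw [mem_false] at hc ⊢
    obtain ⟨h1, a, h2, h3⟩ := hc
    refine ⟨lt_of_lt_of_le h1 hp.length_le, a, ?_, ?_⟩
    · intro m hm
      rw [sm_prefix hp h1] at hm
      exact RO.mem_down (h2 m hm) (p_le h)
    · rw [sm_prefix hp h1]
      exact h3

theorem sup_congr {N : ℕ} {a a' : ℕ → ℕ} (h : ∀ m < N, a m = a' m) :
    (Finset.range N).sup a = (Finset.range N).sup a' :=
  Finset.sup_congr rfl fun m hm => h m (Finset.mem_range.1 hm)

/-- a condition lies in at most one of the sets -/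
theorem one {F : Ω → Nm (RO P) ℕ} {ξ : Ω} {b : Bool} {n k l : ℕ} {c : S3 Ω P μ}
    (hk : c ∈ (newG F ξ : Mk (S3 Ω P μ)) b n k) (hl : c ∈ (newG F ξ : Mk (S3 Ω P μ)) b n l) :
    k = l := by
  cases b with
  | true =>
    rw [mem_true] at hk hl
    rw [hk.2, hl.2]
  | false =>
    rw [mem_false] at hk hl
    obtain ⟨_, a, h2, h3⟩ := hk
    obtain ⟨_, a', h2', h3'⟩ := hl
    rw [h3, h3']
    exact sup_congr fun m hm => Nm.uniq (h2 m hm) (h2' m hm)

theorem mem_nv {F : Ω → Nm (RO P) ℕ} {ξ : Ω} {b : Bool} {n k : ℕ} {c : S3 Ω P μ} :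
    c ∈ (newG F ξ : Mk (S3 Ω P μ)).nv b n k ↔
      ∀ q ≤ c, ∃ r ≤ q, r ∈ (newG F ξ : Mk (S3 Ω P μ)) b n k := by
  unfold Mk.nv
  rw [RO.mem_gen]
  constructor
  · intro h q hq
    obtain ⟨r, hr, s, hs, hrs⟩ := h q hq
    exact ⟨r, hr, down hrs hs⟩
  · intro h q hq
    obtain ⟨r, hr, hs⟩ := h q hq
    exact ⟨r, hr, r, hs, le_rfl⟩

theorem nv_of_mem {F : Ω → Nm (RO P) ℕ} {ξ : Ω} {b : Bool} {n k : ℕ} {c : S3 Ω P μ}
    (h : c ∈ (newG F ξ : Mk (S3 Ω P μ)) b n k) : c ∈ (newG F ξ : Mk (S3 Ω P μ)).nv b n k :=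
  mem_nv.2 fun q hq => ⟨q, le_rfl, down hq h⟩

theorem long (F : Ω → Nm (RO P) ℕ) (n : ℕ) (p : S3 Ω P μ) :
    ∃ q ≤ p, n < (q.cs F).length := by
  classical
  let h : (Ω → Nm (RO P) ℕ) → List ℕ := fun F' =>
    if F' = F then List.replicate (n + 1) 0 else []
  have hh : {F' | h F' ≠ []}.Finite := by
    refine (Set.finite_singleton F).subset ?_
    intro F' hF'
    by_contra hne
    exact hF' (if_neg hne)
  refine ⟨p.app h hh, S3.app_le _ _ _, ?_⟩
  have h1 : (p.app h hh).cs F = p.cs F ++ h F := rfl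
  have h2 : h F = List.replicate (n + 1) 0 := if_pos rfl
  rw [h1, h2, List.length_append, List.length_replicate]
  omega

end GMN_

open GMN_ in
/-- GMN: the new marks are good, and their heights are the maxima -/
theorem p_GMN : T_GMN := by
  intro Ω P _ μ F ξ
  refine ⟨⟨?_, ?_, ?_, ?_⟩, ?_⟩
  · intro b n k l p hk hl
    obtain ⟨r, hr, h1⟩ := mem_nv.1 hk p le_rfl
    obtain ⟨r', hr', h2⟩ := mem_nv.1 hl r hr
    exact one (down hr' h1) h2
  · intro b n p
    obtain ⟨q, hq, hn⟩ := long F n p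
    cases b with
    | true => exact ⟨q, hq, om (q.cs F) n, nv_of_mem (mem_true.2 ⟨hn, rfl⟩)⟩
    | false =>
      obtain ⟨r, hr, a, ha⟩ := (F ξ).decides (sm (om (q.cs F)) n) q.p
      refine ⟨q.put r hr, (S3.put_le q r hr).trans hq,
        (Finset.range (sm (om (q.cs F)) n)).sup a, nv_of_mem (mem_false.2 ⟨hn, a, ?_, rfl⟩)⟩
      exact ha
  · intro n k p hp
    obtain ⟨r, _, h1⟩ := mem_nv.1 hp p le_rfl
    rw [mem_true] at h1
    rw [h1.2]
    unfold om
    omega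
  · intro n m k l p hnm hk hl
    obtain ⟨r, hr, h1⟩ := mem_nv.1 hk p le_rfl
    obtain ⟨r', hr', h2⟩ := mem_nv.1 hl r hr
    have h3 := down hr' h1
    rw [mem_true] at h2 h3
    rw [h2.2, h3.2]
    exact om_mono _ hnm
  · intro q n s a k hs ha hk
    obtain ⟨r, hr, h1⟩ := mem_nv.1 hk q le_rfl
    rw [mem_false] at h1
    obtain ⟨hn, a', h2, h3⟩ := h1
    have hsi : ∀ i ≤ n, s i = om (r.cs F) i := by
      intro i hi
      obtain ⟨r', hr', h4⟩ := mem_nv.1 (hs i hi) r hr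
      rw [mem_true] at h4
      rw [h4.2]
      exact om_prefix (cs_le hr' F) (lt_of_le_of_lt hi hn)
    have hsm : sm s n = sm (om (r.cs F)) n := sm_congr hsi
    rw [h3, hsm]
    refine sup_congr fun m hm => ?_
    refine Nm.uniq (h2 m hm) (RO.mem_down (ha m ?_) (p_le hr))
    rw [hsm]
    exact hm

end CofSN2
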