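import Pool.Agent.CofSN2.Targets

/-!
# MP_3e8648_lc, second model: marks under projections
-/

set_option autoImplicit false

namespace CofSN2

open CofSN

namespace IMN_

variable {P Q : Type} [Preorder P] [Preorder Q] {e : P → Q} {π : Q → P}

theorem mem_gen_image (h : EP e π) (X : Set P) (q : Q) :
    q ∈ RO.gen (e '' X) ↔ π q ∈ RO.gen X := by
  constructor
  · intro hq
    refine RO.mem_gen.2 fun p hp => ?_
    obtain ⟨q', h1, h2⟩ := h.lift q p hp
    obtain ⟨s, hs, _, ⟨x, hx, rfl⟩, hsx⟩ := RO.mem_gen.1 hq q' h1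
    exact ⟨π s, (h.pmono (hs.trans h2)).trans (h.pe p), x, hx, (h.pmono hsx).trans (h.pe x)⟩
  · intro hq
    refine RO.mem_gen.2 fun r hr => ?_
    obtain ⟨p, hp, x, hx, hpx⟩ := RO.mem_gen.1 hq (π r) (h.pmono hr)
    obtain ⟨r', h1, h2⟩ := h.lift r p hp
    exact ⟨r', h1, e x, ⟨x, hx, rfl⟩, h2.trans (h.emono hpx)⟩

theorem mem_nv (h : EP e π) (G : Mk P) (b : Bool) (n k : ℕ) (q : Q) :
    q ∈ (G.im e).nv b n k ↔ π q ∈ G.nv b n k :=
  mem_gen_image h (G b n k) q

end IMN_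

/-- Target IMN. -/
theorem p_IMN : T_IMN := by
  intro P Q _ _ e π h G
  refine ⟨fun b n k q => IMN_.mem_nv h G b n k q, fun j q => ?_, fun hG => ?_⟩
  · unfold Gap
    simp only [IMN_.mem_nv h G]
  · refine ⟨?_, ?_, ?_, ?_⟩
    · intro b n k l p hk hl
      exact hG.disj b n k l (π p) ((IMN_.mem_nv h G b n k p).1 hk)
        ((IMN_.mem_nv h G b n l p).1 hl)
    · intro b n q
      obtain ⟨p, hp, k, hk⟩ := hG.tot b n (π q)
      obtain ⟨q', h1, h2⟩ := h.lift q p hp
      exact ⟨q', h1, k, (IMN_.mem_nv h G b n k q').2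
        (RO.mem_down hk ((h.pmono h2).trans (h.pe p)))⟩
    · intro n k p hk
      exact hG.big n k (π p) ((IMN_.mem_nv h G true n k p).1 hk)
    · intro n m k l p hnm hk hl
      exact hG.mono n m k l (π p) hnm ((IMN_.mem_nv h G true n k p).1 hk)
        ((IMN_.mem_nv h G true m l p).1 hl)

end CofSN2
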