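import Pool.Agent.CofSN2.TargetsB0
import Pool.Agent.CofSN.TCT

/-!
# MP_3e8648_lc, case b: chain condition at all stages of a continuous tower
-/

set_option autoImplicit false

namespace CofSN2

open CofSN

open CofSN.TCT_ in
/-- PTG: the limit step -/
theorem ptg_lim (h_WOR : T_WOR) {J : Type} [LinearOrder J] [OrderBot J] [SuccOrder J]
    [WellFoundedLT J] (T : PT J)
    (hEP : ∀ (i j : J) (h : i ≤ j), ∃ π, EP (T.e i j h) π) (j : J) (hj : Order.IsSuccLimit j)
    (ih : ∀ i < j, CCC (T.A i)) : CCC (T.A j) := by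
  intro ι f hf
  by_contra hι
  obtain ⟨W, _, _, _, _, _, -, hc, hb⟩ := h_WOR
  obtain ⟨g, hg⟩ := inj hc hι
  have hgne : ∀ x y : W, x ≠ y → g x ≠ g y := by
    intro x y hxy
    rcases lt_or_gt_of_ne hxy with h | h
    · exact hg x y h
    · exact (hg y x h).symm
  have hlev : ∀ γ : W, ∃ (l : J) (h : l < j) (a : T.A l), T.e l j h.le a = f (g γ) :=
    fun γ => T.lim j hj (f (g γ))
  choose lev hlj a0 ha0 using hlev
  by_cases hcase : ∃ γ : W, ∀ x < j, ∃ α < γ, x ≤ lev α
  · -- case 1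
    obtain ⟨γ, hγ⟩ := hcase
    have h1 : ∀ α : W, {ξ : W | lev ξ ≤ lev α}.Countable := by
      intro α
      have h2 : Countable {ξ : W | lev ξ ≤ lev α} := by
        refine ih (lev α) (hlj α) {ξ : W | lev ξ ≤ lev α}
          (fun ξ => T.e (lev ξ.1) (lev α) ξ.2 (a0 ξ.1)) fun ξ ξ' hne hcmp => ?_
        obtain ⟨r, hr1, hr2⟩ := hcmp
        refine hf (g ξ.1) (g ξ'.1) (hgne _ _ fun h => hne (Subtype.ext h)) ?_
        refine ⟨T.e (lev α) j (hlj α).le r, ?_, ?_⟩
        · have h3 := T.e_mono (lev α) j (hlj α).le _ _ hr1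
          rw [T.e_trans, ha0] at h3
          exact h3
        · have h3 := T.e_mono (lev α) j (hlj α).le _ _ hr2
          rw [T.e_trans, ha0] at h3
          exact h3
      exact Set.countable_coe_iff.1 h2
    have h2 : (⋃ α ∈ Set.Iio γ, {ξ : W | lev ξ ≤ lev α}).Countable :=
      (hc γ).biUnion fun α _ => h1 α
    obtain ⟨b, hb'⟩ := bound hb h2
    have h3 : Order.succ b ∈ ⋃ α ∈ Set.Iio γ, {ξ : W | lev ξ ≤ lev α} := by
      obtain ⟨α, hα, hle⟩ := hγ (lev (Order.succ b)) (hlj _)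
      exact Set.mem_biUnion hα hle
    exact absurd (hb' _ h3) (not_le.2 (Order.lt_succ b))
  · -- case 2
    have hS : ∀ γ : W, ∃ x < j, ∀ α < γ, lev α < x := by
      intro γ
      by_contra h
      refine hcase ⟨γ, fun x hx => ?_⟩
      by_contra h'
      exact h ⟨x, hx, fun α hα => not_le.1 fun hle => h' ⟨α, hα, hle⟩⟩
    let wf := wellFounded_lt (α := J)
    have hmin : ∀ γ : W, ∃ x : J, x < j ∧ (∀ α < γ, lev α < x) ∧
        ∀ y, (∀ α < γ, lev α < y) → x ≤ y := by
      intro γ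
      obtain ⟨x0, hx0, hx0'⟩ := hS γ
      let S : Set J := {x | ∀ α < γ, lev α < x}
      have hne : S.Nonempty := ⟨x0, hx0'⟩
      have hm : ∀ y, (∀ α < γ, lev α < y) → wf.min S hne ≤ y := fun y hy =>
        not_lt.1 (wf.not_lt_min S (x := y) hy)
      exact ⟨wf.min S hne, (hm x0 hx0').trans_lt hx0, wf.min_mem S hne, hm⟩
    choose s hsj hs1 hs2 using hmin
    have hmono : ∀ x y : W, x ≤ y → s x ≤ s y := fun x y hxy =>
      hs2 x _ fun α hα => hs1 y α (hα.trans_le hxy)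
    have hpi : ∀ γ : W, ∃ π, EP (T.e (s γ) j (hsj γ).le) π := fun γ => hEP _ _ _
    choose π hE using hpi
    let F : W → Set W := fun β => {γ | ∃ (h : β < γ) (b : T.A (s β)),
      T.e (s β) (s γ) (hmono _ _ h.le) b = π γ (f (g γ))}
    have hFc : ∀ β, (F β).Countable := by
      intro β
      have hccc : CCC (T.A (s β)) := ih _ (hsj β)
      have hF : ∀ γ : F β, ∃ (h : β < γ.1) (b : T.A (s β)),
        T.e (s β) (s γ.1) (hmono _ _ h.le) b = π γ.1 (f (g γ.1)) := fun γ => γ.2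
      choose hlt b hbb using hF
      have key : ∀ γ γ' : F β, γ.1 < γ'.1 → ¬ Cmp (b γ) (b γ') := by
        intro γ γ' hγ hcmp
        obtain ⟨r, hr1, hr2⟩ := hcmp
        have hl : lev γ.1 < s γ'.1 := hs1 γ'.1 γ.1 hγ
        refine hf (g γ.1) (g γ'.1) (hg _ _ hγ) ?_
        have h1 : T.e (s β) (s γ.1) (hmono _ _ (hlt γ).le) r ≤ π γ.1 (f (g γ.1)) := by
          rw [← hbb γ]
          exact T.e_mono _ _ _ _ _ hr1
        obtain ⟨q', hq1, hq2⟩ := (hE γ.1).lift _ _ h1
        rw [T.e_trans] at hq2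
        let a' := T.e (lev γ.1) (s γ'.1) hl.le (a0 γ.1)
        have ha' : T.e (s γ'.1) j (hsj γ'.1).le a' = f (g γ.1) := by
          rw [T.e_trans, ha0]
        have h2 : π γ'.1 q' ≤ a' := by
          have h3 : q' ≤ T.e (s γ'.1) j (hsj γ'.1).le a' := by rw [ha']; exact hq1
          exact ((hE γ'.1).pmono h3).trans ((hE γ'.1).pe a')
        have h4 : π γ'.1 q' ≤ T.e (s β) (s γ'.1) (hmono _ _ (hlt γ').le) r := by
          have h3 : q' ≤ T.e (s γ'.1) j (hsj γ'.1).le
              (T.e (s β) (s γ'.1) (hmono _ _ (hlt γ').le) r) := by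
            rw [T.e_trans]; exact hq2
          exact ((hE γ'.1).pmono h3).trans ((hE γ'.1).pe _)
        have h5 : π γ'.1 q' ≤ π γ'.1 (f (g γ'.1)) := by
          rw [← hbb γ']
          exact h4.trans (T.e_mono _ _ _ _ _ hr2)
        obtain ⟨q, hq3, hq4⟩ := (hE γ'.1).lift _ _ h5
        refine ⟨q, ?_, hq3⟩
        rw [← ha']
        exact hq4.trans (T.e_mono _ _ _ _ _ h2)
      have h6 : Countable (F β) := by
        refine hccc (F β) b fun γ γ' hne => ?_
        rcases lt_trichotomy γ.1 γ'.1 with h | h | h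
        · exact key _ _ h
        · exact absurd (Subtype.ext h) hne
        · rintro ⟨r, hr1, hr2⟩
          exact key _ _ h ⟨r, hr2, hr1⟩
      exact Set.countable_coe_iff.1 h6
    have hFb : ∀ β, ∃ b, ∀ c ∈ F β, c ≤ b := fun β => bound hb (hFc β)
    choose h hh using hFb
    obtain ⟨γ, hγ, hcl⟩ := closed hc hb (fun x => Order.succ x) h
    -- a level below `s γ` is below `s β` for some `β < γ`
    have hbel : ∀ x < s γ, ∃ β < γ, x < s β := by
      intro x hx
      by_contra hno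
      refine absurd (hs2 γ x fun α hα => ?_) (not_le.2 hx)
      by_contra hle
      refine hno ⟨Order.succ α, (hcl α hα).1, ?_⟩
      exact (not_lt.1 hle).trans_lt (hs1 _ α (Order.lt_succ α))
    have hmem : ∃ β < γ, γ ∈ F β := by
      by_cases hlim : Order.IsSuccLimit (s γ)
      · obtain ⟨x, hx, p, hp⟩ := T.lim (s γ) hlim (π γ (f (g γ)))
        obtain ⟨β, hβ, hxβ⟩ := hbel x hx
        refine ⟨β, hβ, hβ, T.e x (s β) hxβ.le p, ?_⟩
        rw [T.e_trans, hp]
      · have hbot : (⊥ : W) < γ := by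
          rcases bot_lt_iff_ne_bot.2 (show γ ≠ ⊥ from fun he => hγ.1 (he ▸ isMin_bot)) with hh'
          exact hh'
        have hnm : ¬ IsMin (s γ) := (hs1 γ ⊥ hbot).not_isMin
        have hnp : ¬ Order.IsSuccPrelimit (s γ) := fun hp => hlim ⟨hnm, hp⟩
        rw [Order.not_isSuccPrelimit_iff] at hnp
        obtain ⟨x, hx⟩ := hnp
        obtain ⟨β, hβ, hxβ⟩ := hbel x hx.lt
        have hle : s γ ≤ s β := not_lt.1 fun hlt => hx.2 hxβ hlt
        refine ⟨β, hβ, hβ, T.e (s γ) (s β) hle (π γ (f (g γ))), ?_⟩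
        rw [T.e_trans, T.e_refl]
    obtain ⟨β, hβ, hmem⟩ := hmem
    exact absurd (hh β γ hmem) (not_le.2 (hcl β hβ).2)

/-- PTG -/
theorem p_PTG (h_WOR : T_WOR) : T_PTG := by
  intro J _ _ _ _ T h0 hs hEP j
  induction j using WellFoundedLT.induction with
  | ind j ih =>
  by_cases hj : Order.IsSuccPrelimit j
  · by_cases hm : IsMin j
    · rw [hm.eq_bot]
      exact h0
    · exact ptg_lim h_WOR T hEP j ⟨hm, hj⟩ ih
  · rw [Order.not_isSuccPrelimit_iff] at hj
    obtain ⟨i, hij⟩ := hj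
    obtain rfl : Order.succ i = j := hij.succ_eq
    exact hs i hij.lt.not_isMax (ih i hij.lt)

end CofSN2
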