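import Pool.Agent.CofSN2.Targets
import Pool.Agent.CofSN.TR0

/-!
# MP_3e8648_lc, second model: PTR, every regular set has a level (helper33)
-/

set_option autoImplicit false

namespace CofSN2

open CofSN

open CofSN.TR0_ in
/-- PTR: every regular set has a level -/
theorem p_PTR : T_PTR := by
  intro L _ _ _ _ _ T π hE hbdd hccc U
  obtain ⟨A, hAU, hanti, hmax⟩ := exists_anti U
  have hcount : Countable A := by
    refine hccc A (fun a => a.1) ?_
    rintro ⟨a, ha⟩ ⟨b, hb⟩ hab
    exact hanti a ha b hb (fun h => hab (Subtype.ext h))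
  have hlim := isSuccLimit_top (L := L)
  have hl : ∀ a : T.A ⊤, ∃ (l : L) (p : T.A l), T.e l ⊤ le_top p = a := by
    intro a
    obtain ⟨i, hi, p, hp⟩ := T.lim ⊤ hlim a
    have h1 : i ≠ ⊤ := hi.ne
    lift i to L using h1
    exact ⟨i, p, hp⟩
  choose l p hlp using hl
  have hb : ∃ b : L, ∀ a ∈ A, l a ≤ b := by
    rcases A.eq_empty_or_nonempty with h | h
    · exact ⟨⊥, fun a ha => absurd ha (by rw [h]; exact Set.notMem_empty a)⟩
    · have : Nonempty A := h.to_subtype
      obtain ⟨f, hf⟩ := exists_surjective_nat A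
      obtain ⟨b, hb⟩ := hbdd (fun n => l (f n))
      refine ⟨b, fun a ha => ?_⟩
      obtain ⟨n, hn⟩ := hf ⟨a, ha⟩
      have := hb n
      rw [hn] at this
      exact this
  obtain ⟨b, hb⟩ := hb
  refine ⟨b, level (hE b) U A hAU hmax ?_⟩
  intro a ha
  refine ⟨T.e (l a) b (WithTop.coe_le_coe.2 (hb a ha)) (p a), ?_⟩
  rw [T.e_trans]
  exact hlp a

end CofSN2
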