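import Pool.Agent.CofSN2.Targets

/-!
# MP_3e8648_lc, second model, target TDM: dominating functions
-/

set_option autoImplicit false

namespace CofSN2

open CofSN

namespace TDM_

/-- composition of embeddings with projections -/
theorem ep_comp {P Q R : Type} [Preorder P] [Preorder Q] [Preorder R] {e₁ : P → Q} {π₁ : Q → P}
    {e₂ : Q → R} {π₂ : R → Q} (h₁ : EP e₁ π₁) (h₂ : EP e₂ π₂) :
    EP (fun p => e₂ (e₁ p)) (fun r => π₁ (π₂ r)) where
  emono _ _ h := h₂.emono (h₁.emono h)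
  pmono _ _ h := h₁.pmono (h₂.pmono h)
  pe p := (h₁.pmono (h₂.pe (e₁ p))).trans (h₁.pe p)
  pe' p := (h₁.pe' p).trans (h₁.pmono (h₂.pe' (e₁ p)))
  ep q := (h₂.ep q).trans (h₂.emono (h₁.ep (π₂ q)))
  lift q p hp := by
    obtain ⟨r, hr, hr2⟩ := h₁.lift (π₂ q) p hp
    obtain ⟨q', hq', hq2⟩ := h₂.lift q r hr
    exact ⟨q', hq', hq2.trans (h₂.emono hr2)⟩

/-- an order isomorphism as an embedding with projection -/
theorem ep_iso {P Q : Type} [Preorder P] [Preorder Q] (s : Q ≃o P) :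
    EP (fun p : P => s.symm p) (fun q : Q => s q) where
  emono _ _ h := s.symm.monotone h
  pmono _ _ h := s.monotone h
  pe p := by simp
  pe' p := by simp
  ep q := by simp
  lift q p hp := ⟨s.symm p, (s.symm_apply_le).2 hp, le_rfl⟩

/-- pulling back domination -/
theorem leS_cm {P Q : Type} [Preorder P] [Preorder Q] {e : P → Q} {π : Q → P} (h : EP e π)
    {x E : Nm (RO P) ℕ} (hc : Nm.leS x E = ⊤) : Nm.leS (x.cm h) (E.cm h) = ⊤ := by
  rw [RO.eq_top_iff'] at hc ⊢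
  intro q
  rw [Nm.mem_leS]
  intro q' _
  obtain ⟨r, hr, m, hm⟩ := Nm.mem_leS.1 (hc (π q')) (π q') le_rfl
  obtain ⟨q'', h1, h2⟩ := h.lift q' r hr
  refine ⟨q'', h1, m, fun n hn s hs a b ha hb => ?_⟩
  exact hm n hn (π s) ((h.pmono (hs.trans h2)).trans (h.pe r)) a b ha hb

end TDM_

open TDM_ in
theorem p_TDM (h_PTE : T_PTE) (h_TWE : T_TWE) (h_EPS : T_EPS) (h_DMN : T_DMN) : T_TDM := by
  intro L Ω P0 _ _ _ _ _ _ T π hE i F
  have hi : ¬ IsMax (i : WithTop L) := (WithTop.coe_lt_top i).not_isMax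
  obtain ⟨π', hE'⟩ := h_PTE (WithTop L) T.toPT (h_TWE (WithTop L) Ω P0 T)
    (Order.succ (i : WithTop L)) ⊤ le_top
  have h := h_EPS Ω (T.A i) (T.mu i)
  obtain ⟨E₀, hE0⟩ := h_DMN Ω (T.A i) (T.mu i) h F
  have hc := ep_comp (ep_iso (T.s i hi)) hE'
  refine ⟨E₀.cm hc, fun ξ => ?_⟩
  have h1 := leS_cm hc (hE0 ξ)
  have h2 : ((F ξ).cm h).cm hc = (F ξ).cm (hE i) := by
    ext1
    funext n a
    refine RO.ext_mem fun q => ?_
    have a1 : ((T.s i hi) (π' q)).p ≤ π i q := by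
      have b1 : q ≤ T.e (Order.succ (i : WithTop L)) ⊤ le_top
          (T.e i (Order.succ (i : WithTop L)) (Order.le_succ _) (π i q)) := by
        rw [T.e_trans]
        exact (hE i).ep q
      have b2 := (hE'.pmono b1).trans (hE'.pe _)
      have b3 := (T.s i hi).monotone b2
      rw [T.s_e] at b3
      exact b3.1
    have a2 : π i q ≤ ((T.s i hi) (π' q)).p := by
      have b1 : (T.s i hi) (π' q) ≤ S3.emb ((T.s i hi) (π' q)).p := h.ep _
      rw [← T.s_e (i : WithTop L) hi, OrderIso.le_iff_le] at b1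
      have b2 := (hE'.ep q).trans (hE'.emono b1)
      rw [T.e_trans] at b2
      exact ((hE i).pmono b2).trans ((hE i).pe _)
    constructor
    · intro hq
      exact RO.mem_down (U := (F ξ).v n a) hq a2
    · intro hq
      exact RO.mem_down (U := (F ξ).v n a) hq a1
  rw [← h2]
  exact h1

end CofSN2
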