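import Pool.Agent.CofSN2.Targets

/-!
# MP_3e8648_lc, second model: TGM (all marks are good)
-/

set_option autoImplicit false

namespace CofSN2

open CofSN

namespace TGM_

theorem back {P Q : Type} [Preorder P] [Preorder Q] (s : P ≃o Q) (G : Mk P) :
    (G.im s).im s.symm = G := by
  rw [Mk.im_im]
  have h : (s.symm ∘ s : P → P) = fun x => x := by
    funext x
    exact s.symm_apply_apply x
  rw [h, Mk.im_id]

theorem ep_iso {P Q : Type} [Preorder P] [Preorder Q] (s : P ≃o Q) : EP s.symm s where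
  emono := s.symm.monotone
  pmono := s.monotone
  pe p := (s.apply_symm_apply p).le
  pe' p := (s.apply_symm_apply p).ge
  ep q := (s.symm_apply_apply q).ge
  lift q p h := ⟨s.symm p, by
    have h1 := s.symm.monotone h
    rwa [s.symm_apply_apply] at h1, le_rfl⟩

end TGM_

theorem p_TGM (h_PTE : T_PTE) (h_TWE : T_TWE) (h_IMN : T_IMN) (h_GMN : T_GMN) : T_TGM := by
  intro J Ω P0 _ _ _ _ _ T j
  have hE := h_PTE J T.toPT (h_TWE J Ω P0 T)
  induction j using WellFoundedLT.induction with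
  | ind j ih =>
  intro G hG
  by_cases hj : Order.IsSuccPrelimit j
  · by_cases hm : IsMin j
    · have hj' : j = ⊥ := hm.eq_bot
      subst hj'
      rw [T.mu_z] at hG
      exact absurd hG (Set.notMem_empty G)
    · obtain ⟨i, hij, G0, h0, rfl⟩ := T.mu_l j ⟨hm, hj⟩ G hG
      obtain ⟨π, hπ⟩ := hE i j hij.le
      exact (h_IMN _ _ _ π hπ G0).2.2 (ih i hij G0 h0)
  · rw [Order.not_isSuccPrelimit_iff] at hj
    obtain ⟨i, hij⟩ := hj
    have hi : ¬ IsMax i := hij.lt.not_isMax
    have hlt : i < j := hij.lt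
    obtain rfl : Order.succ i = j := hij.succ_eq
    rcases (T.mu_s i hi G).1 hG with ⟨G0, h0, h1⟩ | ⟨F, ξ, h1⟩
    · obtain ⟨π, hπ⟩ := hE i (Order.succ i) (Order.le_succ i)
      have h2 : G0.im S3.emb = (G0.im (T.e i (Order.succ i) (Order.le_succ i))).im (T.s i hi) := by
        rw [Mk.im_im]
        congr 1
        funext p
        exact (T.s_e i hi p).symm
      have h3 : G = G0.im (T.e i (Order.succ i) (Order.le_succ i)) := by
        rw [← TGM_.back (T.s i hi) G, h1, h2, TGM_.back]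
      rw [h3]
      exact (h_IMN _ _ _ π hπ G0).2.2 (ih i hlt G0 h0)
    · rw [← TGM_.back (T.s i hi) G, h1]
      exact (h_IMN _ _ _ _ (TGM_.ep_iso (T.s i hi)) _).2.2 (h_GMN Ω (T.A i) (T.mu i) F ξ).1

end CofSN2
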