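import Pool.Agent.CofSN2.Targets

/-!
# MP_3e8648_lc, second model: TWE (helper75)

Projections from the successor stages of a tower.
-/

set_option autoImplicit false

namespace CofSN2

open CofSN

theorem p_TWE (h_EPS : T_EPS) : T_TWE := by
  intro J Ω P0 _ _ _ _ _ T j hj
  have E := h_EPS Ω (T.A j) (T.mu j)
  refine ⟨fun q => (T.s j hj q).p, ?_⟩
  refine
    { emono := fun p q h => T.e_mono _ _ _ p q h
      pmono := fun q q' h => E.pmono ((T.s j hj).monotone h)
      pe := fun p => ?_
      pe' := fun p => ?_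
      ep := fun q => ?_
      lift := fun q p h => ?_ }
  · change (T.s j hj (T.e j (Order.succ j) (Order.le_succ j) p)).p ≤ p
    rw [T.s_e]
    exact E.pe p
  · change p ≤ (T.s j hj (T.e j (Order.succ j) (Order.le_succ j) p)).p
    rw [T.s_e]
    exact E.pe' p
  · rw [← (T.s j hj).le_iff_le, T.s_e]
    exact E.ep (T.s j hj q)
  · obtain ⟨q', h1, h2⟩ := E.lift (T.s j hj q) p h
    refine ⟨(T.s j hj).symm q', ?_, ?_⟩
    · rw [← (T.s j hj).le_iff_le, OrderIso.apply_symm_apply]
      exact h1
    · rw [← (T.s j hj).le_iff_le, OrderIso.apply_symm_apply, T.s_e]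
      exact h2

end CofSN2
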