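import Pool.Agent.CofSN2.TargetsB0

/-!
# MP_3e8648_lc, target WOG: long well-orders
-/

set_option autoImplicit false

namespace CofSN2

namespace WOG_

/-- few points of a linear order of size `succ μ` with small initial segments
have a strict upper bound -/
theorem bound {L ι : Type} [LinearOrder L] (μ : Cardinal.{0}) (hμ : Cardinal.aleph0 ≤ μ)
    (hL : μ < Cardinal.mk L) (hι : Cardinal.mk ι ≤ μ)
    (hc : ∀ i : L, Cardinal.mk (Set.Iic i) ≤ μ) (s : ι → L) : ∃ b, ∀ n, s n < b := by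
  by_contra hcon
  push Not at hcon
  have h3 : (⋃ n, Set.Iic (s n)) = Set.univ := by
    ext x
    simp only [Set.mem_iUnion, Set.mem_Iic, Set.mem_univ, iff_true]
    obtain ⟨n, hn⟩ := hcon x
    exact ⟨n, hn⟩
  have h1 : Cardinal.mk (⋃ n, Set.Iic (s n)) ≤ μ := by
    refine (Cardinal.mk_iUnion_le_sum_mk).trans ?_
    refine (Cardinal.sum_le_sum _ (fun _ => μ) (fun n => hc (s n))).trans ?_
    rw [Cardinal.sum_const, Cardinal.lift_id, Cardinal.lift_id]
    exact (mul_le_mul' hι le_rfl).trans (Cardinal.mul_eq_self hμ).le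
  rw [h3, Cardinal.mk_univ] at h1
  exact absurd h1 (not_le.2 hL)

end WOG_

/-- WOG: long well-orders -/
theorem p_WOG : T_WOG := by
  intro Ω
  set μ : Cardinal.{0} := max (Cardinal.mk Ω) Cardinal.aleph0 with hμdef
  have hμ : Cardinal.aleph0 ≤ μ := le_max_right _ _
  set κ : Cardinal.{0} := Order.succ μ with hκ
  have hcard : Cardinal.mk κ.ord.ToType = κ := by simp
  have hL : μ < Cardinal.mk κ.ord.ToType := by
    rw [hcard]
    exact Order.lt_succ μ
  have hIio : ∀ i : κ.ord.ToType, Cardinal.mk (Set.Iio i) ≤ μ := by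
    intro i
    have h0 : (Cardinal.mk κ.ord.ToType).ord =
        Ordinal.type (fun x y : κ.ord.ToType => x < y) := by simp
    have h1 : Cardinal.mk (Set.Iio i) < κ := (Cardinal.mk_Iio_lt i h0).trans_eq hcard
    exact Order.lt_succ_iff.1 h1
  have hc : ∀ i : κ.ord.ToType, Cardinal.mk (Set.Iic i) ≤ μ := by
    intro i
    have h2 : Set.Iic i = Set.Iio i ∪ {i} := by
      ext x
      simp [le_iff_lt_or_eq]
    rw [h2]
    refine (Cardinal.mk_union_le _ _).trans ?_
    rw [Cardinal.mk_singleton]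
    exact Cardinal.add_le_of_le hμ (hIio i) ((Cardinal.one_le_aleph0).trans hμ)
  have hne : Nonempty κ.ord.ToType := by
    by_contra h
    rw [not_nonempty_iff] at h
    have : Cardinal.mk κ.ord.ToType = 0 := Cardinal.mk_eq_zero _
    rw [this] at hL
    exact not_lt.2 zero_le hL
  have hb : ∀ (ι : Type), Cardinal.mk ι ≤ μ → ∀ s : ι → κ.ord.ToType, ∃ b, ∀ n, s n < b :=
    fun ι hι s => WOG_.bound μ hμ hL hι hc s
  refine ⟨κ.ord.ToType, inferInstance, WellFoundedLT.toOrderBot _,
    SuccOrder.ofLinearWellFoundedLT _, ?_, inferInstance, ?_, ?_⟩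
  · exact ⟨fun a => by
      obtain ⟨b, hb'⟩ := hb Unit (by
        rw [Cardinal.mk_unit]
        exact (Cardinal.one_le_aleph0).trans hμ) (fun _ => a)
      exact ⟨b, hb' ()⟩⟩
  · intro s
    obtain ⟨b, hb'⟩ := hb Ω (le_max_left _ _) s
    exact ⟨b, fun n => (hb' n).le⟩
  · intro s
    obtain ⟨b, hb'⟩ := hb ℕ (by
      rw [Cardinal.mk_nat]
      exact hμ) s
    exact ⟨b, fun n => (hb' n).le⟩

end CofSN2
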