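import Pool.Agent.CofSN2.BZ
import Pool.Agent.CofSN2.WOG
import Pool.Agent.CofSN2.PTG
import Pool.Agent.CofSN2.PTE
import Pool.Agent.CofSN2.TWE
import Pool.Agent.CofSN2.EPS
import Pool.Agent.CofSN2.TGM
import Pool.Agent.CofSN2.IMN
import Pool.Agent.CofSN2.GMN
import Pool.Agent.CofSN2.CCS
import Pool.Agent.CofSN2.EXL
import Pool.Agent.CofSN2.PTR
import Pool.Agent.CofSN2.TDM
import Pool.Agent.CofSN2.DMN
import Pool.Agent.CofSN2.EXD
import Pool.Agent.CofSN.CMH
import Pool.Agent.CofSN.WOR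

/-!
# MP_3e8648_lc, case b: the algebra `B_0` (helper90)
-/

set_option autoImplicit false

namespace CofSN2

open CofSN

/-- For every type `Ω` there is a nonempty ccc preorder which forces that every family of functions
from `ℕ` to `ℕ` indexed by `Ω` is dominated. -/
theorem b0_exists : T_BZ := by
  have hTWE : T_TWE := p_TWE p_EPS
  have hTGM : T_TGM := p_TGM p_PTE hTWE p_IMN p_GMN
  exact p_BZ p_WOG (p_PTG p_WOR) p_PTE hTWE hTGM (p_CCS p_EXL) p_PTR
    (p_TDM p_PTE hTWE p_EPS (p_DMN p_EXD)) p_CMH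

end CofSN2
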