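import Pool.Agent.CofSN2.Targets
import Pool.Agent.CofSN.COC
import Pool.Agent.CofSN.DEL

/-!
# MP_3e8648_lc, second model, target BIN: the invariant for the Cohen functions
-/

set_option autoImplicit false

namespace CofSN2

open CofSN

namespace BIN_

open Set

lemma cmp_refl {P : Type} [Preorder P] (p : P) : Cmp p p := ⟨p, le_rfl, le_rfl⟩

lemma cmp_symm {P : Type} [Preorder P] {p q : P} (h : Cmp p q) : Cmp q p := by
  obtain ⟨r, h1, h2⟩ := h
  exact ⟨r, h2, h1⟩

/-- a maximal antichain -/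
lemma exists_anti {P : Type} [Preorder P] (hC : CCC P) (S : Set P) :
    ∃ A ⊆ S, A.Countable ∧ ∀ q ∈ S, ∃ a ∈ A, Cmp q a := by
  obtain ⟨A, hA⟩ : ∃ A, Maximal (fun A : Set P => A ⊆ S ∧
      A.Pairwise fun a b => ¬ Cmp a b) A := by
    refine zorn_subset {A : Set P | A ⊆ S ∧ A.Pairwise fun a b => ¬ Cmp a b} ?_
    intro c hc hch
    refine ⟨⋃₀ c, ⟨sUnion_subset fun t ht => (hc ht).1, ?_⟩,
      fun t ht => subset_sUnion_of_mem ht⟩
    exact (pairwise_sUnion hch.directedOn).mpr fun t ht => (hc ht).2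
  have hAS : A ⊆ S := hA.prop.1
  have hAp : A.Pairwise fun a b => ¬ Cmp a b := hA.prop.2
  refine ⟨A, hAS, ?_, ?_⟩
  · have := hC A (fun a => a.1) (fun i j hij => hAp i.2 j.2 fun h => hij (Subtype.ext h))
    exact Set.countable_coe_iff.mp this
  · intro q hq
    by_contra hcon
    push Not at hcon
    have hqA : q ∈ A := by
      refine hA.le_of_ge (y := insert q A) ⟨insert_subset hq hAS, ?_⟩
        (subset_insert q A) (mem_insert q A)
      refine hAp.insert fun b hb _ => ⟨hcon b hb, fun h => hcon b hb (cmp_symm h)⟩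
    exact hcon q hqA (cmp_refl q)

lemma pow_le (m : ℕ) : ∃ N, ∀ j, N ≤ j → (j + 1) ^ m ≤ 2 ^ j := by
  have h := tendsto_pow_const_div_const_pow_of_one_lt m (r := (2 : ℝ)) (by norm_num)
  have h1 := (h.eventually (gt_mem_nhds (show (0 : ℝ) < 1 / 2 by norm_num)))
  obtain ⟨N, hN⟩ := Filter.eventually_atTop.mp h1
  refine ⟨N, fun j hj => ?_⟩
  have h2 := hN (j + 1) (by omega)
  rw [div_lt_iff₀ (by positivity)] at h2
  have h3 : (((j + 1) ^ m : ℕ) : ℝ) < ((2 ^ j : ℕ) : ℝ) := by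
    push_cast at h2 ⊢
    rw [pow_succ] at h2
    linarith
  exact_mod_cast h3.le

variable {Θ : Type}

lemma ev_none (p : Co Θ) (η : Θ) : ∃ N, ∀ j, N ≤ j → p.f (η, j) = none := by
  have h : {j : ℕ | p.f (η, j) ≠ none}.Finite := by
    refine (p.fin.preimage (f := fun j : ℕ => (η, j)) ?_)
    intro a _ b _ hab
    exact (Prod.mk.inj hab).2
  obtain ⟨N, hN⟩ := h.bddAbove
  refine ⟨N + 1, fun j hj => ?_⟩
  by_contra hcon
  have := hN (show j ∈ {j : ℕ | p.f (η, j) ≠ none} from hcon)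
  omega

open Classical in
/-- one more value -/
noncomputable def upd (p : Co Θ) (x : Θ × ℕ) (k : ℕ) : Co Θ where
  f := Function.update p.f x (some k)
  fin := by
    refine (p.fin.union (Set.finite_singleton x)).subset ?_
    intro y hy
    by_cases hxy : y = x
    · exact Or.inr hxy
    · left
      simpa [Function.update_of_ne hxy] using hy

lemma upd_le (p : Co Θ) (x : Θ × ℕ) (k : ℕ) (h : p.f x = none) : upd p x k ≤ p := by
  classical
  intro y l hl
  have hxy : y ≠ x := by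
    rintro rfl
    rw [h] at hl
    exact absurd hl (by simp)
  show Function.update p.f x (some k) y = some l
  rw [Function.update_of_ne hxy]
  exact hl

lemma upd_at (p : Co Θ) (x : Θ × ℕ) (k : ℕ) : (upd p x k).f x = some k := by
  classical
  show Function.update p.f x (some k) x = some k
  rw [Function.update_self]

lemma agree {p a : Co Θ} (h : Cmp p a) (x : Θ × ℕ) (h1 : p.f x ≠ none) (h2 : a.f x ≠ none) :
    p.f x = a.f x := by
  obtain ⟨r, hp, ha⟩ := h
  obtain ⟨k, hk⟩ := Option.ne_none_iff_exists'.mp h1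
  obtain ⟨l, hl⟩ := Option.ne_none_iff_exists'.mp h2
  have e1 := hp x k hk
  have e2 := ha x l hl
  rw [e1] at e2
  rw [hk, hl, e2]

end BIN_

open BIN_ COC_ Cardinal in
/-- BIN: the invariant for the Cohen functions -/
theorem p_BIN : T_BIN := by
  intro K Θ hK W m m1 ψ hWf hW hDC hTT
  have hC : CCC (Co Θ) := p_COC p_DEL Θ
  have hgap : ∀ (j : ℕ) (q : Co Θ), ∀ G ∈ W, Gap G j q := fun j q G hG => absurd (hW hG) (by simp)
  choose A hAS hAc hA using fun j : ℕ => exists_anti hC {c : Co Θ | ∃ S, VS m j S ∧ c ∈ ψ j S}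
  let X : Set Θ := ⋃ j, ⋃ a ∈ A j, Prod.fst '' {x : Θ × ℕ | a.f x ≠ none}
  have hXc : X.Countable := by
    refine Set.countable_iUnion fun j => (hAc j).biUnion fun a _ => ?_
    exact (a.fin.image _).countable
  have hsub : {η : Θ | ∃ p m0, Bad (Co.D (Θ := Θ)) (id : Co Θ → Co Θ) W m ψ η p m0} ⊆ X := by
    rintro η ⟨p, m0, hB⟩
    by_contra hη
    have hn : ∀ j, ∀ a ∈ A j, ∀ n, a.f (η, n) = none := by
      intro j a ha n
      by_contra hcon
      exact hη (Set.mem_iUnion.mpr ⟨j, Set.mem_iUnion₂.mpr ⟨a, ha, ⟨(η, n), hcon, rfl⟩⟩⟩)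
    obtain ⟨N1, hN1⟩ := pow_le m
    obtain ⟨N2, hN2⟩ := ev_none p η
    let j := max (max N1 N2) (max m0 m1)
    have j1 : N1 ≤ j := le_trans (le_max_left _ _) (le_max_left _ _)
    have j2 : N2 ≤ j := le_trans (le_max_right _ _) (le_max_left _ _)
    have j3 : m0 ≤ j := le_trans (le_max_left _ _) (le_max_right _ _)
    have j4 : m1 ≤ j := le_trans (le_max_right _ _) (le_max_right _ _)
    obtain ⟨q', hq', S', hS', hS'ψ⟩ := hTT j j4 p (hgap j p)
    obtain ⟨a, ha, hca⟩ := hA j q' ⟨S', hS', hS'ψ⟩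
    obtain ⟨S, hS, hSψ⟩ := hAS j ha
    have hcpa : Cmp p a := by
      obtain ⟨r, h1, h2⟩ := hca
      exact ⟨r, h1.trans hq', h2⟩
    have hqp : uni p a ≤ p := uni_le_left _ _
    have hqa : uni p a ≤ a := uni_le_right (fun x h1 h2 => agree hcpa x h1 h2)
    have hqn : (uni p a).f (η, j) = none := by
      show (p.f (η, j)).or (a.f (η, j)) = none
      rw [hN2 j j2, hn j a ha j]
      rfl
    obtain ⟨k, hk⟩ := dec_surj j S (hS.1.trans (hN1 j j1)) hS.2
    have hle : upd (uni p a) (η, j) k ≤ uni p a := upd_le _ _ _ hqn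
    have hq2 : upd (uni p a) (η, j) k ∈ ψ j S := hDC j S _ _ (hle.trans hqa) hSψ
    refine hB j j3 _ (hle.trans hqp) (hgap j _) k ⟨upd (uni p a) (η, j) k, upd_at _ _ _, le_rfl⟩
      S hS hq2 ?_
    rw [hk]
  unfold Few
  calc Cardinal.mk {η : Θ | ∃ p m0, Bad (Co.D (Θ := Θ)) (id : Co Θ → Co Θ) W m ψ η p m0}
      ≤ Cardinal.mk X := Cardinal.mk_le_mk_of_subset hsub
    _ ≤ ℵ₀ := Cardinal.mk_le_aleph0_iff.mpr hXc
    _ ≤ Cardinal.mk K := Cardinal.aleph0_le_mk K

end CofSN2
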