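import Pool.Agent.CofSN2.TargetsB0

/-!
# MP_3e8648_lc, case b: a ccc preorder in which long families of functions are dominated
-/

set_option autoImplicit false

namespace CofSN2

open CofSN

namespace BZ_

theorem iso {A B : Type} [Preorder A] [Preorder B] (e : A ≃o B) (h : CCC B) : CCC A := by
  intro ι f hf
  refine h ι (fun i => e (f i)) fun i j hij hc => hf i j hij ?_
  obtain ⟨r, h1, h2⟩ := hc
  refine ⟨e.symm r, ?_, ?_⟩
  · have := e.symm.monotone h1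
    simpa using this
  · have := e.symm.monotone h2
    simpa using this

theorem triv : CCC PUnit.{1} := by
  intro ι f hf
  have : Subsingleton ι := ⟨fun i j => by
    by_contra hij
    exact hf i j hij ⟨PUnit.unit, le_rfl, le_rfl⟩⟩
  infer_instance

end BZ_

/-- BZ -/
theorem p_BZ (h_WOG : T_WOG) (h_PTG : T_PTG) (h_PTE : T_PTE) (h_TWE : T_TWE) (h_TGM : T_TGM)
    (h_CCS : T_CCS) (h_PTR : T_PTR) (h_TDM : T_TDM) (h_CMH : T_CMH) : T_BZ := by
  intro Ω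
  obtain ⟨L, i1, i2, i3, i4, i5, hΩ, hN⟩ := h_WOG Ω
  obtain ⟨T⟩ := tw_exists (WithTop L) Ω PUnit.{1}
  have hPT : ∀ (i j : WithTop L) (h : i ≤ j), ∃ π, EP (T.e i j h) π :=
    h_PTE _ T.toPT (h_TWE _ _ _ T)
  have hEP : ∀ i : L, ∃ π, EP (T.e i ⊤ le_top) π := fun i => hPT i ⊤ le_top
  choose π hE using hEP
  have h0 : CCC (T.A ⊥) := BZ_.iso T.z BZ_.triv
  have hs : ∀ j, ¬ IsMax j → CCC (T.A j) → CCC (T.A (Order.succ j)) := fun j hj h =>
    BZ_.iso (T.s j hj) (h_CCS Ω (T.A j) (T.mu j) (h_TGM (WithTop L) Ω PUnit T j) h)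
  have hCT : CCC (T.A ⊤) := h_PTG (WithTop L) T.toPT h0 hs hPT ⊤
  -- projections between stages
  have hmid : ∀ (i j : L) (h : i ≤ j) (U : RO (T.A i)), ∃ V : RO (T.A j),
      RO.cm (hE i) U = RO.cm (hE j) V := by
    intro i j h U
    obtain ⟨ρ, hρ⟩ := hPT i j (WithTop.coe_le_coe.2 h)
    refine ⟨RO.cm hρ U, RO.ext_mem fun q => ?_⟩
    rw [RO.mem_cm, RO.mem_cm, RO.mem_cm]
    have e1 : π i q ≤ ρ (π j q) := by
      have h1 : q ≤ T.e i ⊤ le_top (ρ (π j q)) := by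
        rw [← T.e_trans i j ⊤ (WithTop.coe_le_coe.2 h) le_top]
        exact ((hE j).ep q).trans (T.e_mono _ _ _ _ _ (hρ.ep _))
      exact ((hE i).pmono h1).trans ((hE i).pe _)
    have e2 : ρ (π j q) ≤ π i q := by
      have h1 : q ≤ T.e j ⊤ le_top (T.e i j (WithTop.coe_le_coe.2 h) (π i q)) := by
        rw [T.e_trans]
        exact (hE i).ep q
      have h2 : π j q ≤ T.e i j (WithTop.coe_le_coe.2 h) (π i q) :=
        ((hE j).pmono h1).trans ((hE j).pe _)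
      exact (hρ.pmono h2).trans (hρ.pe _)
    exact ⟨fun h => RO.mem_down h e2, fun h => RO.mem_down h e1⟩
  refine ⟨T.A ⊤, inferInstance, ⟨T.e ⊥ ⊤ bot_le (T.z.symm PUnit.unit)⟩, hCT, fun g => ?_⟩
  have hlev : ∀ i : Ω, ∃ l : L, ∀ n a, (g i).v n a ∈ Set.range (RO.cm (hE l)) := by
    intro i
    have h1 : ∀ m : ℕ, ∃ l : L, (g i).v m.unpair.1 m.unpair.2 ∈ Set.range (RO.cm (hE l)) := by
      intro m
      obtain ⟨l, U', h⟩ := h_PTR L T.toPT π hE hN hCT ((g i).v m.unpair.1 m.unpair.2)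
      exact ⟨l, U', h.symm⟩
    choose s hs using h1
    obtain ⟨b, hb⟩ := hN s
    refine ⟨b, fun n a => ?_⟩
    obtain ⟨U, hU⟩ := hs (Nat.pair n a)
    rw [Nat.unpair_pair] at hU
    obtain ⟨V, hV⟩ := hmid _ b (hb (Nat.pair n a)) U
    exact ⟨V, hV.symm.trans hU⟩
  choose l hl using hlev
  obtain ⟨b, hb⟩ := hΩ l
  have hl' : ∀ i n a, (g i).v n a ∈ Set.range (RO.cm (hE b)) := by
    intro i n a
    obtain ⟨U, hU⟩ := hl i n a
    obtain ⟨V, hV⟩ := hmid _ b (hb i) U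
    exact ⟨V, hV.symm.trans hU⟩
  obtain ⟨_, _, _, h4, _⟩ := h_CMH _ _ _ _ (hE b)
  choose F hF using fun i => h4 ℕ (g i) (hl' i)
  obtain ⟨E, hE'⟩ := h_TDM L Ω PUnit T π hE b F
  refine ⟨E, fun i => ?_⟩
  rw [hF i]
  exact hE' i

end CofSN2
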