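import Pool.Agent.CofSN2.Targets

/-!
# MP_3e8648_lc, second model: the number of possible longer slaloms
-/

set_option autoImplicit false

namespace CofSN2

open CofSN

namespace CNT_

/-- one coordinate -/
theorem one (s0 : List (Finset ℕ)) (k : ℕ) (b : ℕ → ℕ) (N : ℕ)
    (hN : (∏ i ∈ Finset.range k, 2 ^ (b i + 1)) ≤ N) :
    {t : List (Finset ℕ) | s0 <+: t ∧ t.length = max s0.length k ∧
      ∀ i (_ : i < t.length), s0.length ≤ i → ∀ a ∈ t[i], a ≤ b i}.Finite ∧
    {t : List (Finset ℕ) | s0 <+: t ∧ t.length = max s0.length k ∧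
      ∀ i (_ : i < t.length), s0.length ≤ i → ∀ a ∈ t[i], a ≤ b i}.ncard ≤ N := by
  classical
  let Q : Finset (Fin k → Finset ℕ) :=
    Fintype.piFinset (fun i : Fin k => (Finset.range (b i + 1)).powerset)
  have hQ : Q.card ≤ N := by
    refine le_trans (le_of_eq ?_) hN
    rw [Fintype.card_piFinset, Finset.prod_range]
    refine Finset.prod_congr rfl fun i _ => ?_
    rw [Finset.card_powerset, Finset.card_range]
  let f : List (Finset ℕ) → (Fin k → Finset ℕ) :=
    fun t i => if s0.length ≤ (i : ℕ) then t.getD i ∅ else ∅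
  have hf : ∀ t ∈ {t : List (Finset ℕ) | s0 <+: t ∧ t.length = max s0.length k ∧
      ∀ i (_ : i < t.length), s0.length ≤ i → ∀ a ∈ t[i], a ≤ b i},
      f t ∈ (Q : Set (Fin k → Finset ℕ)) := by
    rintro t ⟨-, h2, h3⟩
    rw [Finset.mem_coe, Fintype.mem_piFinset]
    intro i
    rw [Finset.mem_powerset]
    intro a ha
    by_cases hi : s0.length ≤ (i : ℕ)
    · have hl : (i : ℕ) < t.length := by
        rw [h2]
        exact lt_of_lt_of_le i.2 (le_max_right _ _)
      have h4 : f t i = t[(i : ℕ)] := by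
        simp only [f, hi, if_true]
        exact List.getD_eq_getElem _ _ hl
      rw [h4] at ha
      exact Finset.mem_range.2 (Nat.lt_succ_of_le (h3 i hl hi a ha))
    · simp [f, hi] at ha
  have hinj : Set.InjOn f {t : List (Finset ℕ) | s0 <+: t ∧ t.length = max s0.length k ∧
      ∀ i (_ : i < t.length), s0.length ≤ i → ∀ a ∈ t[i], a ≤ b i} := by
    rintro t ⟨h1, h2, -⟩ u ⟨h1', h2', -⟩ h
    refine List.ext_getElem (h2.trans h2'.symm) fun i hi hi' => ?_
    by_cases hs : i < s0.length
    · rw [← h1.getElem hs, ← h1'.getElem hs]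
    · have hs' := not_lt.1 hs
      have hk : i < k := by
        rw [h2] at hi
        rcases lt_max_iff.1 hi with h' | h'
        · exact absurd h' hs
        · exact h'
      have h5 := congrFun h ⟨i, hk⟩
      simp only [f, hs', if_true] at h5
      rwa [List.getD_eq_getElem _ _ hi, List.getD_eq_getElem _ _ hi'] at h5
  have hfin := Q.finite_toSet
  refine ⟨Set.Finite.of_injOn hf hinj hfin, ?_⟩
  refine le_trans (Set.ncard_le_ncard_of_injOn f hf hinj hfin) ?_
  rw [Set.ncard_coe_finset]
  exact hQ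

end CNT_

theorem p_CNT : T_CNT := by
  intro α A s0 k b N hA hN
  classical
  have key := fun g : A => CNT_.one (s0 g) (k g) (b g) N (hN g g.2)
  have : Fintype A := hA.fintype
  let Q : Finset (A → List (Finset ℕ)) := Fintype.piFinset (fun g : A => (key g).1.toFinset)
  have hQ : Q.card ≤ N ^ A.ncard := by
    rw [Fintype.card_piFinset]
    have h1 : A.ncard = (Finset.univ : Finset A).card := by
      rw [Set.ncard_eq_toFinset_card', Finset.card_univ, Set.toFinset_card]
    rw [h1]
    refine Finset.prod_le_pow_card _ _ _ fun g _ => ?_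
    rw [← Set.ncard_eq_toFinset_card _ (key g).1]
    exact (key g).2
  let f : (α → List (Finset ℕ)) → (A → List (Finset ℕ)) := fun s g => s g
  have hf : ∀ s ∈ {s : α → List (Finset ℕ) | (∀ g, g ∉ A → s g = s0 g) ∧
      ∀ g ∈ A, s0 g <+: s g ∧
    (s g).length = max (s0 g).length (k g) ∧ ∀ i (h : i < (s g).length),
      (s0 g).length ≤ i → ∀ a ∈ (s g)[i], a ≤ b g i},
      f s ∈ (Q : Set (A → List (Finset ℕ))) := by
    rintro s ⟨-, h⟩
    rw [Finset.mem_coe, Fintype.mem_piFinset]
    intro g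
    rw [Set.Finite.mem_toFinset]
    exact h g g.2
  have hinj : Set.InjOn f {s : α → List (Finset ℕ) | (∀ g, g ∉ A → s g = s0 g) ∧
      ∀ g ∈ A, s0 g <+: s g ∧
    (s g).length = max (s0 g).length (k g) ∧ ∀ i (h : i < (s g).length),
      (s0 g).length ≤ i → ∀ a ∈ (s g)[i], a ≤ b g i} := by
    rintro s ⟨h1, -⟩ u ⟨h1', -⟩ h
    funext g
    by_cases hg : g ∈ A
    · exact congrFun h ⟨g, hg⟩
    · rw [h1 g hg, h1' g hg]
  have hfin := Q.finite_toSet
  refine ⟨Set.Finite.of_injOn hf hinj hfin, ?_⟩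
  refine le_trans (Set.ncard_le_ncard_of_injOn f hf hinj hfin) ?_
  rw [Set.ncard_coe_finset]
  exact hQ

end CofSN2
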