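import Pool.Agent.CofSN2.Targets
import Pool.Agent.CofSN.COF
import Pool.Agent.CofSN.SNI
import Pool.Agent.CofSN.INX
import Pool.Agent.CofSN.MIX

/-!
# MP_3e8648_lc, second model: COW, the strong measure zero sets have a small cofinal family
-/

set_option autoImplicit false

namespace CofSN2

open CofSN CofSN.COF_

theorem p_COW (h_TAW : T_TAW) : T_COW := by
  intro L P _ _ _ Λ hC
  choose i' hi' hm using hC.mark
  choose fp w hfp hw1 hw2 hS using hm
  have hτ : ∀ (i : L) (f : Nm (RO P) ℕ) (hf : Λ.In i f) (k : L) (hk : i' i ≤ k),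
      ∃ τ : Nm (RO P) (List Bool), ht f τ = ⊤ ∧
        ∀ σ : Nm (RO P) (List Bool), Λ.In k σ → ∀ x, htS (fp i f hf) σ ⊓ infv σ x ≤ infv τ x := by
    intro i f hf k hk
    obtain ⟨S, hS1, hS2⟩ := hS i f hf k hk
    exact h_TAW L P Λ k f (fp i f hf) (w i f hf) S (In.mono hk (hfp i f hf)) (hw1 i f hf)
      (hw2 i f hf) hS1 hS2
  choose τ hτ1 hτ2 using hτ
  let Y : (L → L) → BSet (RO P) := fun h =>
    { v := fun x => ⨅ i, ⨅ f, ⨅ (hf : Λ.In i f),
        infv (τ i f hf (max (i' i) (h i)) (le_max_left _ _)) x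
      ext := by
        intro x y
        refine le_iInf fun i => le_iInf fun f => le_iInf fun hf => ?_
        refine (inf_le_inf_right _ ((iInf_le _ i).trans ((iInf_le _ f).trans (iInf_le _ hf)))).trans
          infv_ext }
  have hY : ∀ (h : L → L) (x : Nm (RO P) Bool), (Y h).v x = ⨅ i, ⨅ f, ⨅ (hf : Λ.In i f),
      infv (τ i f hf (max (i' i) (h i)) (le_max_left _ _)) x := fun h x => rfl
  refine ⟨Y, fun h => ?_, fun X => ?_⟩
  · -- strong measure zero
    rw [eq_top_iff]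
    refine le_iInf fun f => ?_
    obtain ⟨i, hi⟩ := p_INX L P Λ ℕ f
    refine le_iSup_of_le (τ i f hi (max (i' i) (h i)) (le_max_left _ _)) ?_
    rw [hτ1, top_inf_eq]
    refine le_iInf fun x => ?_
    rw [le_himp_iff, top_inf_eq, hY]
    exact ((iInf_le _ i).trans ((iInf_le _ f).trans (iInf_le _ hi))).trans infv_le
  · -- cofinal
    have hgood : ∀ f : Nm (RO P) ℕ, ∃ δ : L, ∃ σ : Nm (RO P) (List Bool), Λ.In δ σ ∧
        SN X ≤ htS f σ ⊓ SubI X σ := by
      intro f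
      obtain ⟨σ, hσ⟩ := p_SNI p_MIX P X f
      obtain ⟨δ, hδ⟩ := p_INX L P Λ (List Bool) σ
      exact ⟨δ, σ, hδ, hσ.trans (inf_le_inf_right _ ht_le)⟩
    let g : Nm (RO P) ℕ → L := fun f => WellFounded.min (wellFounded_lt (α := L))
      {δ | ∃ σ : Nm (RO P) (List Bool), Λ.In δ σ ∧ SN X ≤ htS f σ ⊓ SubI X σ} (hgood f)
    have hg : ∀ f, ∃ σ : Nm (RO P) (List Bool), Λ.In (g f) σ ∧
        SN X ≤ htS f σ ⊓ SubI X σ := fun f =>
      WellFounded.min_mem (wellFounded_lt (α := L))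
        {δ | ∃ σ : Nm (RO P) (List Bool), Λ.In δ σ ∧ SN X ≤ htS f σ ⊓ SubI X σ} (hgood f)
    have hgm : ∀ f f', Nm.leS f f' = ⊤ → g f ≤ g f' := by
      intro f f' hff
      obtain ⟨σ, hσ1, hσ2⟩ := hg f'
      refine not_lt.1 (WellFounded.not_lt_min (wellFounded_lt (α := L))
        {δ | ∃ σ : Nm (RO P) (List Bool), Λ.In δ σ ∧ SN X ≤ htS f σ ⊓ SubI X σ} ?_)
      exact ⟨σ, hσ1, hσ2.trans (inf_le_inf_right _ (htS_mono hff))⟩
    have hb : ∀ i : L, ∃ b : L, ∀ f : Nm (RO P) ℕ, Λ.In (i' i) f → g f ≤ b := by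
      intro i
      by_contra hcon
      push Not at hcon
      choose fb hfb1 hfb2 using hcon
      obtain ⟨E, hE⟩ := hC.dom (i' i) fb hfb1
      exact absurd (hgm _ _ (hE (g E))) (not_le.2 (hfb2 (g E)))
    choose h hh using hb
    refine le_iSup_of_le h ?_
    refine le_iInf fun x => ?_
    rw [le_himp_iff, hY]
    refine le_iInf fun i => le_iInf fun f => le_iInf fun hf => ?_
    obtain ⟨σ, hσ1, hσ2⟩ := hg (fp i f hf)
    have hσ3 : Λ.In (max (i' i) (h i)) σ :=
      In.mono ((hh i _ (hfp i f hf)).trans (le_max_right _ _)) hσ1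
    refine le_trans ?_ (hτ2 i f hf _ (le_max_left _ _) σ hσ3 x)
    refine le_inf (inf_le_left.trans (hσ2.trans inf_le_left)) ?_
    rw [← le_himp_iff]
    exact hσ2.trans (inf_le_right.trans (iInf_le _ x))

end CofSN2
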