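import Pool.Agent.CofSN2.Targets2
import Pool.Agent.CofSN.CPT

/-!
# MP_3e8648_lc, second model: compactness of the promises
-/

set_option autoImplicit false

namespace CofSN2

open CofSN

namespace CPW_

variable {Ω P : Type} [Preorder P] {μ : Set (Mk P)}

/-- decide finitely many things at once -/
theorem dec_gen {S : Type} [Finite S] (V : S → ℕ → RO P)
    (hV : ∀ s p, ∃ q ≤ p, ∃ a, q ∈ V s a) (p : P) :
    ∃ q ≤ p, ∃ B : S → ℕ, ∀ s, q ∈ V s (B s) := by
  classical
  have := Fintype.ofFinite S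
  suffices h : ∀ F : Finset S, ∃ q ≤ p, ∃ B : S → ℕ, ∀ s ∈ F, q ∈ V s (B s) by
    obtain ⟨q, hq, B, hB⟩ := h Finset.univ
    exact ⟨q, hq, B, fun s => hB s (Finset.mem_univ s)⟩
  intro F
  induction F using Finset.induction_on with
  | empty => exact ⟨p, le_rfl, fun _ => 0, fun s hs => absurd hs (Finset.notMem_empty s)⟩
  | insert s F hs ih =>
    obtain ⟨q, hq, B, hB⟩ := ih
    obtain ⟨r, hr, a, ha⟩ := hV s q
    refine ⟨r, hr.trans hq, fun s' => if s' = s then a else B s', fun s' hs' => ?_⟩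
    by_cases h : s' = s
    · subst h; simpa using ha
    · simp only [h, if_false]
      rcases Finset.mem_insert.1 hs' with h' | h'
      · exact absurd h' h
      · exact RO.mem_down (hB s' h') hr

/-- the slots of a type -/
abbrev Sl (t : Ty Ω P) : Type := Σ G : Mk P, Fin (t.nl G)

/-- the promise at the slot -/
def pos {t : Ty Ω P} (c : S3 Ω P μ) (s : Sl t) (x : Nm (RO P) ℕ) : Prop :=
  (c.pr s.1)[(s.2 : ℕ)]? = some x

/-- the condition has type `t` and its promises have the letters of `σ` -/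
def Tp (t : Ty Ω P) (σ : List (Sl t → ℕ)) (c : S3 Ω P μ) : Prop :=
  c.ty = t ∧ ∀ (k : ℕ) (h : k < σ.length) (s : Sl t) (x : Nm (RO P) ℕ), pos c s x →
    c.p ∈ x.v k (σ[k] s)

theorem nl_eq {t : Ty Ω P} {c : S3 Ω P μ} (h : c.ty = t) (G : Mk P) :
    (c.pr G).length = t.nl G := by
  subst h; rfl

theorem st_eq {t : Ty Ω P} {c : S3 Ω P μ} (h : c.ty = t) (G : Mk P) : c.st G = t.st G := by
  subst h; rfl

theorem cs_eq {t : Ty Ω P} {c : S3 Ω P μ} (h : c.ty = t) (F : Ω → Nm (RO P) ℕ) :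
    c.cs F = t.cs F := by
  subst h; rfl

theorem ds_eq {t : Ty Ω P} {c : S3 Ω P μ} (h : c.ty = t) (F : Ω → Nm (RO P) ℕ) :
    c.ds F = t.ds F := by
  subst h; rfl

theorem dp_eq {t : Ty Ω P} {c : S3 Ω P μ} (h : c.ty = t) (F : Ω → Nm (RO P) ℕ) :
    c.dp F = t.dp F := by
  subst h; rfl

theorem pos_ex {t : Ty Ω P} {c : S3 Ω P μ} (h : c.ty = t) (s : Sl t) :
    ∃ x, pos c s x ∧ x ∈ c.pr s.1 := by
  have hl : (s.2 : ℕ) < (c.pr s.1).length := by rw [nl_eq h]; exact s.2.2
  exact ⟨(c.pr s.1)[(s.2 : ℕ)], List.getElem?_eq_getElem hl, List.getElem_mem hl⟩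

/-- the regular sets of the tree -/
def Lt (μ : Set (Mk P)) (g : Nm (RO (S3 Ω P μ)) ℕ) (t : Ty Ω P) (n : ℕ)
    (σ : List (Sl t → ℕ)) : RO P where
  c := {p | ∀ (j : ℕ), ∀ q ≤ p, ∃ c : S3 Ω P μ, c.p ≤ q ∧ Tp t σ c ∧ c ∈ gtv g n j}
  down := fun _ _ hq hp j r hr => hp j r (hr.trans hq)
  reg := by
    intro p hp j q hq
    obtain ⟨r, hr, hrc⟩ := hp q hq
    obtain ⟨c, hc, h⟩ := hrc j r le_rfl
    exact ⟨c, hc.trans hr, h⟩

theorem mem_Lt {g : Nm (RO (S3 Ω P μ)) ℕ} {t : Ty Ω P}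
    {n : ℕ} {σ : List (Sl t → ℕ)} {p : P} : p ∈ Lt μ g t n σ ↔
      ∀ (j : ℕ), ∀ q ≤ p, ∃ c : S3 Ω P μ, c.p ≤ q ∧ Tp t σ c ∧ c ∈ gtv g n j := Iff.rfl

theorem Lt_step (g : Nm (RO (S3 Ω P μ)) ℕ) (t : Ty Ω P)
    (n : ℕ) [Finite (Sl t)] (hGM : ∀ s : Sl t, GM s.1) (σ : List (Sl t → ℕ)) :
    Lt μ g t n σ ≤ ⨆ a, Lt μ g t n (σ ++ [a]) := by
  classical
  have := Fintype.ofFinite (Sl t)
  intro p' hp'
  refine RO.mem_iSup.2 fun q hq => ?_
  by_contra hcon
  push Not at hcon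
  obtain ⟨q1, hq1, B, hB⟩ := dec_gen (fun (s : Sl t) k => s.1.nv false σ.length k)
    (fun s p => (hGM s).tot false σ.length p) q
  have claim : ∀ A : Finset (Sl t → ℕ), ∃ q2 ≤ q1, ∃ j0 : ℕ, ∀ a ∈ A, ∀ c : S3 Ω P μ,
      c.p ≤ q2 → Tp t (σ ++ [a]) c → c ∉ gtv g n j0 := by
    intro A
    induction A using Finset.induction_on with
    | empty => exact ⟨q1, le_rfl, 0, fun a ha => absurd ha (Finset.notMem_empty a)⟩
    | insert a A ha ih =>
      obtain ⟨q2, hq2, j0, h0⟩ := ih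
      have h1 : q2 ∉ Lt μ g t n (σ ++ [a]) := hcon q2 (hq2.trans hq1) a
      rw [mem_Lt] at h1
      push Not at h1
      obtain ⟨j1, q3, hq3, h3⟩ := h1
      refine ⟨q3, hq3.trans hq2, max j0 j1, fun b hb c hc hT hg => ?_⟩
      rcases Finset.mem_insert.1 hb with hb | hb
      · subst hb
        exact h3 c hc hT (CPT_.gtv_mono (le_max_right _ _) hg)
      · exact h0 b hb c (hc.trans hq3) hT (CPT_.gtv_mono (le_max_left _ _) hg)
  obtain ⟨q2, hq2, j0, h0⟩ := claim (Fintype.piFinset fun s => Finset.range (cb (B s) + 1))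
  obtain ⟨c, hc, hT, hg⟩ := mem_Lt.1 hp' j0 q2 (hq2.trans (hq1.trans hq))
  choose Y hY1 hY2 using fun s : Sl t => pos_ex hT.1 s
  obtain ⟨r, hr, a, ha⟩ := dec_gen (fun (s : Sl t) k => (Y s).v σ.length k)
    (fun s p => (Y s).decide σ.length p) c.p
  refine h0 a ?_ (c.put r hr) (hr.trans hc) ⟨hT.1, ?_⟩
    (RO.mem_down hg (c.put_le r hr))
  · rw [Fintype.mem_piFinset]
    intro s
    rw [Finset.mem_range, Nat.lt_succ_iff]
    exact c.bd s.1 (Y s) (hY2 s) σ.length r _ _ (ha s)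
      (RO.mem_down (hB s) (hr.trans (hc.trans hq2)))
  · intro k hk s y hy
    have hy' : y = Y s := by
      have h1 : (c.pr s.1)[(s.2 : ℕ)]? = some y := hy
      have h2 : (c.pr s.1)[(s.2 : ℕ)]? = some (Y s) := hY1 s
      rw [h1] at h2
      exact Option.some.inj h2
    change r ∈ y.v k ((σ ++ [a])[k] s)
    by_cases hk' : k < σ.length
    · rw [List.getElem_append_left hk']
      exact RO.mem_down (hT.2 k hk' s y hy) hr
    · have hk2 : k = σ.length := by
        rw [List.length_append, List.length_singleton] at hk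
        omega
      subst hk2
      have e : (σ ++ [a])[σ.length] = a := by simp
      rw [e, hy']
      exact ha s

end CPW_

open CPW_ in
/-- compactness of the promises -/
theorem p_CPW (hBRA : T_BRA) (hEXL : T_EXL) : T_CPW := by
  classical
  intro Ω P _ μ hμ g t n p hall
  have H0 : ∀ j, ∀ q ≤ p, ∃ c : S3 Ω P μ, c.p ≤ q ∧ c.ty = t ∧ c ∈ gtv g n j := by
    intro j q hq
    obtain ⟨r, hr, s, ⟨c, hcs, hct, hcg⟩, hrs⟩ := RO.mem_gen.1 (hall j) q hq
    have hrc : r ≤ c.p := by rw [hcs]; exact hrs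
    exact ⟨c.put r hrc, hr, hct, RO.mem_down hcg (c.put_le r hrc)⟩
  obtain ⟨c0, _, hc0, _⟩ := H0 0 p le_rfl
  have hAfin : {G | t.nl G ≠ 0}.Finite := by
    refine c0.finG.subset fun G hG => Or.inr fun h => hG ?_
    rw [← nl_eq hc0, h]; rfl
  have hAμ : {G | t.nl G ≠ 0} ⊆ μ := by
    intro G hG
    by_contra h
    refine hG ?_
    rw [← nl_eq hc0, (c0.sup G h).2]; rfl
  have hfinS : Finite (Sl t) := by
    have := hAfin.to_subtype
    let f : Sl t → Σ G : {G | t.nl G ≠ 0}, Fin (t.nl G.1) := fun s =>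
      ⟨⟨s.1, fun h => by
        have h2 := s.2.2
        omega⟩, s.2⟩
    refine Finite.of_injective f ?_
    intro s s' h
    obtain ⟨i, l⟩ := s
    obtain ⟨i', l'⟩ := s'
    simp only [f, Sigma.mk.injEq, Subtype.mk.injEq] at h
    obtain ⟨h1, h2⟩ := h
    subst h1
    rw [heq_eq_eq] at h2
    rw [h2]
  have hsl : ∀ s : Sl t, s.1 ∈ μ := fun s => hAμ fun h => by
    have h2 := s.2.2
    omega
  have hGM : ∀ s : Sl t, GM s.1 := fun s => hμ s.1 (hsl s)
  obtain ⟨z, hz1, hz2⟩ := hBRA P (Sl t → ℕ) (Lt μ g t n) (Lt_step g t n hGM)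
  have hp0 : p ∈ Lt μ g t n [] := by
    refine mem_Lt.2 fun j q hq => ?_
    obtain ⟨c, hc, hct, hcg⟩ := H0 j q hq
    exact ⟨c, hc, ⟨hct, fun k hk => absurd hk (Nat.not_lt_zero k)⟩, hcg⟩
  -- the limit promises
  let xi : Sl t → Nm (RO P) ℕ := fun s => Nm.push (fun n => n + 1)
    (fun m (w : Fin (m + 1) → (Sl t → ℕ)) => w (Fin.last m) s) z
  have hxi : ∀ (s : Sl t) (m : ℕ) (a : Sl t → ℕ) (q : P), q ∈ z.v m a → q ∈ (xi s).v m (a s) := by
    intro s m a q hq
    refine Nm.mem_push.2 fun q' hq' w hw => ?_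
    have h1 := hw (Fin.last m)
    have h2 : q' ∈ z.v m (w (Fin.last m)) := by simpa using h1
    rw [Nm.uniq h2 (RO.mem_down hq hq')]
  have hword : ∀ (q : P) (N : ℕ) (w : ℕ → (Sl t → ℕ)), q ∈ Lt μ g t n [] →
      (∀ k < N, q ∈ z.v k (w k)) → q ∈ Lt μ g t n (List.ofFn fun k : Fin N => w k) := by
    intro q N w hq hw
    refine hz1 q hq _ fun k hk => ?_
    rw [List.getElem_ofFn]
    rw [List.length_ofFn] at hk
    exact hw k hk
  have hle : ∀ (s : Sl t) (m : ℕ) (q : P) (a b : ℕ), q ∈ (xi s).v m a →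
      q ∈ s.1.nv false m b → a ≤ cb b := by
    intro s m q a b ha hb
    by_cases hex : ∃ q1 ≤ q, q1 ∈ Lt μ g t n []
    · obtain ⟨q1, hq1, hq1L⟩ := hex
      obtain ⟨q2, hq2, w, hw⟩ := z.decides (m + 1) q1
      have h2 := hword q2 (m + 1) w (RO.mem_down hq1L hq2) hw
      obtain ⟨c, hc, hT, _⟩ := mem_Lt.1 h2 0 q2 le_rfl
      obtain ⟨y, hy1, hy2⟩ := pos_ex hT.1 s
      have hm : m < (List.ofFn fun k : Fin (m + 1) => w k).length := by
        rw [List.length_ofFn]; omega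
      have h3 := hT.2 m hm s y hy1
      rw [List.getElem_ofFn] at h3
      have hcq : c.p ≤ q := hc.trans (hq2.trans hq1)
      have h6 : w m s ≤ cb b := c.bd s.1 y hy2 m c.p _ _ h3 (RO.mem_down hb hcq)
      have h7 : q2 ∈ (xi s).v m (w m s) := hxi s m (w m) q2 (hw m (by omega))
      rw [Nm.uniq (RO.mem_down ha (hq2.trans hq1)) h7]
      exact h6
    · have hqc : q ∈ (Lt μ g t n [])ᶜ := RO.mem_compl.2 fun q1 hq1 h1 => hex ⟨q1, hq1, h1⟩
      have h1 := hxi s m default q (hz2 q hqc m)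
      rw [Nm.uniq ha h1]
      exact Nat.zero_le _
  -- the limit condition
  let ci : S3 Ω P μ :=
    { p := p
      cs := t.cs
      ds := t.ds
      dp := t.dp
      st := t.st
      pr := fun G => List.ofFn fun l : Fin (t.nl G) => xi ⟨G, l⟩
      finF := by
        refine c0.finF.subset fun F hF => ?_
        rw [Set.mem_ofPred_eq, cs_eq hc0, ds_eq hc0, dp_eq hc0]; exact hF
      finG := by
        refine c0.finG.subset fun G hG => ?_
        rcases hG with hG | hG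
        · left; rw [st_eq hc0]; exact hG
        · right
          intro h
          refine hG (List.eq_nil_of_length_eq_zero ?_)
          rw [List.length_ofFn, ← nl_eq hc0, h]; rfl
      sup := fun G hG => by
        have h1 := c0.sup G hG
        refine ⟨by rw [← st_eq hc0]; exact h1.1, List.eq_nil_of_length_eq_zero ?_⟩
        rw [List.length_ofFn, ← nl_eq hc0, h1.2]; rfl
      hgt := fun G m h q hq k hk => by
        obtain ⟨c, hc, hct, _⟩ := H0 0 q hq
        have h1 := c.hgt G m (by rw [st_eq hct]; exact h) c.p le_rfl k (RO.mem_down hk hc)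
        simpa only [st_eq hct] using h1
      wid := fun G m h q hq k hk => by
        obtain ⟨c, hc, hct, _⟩ := H0 0 q hq
        have h1 := c.wid G m (by rw [st_eq hct]; exact h) c.p le_rfl k (RO.mem_down hk hc)
        simpa only [st_eq hct] using h1
      len := fun G q hq k hk => by
        obtain ⟨c, hc, hct, _⟩ := H0 0 q hq
        have h1 := c.len G c.p le_rfl k (by rw [st_eq hct]; exact RO.mem_down hk hc)
        rw [nl_eq hct] at h1
        rw [List.length_ofFn]; exact h1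
      bd := fun G x hx m q a k ha hk => by
        rw [List.mem_ofFn] at hx
        obtain ⟨l, rfl⟩ := hx
        exact hle ⟨G, l⟩ m q a k ha hk }
  obtain ⟨c1, hc1, v, hv⟩ := g.decide n ci
  -- long slaloms
  obtain ⟨c2, hc2, -, -, -, hpr2, -, hst2⟩ := hEXL Ω P μ hμ c1 {G | t.nl G ≠ 0}
    (fun G => (c1.pr G).length + t.nl G) hAfin hAμ
  have hc2i : c2 ≤ ci := hc2.trans hc1
  have hlen2 : ∀ G, t.nl G ≠ 0 → (c2.pr G).length + t.nl G ≤ (c2.st G).length := by
    intro G hG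
    rw [hst2 G hG, hpr2]
    exact le_max_right _ _
  obtain ⟨N2, hN2⟩ : ∃ N2, ∀ G, (c2.st G).length ≤ N2 := by
    obtain ⟨N2, hN2⟩ := (c2.finG.image fun G => (c2.st G).length).bddAbove
    refine ⟨N2, fun G => ?_⟩
    by_cases hG : c2.st G ≠ []
    · exact hN2 (Set.mem_image_of_mem _ (Or.inl hG))
    · rw [not_not] at hG
      rw [hG]; exact Nat.zero_le _
  obtain ⟨q, hq, w, hw⟩ := z.decides N2 c2.p
  have hc2i' := S3.le_def.1 hc2i
  have hqp : q ≤ p := hq.trans hc2i'.1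
  have hqL := hword q N2 w (RO.mem_down hp0 hqp) hw
  obtain ⟨c, hc, hT, hcg⟩ := mem_Lt.1 hqL v q le_rfl
  have hcc2 : c.p ≤ c2.p := hc.trans hq
  let d : S3 Ω P μ :=
    { p := c.p
      cs := c2.cs
      ds := c2.ds
      dp := c2.dp
      st := c2.st
      pr := fun G => c2.pr G ++ c.pr G
      finF := c2.finF
      finG := by
        refine (c2.finG.union c.finG).subset fun G hG => ?_
        rcases hG with hG | hG
        · exact Or.inl (Or.inl hG)
        · by_cases h : c2.pr G = []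
          · rw [h, List.nil_append] at hG
            exact Or.inr (Or.inr hG)
          · exact Or.inl (Or.inr h)
      sup := fun G hG => by
        refine ⟨(c2.sup G hG).1, ?_⟩
        rw [(c2.sup G hG).2, (c.sup G hG).2]; rfl
      hgt := fun G m h r hr => c2.hgt G m h r (hr.trans hcc2)
      wid := fun G m h r hr => c2.wid G m h r (hr.trans hcc2)
      len := fun G r hr k hk => by
        rw [List.length_append, nl_eq hT.1]
        by_cases hG : t.nl G = 0
        · rw [hG, Nat.add_zero]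
          exact c2.len G r (hr.trans hcc2) k hk
        · have h1 := (hμ G (hAμ hG)).big _ _ _ hk
          have h2 := hlen2 G hG
          omega
      bd := fun G x hx => by
        rcases List.mem_append.1 hx with hx | hx
        · exact c2.bd G x hx
        · exact c.bd G x hx }
  have hd2 : d ≤ c2 := by
    refine S3.le_def.2 ⟨hcc2, fun _ => List.prefix_rfl, fun _ => List.prefix_rfl,
      fun _ => List.Subset.refl _, fun _ _ h h' => absurd h (not_lt.2 h'),
      fun _ => List.prefix_rfl, fun _ => List.subset_append_left _ _,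
      fun _ _ h h' => absurd h (not_lt.2 h')⟩
  have hdc : d ≤ c := by
    refine S3.le_def.2 ⟨le_rfl, fun F => ?_, fun F => ?_, fun F => ?_, ?_, fun G => ?_,
      fun _ => List.subset_append_right _ _, ?_⟩
    · rw [cs_eq hT.1]; exact hc2i'.2.1 F
    · rw [ds_eq hT.1]; exact hc2i'.2.2.1 F
    · rw [dp_eq hT.1]; exact hc2i'.2.2.2.1 F
    · intro F m hm hm' ξ hξ r hr a ha
      rw [ds_eq hT.1] at hm'
      rw [dp_eq hT.1] at hξ
      exact hc2i'.2.2.2.2.1 F m hm hm' ξ hξ r (hr.trans hcc2) a ha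
    · rw [st_eq hT.1]; exact hc2i'.2.2.2.2.2.1 G
    · intro G m hm hm' x hx r hr a ha
      rw [st_eq hT.1] at hm'
      obtain ⟨l, hl, hlx⟩ := List.getElem_of_mem hx
      have hl' : l < t.nl G := by rw [← nl_eq hT.1]; exact hl
      have hpos : pos (t := t) c ⟨G, ⟨l, hl'⟩⟩ x := by
        show (c.pr G)[l]? = some x
        rw [List.getElem?_eq_getElem hl, hlx]
      have hm2 : m < (c2.st G).length := hm
      have hmN : m < N2 := hm2.trans_le (hN2 G)
      have h3 := hT.2 m (by rw [List.length_ofFn]; exact hmN) ⟨G, ⟨l, hl'⟩⟩ x hpos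
      rw [List.getElem_ofFn] at h3
      have hmem : xi ⟨G, ⟨l, hl'⟩⟩ ∈ ci.pr G := by
        show _ ∈ List.ofFn fun l : Fin (t.nl G) => xi ⟨G, l⟩
        rw [List.mem_ofFn]
        exact ⟨⟨l, hl'⟩, rfl⟩
      have h5 : r ∈ (xi ⟨G, ⟨l, hl'⟩⟩).v m (w m ⟨G, ⟨l, hl'⟩⟩) :=
        hxi _ m (w m) r (RO.mem_down (hw m hmN) (hr.trans hc))
      have h6 := hc2i'.2.2.2.2.2.2.2 G m hm2 hm' _ hmem r (hr.trans hcc2) _ h5
      rw [Nm.uniq ha (RO.mem_down h3 hr)]
      exact h6
  have h1 : d ∈ g.v n v := RO.mem_down hv (hd2.trans hc2)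
  exact lt_irrefl v (CPT_.mem_gtv.1 (RO.mem_down hcg hdc) d le_rfl v h1)

end CofSN2
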