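import Pool.Agent.CofSN.Targets

/-!
# MP_3e8648_lc, second model (cof(SN) < non(N)): marks and the successor step (helper90)

A mark of `P` is a pair of names of functions (`false`: heights, `true`: widths), given by
generating sets of conditions.
-/

set_option autoImplicit false

namespace CofSN2

open CofSN

/-! ## Marks -/

/-- generating sets of a pair of names of functions -/
abbrev Mk (P : Type) : Type := Bool → ℕ → ℕ → Set P

/-- the image of a mark -/
def Mk.im {P Q : Type} (e : P → Q) (G : Mk P) : Mk Q := fun b n k => e '' G b n k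

/-- the Boolean value of `G b (n) = k` -/
def Mk.nv {P : Type} [Preorder P] (G : Mk P) (b : Bool) (n k : ℕ) : RO P := RO.gen (G b n k)

/-- good marks: names; the widths are nondecreasing and at least `n + 1` -/
structure GM {P : Type} [Preorder P] (G : Mk P) : Prop where
  disj : ∀ b n k l p, p ∈ G.nv b n k → p ∈ G.nv b n l → k = l
  tot : ∀ b n p, ∃ q ≤ p, ∃ k, q ∈ G.nv b n k
  big : ∀ n k p, p ∈ G.nv true n k → n + 1 ≤ k
  mono : ∀ n m k l p, n ≤ m → p ∈ G.nv true n k → p ∈ G.nv true m l → k ≤ l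

/-- a bound for the codes of the words of length at most `k` -/
noncomputable def cb (k : ℕ) : ℕ := (List.finite_length_le Bool k).toFinset.sup Encodable.encode

theorem le_cb {k : ℕ} {s : List Bool} (h : s.length ≤ k) : Encodable.encode s ≤ cb k :=
  Finset.le_sup (f := Encodable.encode) ((Set.Finite.mem_toFinset _).2 h)

/-! ## The successor step -/

/-- Conditions of the successor step: a condition `p` of `P`; for (finitely many) families `F`
of functions indexed by `Ω` a finite piece `cs F` of a Cohen function, a finite piece `ds F` of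
a dominating function with the indices `dp F` of the functions it promises to dominate; for
(finitely many) marks `G ∈ μ` a finite slalom `st G` bounded by the heights and widths of the
mark and a list `pr G` of functions it promises to capture. -/
@[ext] structure S3 (Ω P : Type) [Preorder P] (μ : Set (Mk P)) where
  p : P
  cs : (Ω → Nm (RO P) ℕ) → List ℕ
  ds : (Ω → Nm (RO P) ℕ) → List ℕ
  dp : (Ω → Nm (RO P) ℕ) → List Ω
  st : Mk P → List (Finset ℕ)
  pr : Mk P → List (Nm (RO P) ℕ)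
  finF : {F | cs F ≠ [] ∨ ds F ≠ [] ∨ dp F ≠ []}.Finite
  finG : {G | st G ≠ [] ∨ pr G ≠ []}.Finite
  sup : ∀ G, G ∉ μ → st G = [] ∧ pr G = []
  hgt : ∀ G n (h : n < (st G).length), ∀ q ≤ p, ∀ k, q ∈ G.nv false n k →
    ∀ a ∈ (st G)[n], a ≤ cb k
  wid : ∀ G n (h : n < (st G).length), ∀ q ≤ p, ∀ k, q ∈ G.nv true n k →
    ((st G)[n]).card ≤ k
  len : ∀ G, ∀ q ≤ p, ∀ k, q ∈ G.nv true (st G).length k → (pr G).length ≤ k
  bd : ∀ G, ∀ x ∈ pr G, ∀ n q a k, q ∈ x.v n a → q ∈ G.nv false n k → a ≤ cb k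

namespace S3

variable {Ω P : Type} [Preorder P] {μ : Set (Mk P)}

instance : Preorder (S3 Ω P μ) where
  le c' c := c'.p ≤ c.p ∧ (∀ F, c.cs F <+: c'.cs F) ∧ (∀ F, c.ds F <+: c'.ds F) ∧
    (∀ F, c.dp F ⊆ c'.dp F) ∧
    (∀ F n (h : n < (c'.ds F).length), (c.ds F).length ≤ n → ∀ ξ ∈ c.dp F, ∀ q ≤ c'.p, ∀ a,
      q ∈ (F ξ).v n a → a ≤ (c'.ds F)[n]) ∧
    (∀ G, c.st G <+: c'.st G) ∧ (∀ G, c.pr G ⊆ c'.pr G) ∧
    (∀ G n (h : n < (c'.st G).length), (c.st G).length ≤ n → ∀ x ∈ c.pr G, ∀ q ≤ c'.p, ∀ a,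
      q ∈ x.v n a → a ∈ (c'.st G)[n])
  le_refl c := ⟨le_rfl, fun _ => List.prefix_rfl, fun _ => List.prefix_rfl,
    fun _ => List.Subset.refl _, fun _ _ h h' => absurd h (not_lt.2 h'),
    fun _ => List.prefix_rfl, fun _ => List.Subset.refl _,
    fun _ _ h h' => absurd h (not_lt.2 h')⟩
  le_trans := by
    intro a b c hab hbc
    refine ⟨hab.1.trans hbc.1, fun F => (hbc.2.1 F).trans (hab.2.1 F),
      fun F => (hbc.2.2.1 F).trans (hab.2.2.1 F),
      fun F => List.Subset.trans (hbc.2.2.2.1 F) (hab.2.2.2.1 F), ?_,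
      fun G => (hbc.2.2.2.2.2.1 G).trans (hab.2.2.2.2.2.1 G),
      fun G => List.Subset.trans (hbc.2.2.2.2.2.2.1 G) (hab.2.2.2.2.2.2.1 G), ?_⟩
    · intro F n h hn ξ hξ q hq k hk
      by_cases hn' : n < (b.ds F).length
      · have h1 := hbc.2.2.2.2.1 F n hn' hn ξ hξ q (hq.trans hab.1) k hk
        have h2 : (a.ds F)[n] = (b.ds F)[n] := ((hab.2.2.1 F).getElem hn').symm
        rw [h2]
        exact h1
      · exact hab.2.2.2.2.1 F n h (not_lt.1 hn') ξ (hbc.2.2.2.1 F hξ) q hq k hk
    · intro G n h hn x hx q hq k hk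
      by_cases hn' : n < (b.st G).length
      · have h1 := hbc.2.2.2.2.2.2.2 G n hn' hn x hx q (hq.trans hab.1) k hk
        have h2 : (a.st G)[n] = (b.st G)[n] := ((hab.2.2.2.2.2.1 G).getElem hn').symm
        rw [h2]
        exact h1
      · exact hab.2.2.2.2.2.2.2 G n h (not_lt.1 hn') x (hbc.2.2.2.2.2.2.1 G hx) q hq k hk

theorem le_def {c' c : S3 Ω P μ} : c' ≤ c ↔ c'.p ≤ c.p ∧ (∀ F, c.cs F <+: c'.cs F) ∧
    (∀ F, c.ds F <+: c'.ds F) ∧ (∀ F, c.dp F ⊆ c'.dp F) ∧
    (∀ F n (h : n < (c'.ds F).length), (c.ds F).length ≤ n → ∀ ξ ∈ c.dp F, ∀ q ≤ c'.p, ∀ a,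
      q ∈ (F ξ).v n a → a ≤ (c'.ds F)[n]) ∧
    (∀ G, c.st G <+: c'.st G) ∧ (∀ G, c.pr G ⊆ c'.pr G) ∧
    (∀ G n (h : n < (c'.st G).length), (c.st G).length ≤ n → ∀ x ∈ c.pr G, ∀ q ≤ c'.p, ∀ a,
      q ∈ x.v n a → a ∈ (c'.st G)[n]) := Iff.rfl

/-- the condition with no information on the new objects -/
def emb (p : P) : S3 Ω P μ where
  p := p
  cs := fun _ => []
  ds := fun _ => []
  dp := fun _ => []
  st := fun _ => []
  pr := fun _ => []
  finF := by simp
  finG := by simp
  sup := by simp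
  hgt := by simp
  wid := by simp
  len := by simp
  bd := by simp

/-- the same information over a stronger condition of `P` -/
def put (c : S3 Ω P μ) (q : P) (hq : q ≤ c.p) : S3 Ω P μ where
  p := q
  cs := c.cs
  ds := c.ds
  dp := c.dp
  st := c.st
  pr := c.pr
  finF := c.finF
  finG := c.finG
  sup := c.sup
  hgt := fun G n h r hr => c.hgt G n h r (hr.trans hq)
  wid := fun G n h r hr => c.wid G n h r (hr.trans hq)
  len := fun G r hr => c.len G r (hr.trans hq)
  bd := c.bd

theorem put_le (c : S3 Ω P μ) (q : P) (hq : q ≤ c.p) : c.put q hq ≤ c :=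
  ⟨hq, fun _ => List.prefix_rfl, fun _ => List.prefix_rfl, fun _ => List.Subset.refl _,
    fun _ _ h h' => absurd h (not_lt.2 h'), fun _ => List.prefix_rfl,
    fun _ => List.Subset.refl _, fun _ _ h h' => absurd h (not_lt.2 h')⟩

/-- longer pieces of the Cohen functions -/
def app (c : S3 Ω P μ) (h : (Ω → Nm (RO P) ℕ) → List ℕ) (hh : {F | h F ≠ []}.Finite) :
    S3 Ω P μ where
  p := c.p
  cs := fun F => c.cs F ++ h F
  ds := c.ds
  dp := c.dp
  st := c.st
  pr := c.pr
  finF := by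
    refine (c.finF.union hh).subset ?_
    intro F hF
    by_cases h1 : h F = []
    · left
      simpa [h1] using hF
    · exact Or.inr h1
  finG := c.finG
  sup := c.sup
  hgt := c.hgt
  wid := c.wid
  len := c.len
  bd := c.bd

theorem app_le (c : S3 Ω P μ) (h : (Ω → Nm (RO P) ℕ) → List ℕ) (hh : {F | h F ≠ []}.Finite) :
    c.app h hh ≤ c :=
  ⟨le_rfl, fun _ => List.prefix_append _ _, fun _ => List.prefix_rfl,
    fun _ => List.Subset.refl _, fun _ _ h h' => absurd h (not_lt.2 h'),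
    fun _ => List.prefix_rfl, fun _ => List.Subset.refl _,
    fun _ _ h h' => absurd h (not_lt.2 h')⟩

end S3

/-! ## New marks -/

/-- the widths given by a piece of a Cohen function -/
def om (s : List ℕ) (n : ℕ) : ℕ := (s.take (n + 1)).foldr max 0 + n + 1

/-- the end of the block of number `n`, for given widths -/
def sm (w : ℕ → ℕ) (n : ℕ) : ℕ := ∑ i ∈ Finset.range (n + 1), w i

open Classical in
/-- the new mark: the widths come from the Cohen function with index `F`, the height at `n` is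
the maximum of the function `F ξ` on the blocks up to `n` -/
def newG {Ω P : Type} [Preorder P] {μ : Set (Mk P)} (F : Ω → Nm (RO P) ℕ) (ξ : Ω) :
    Mk (S3 Ω P μ) := fun b n k => {c | n < (c.cs F).length ∧
      if b = true then k = om (c.cs F) n
      else ∃ a : ℕ → ℕ, (∀ m < sm (om (c.cs F)) n, c.p ∈ (F ξ).v m (a m)) ∧
        k = (Finset.range (sm (om (c.cs F)) n)).sup a}

/-- the marks after the step -/
def muS (Ω : Type) {P : Type} [Preorder P] (μ : Set (Mk P)) : Set (Mk (S3 Ω P μ)) :=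
  {G' | (∃ G ∈ μ, G' = G.im S3.emb) ∨ ∃ F ξ, G' = newG F ξ}

end CofSN2
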