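import Pool.Agent.CofSN2.Targets2
import Pool.Agent.CofSN.FIN

/-!
# MP_3e8648_lc, second model: assembly (helper90)
-/

set_option autoImplicit false

namespace CofSN2

open CofSN

open FIN_ Cardinal in
/-- FIX -/
theorem p_FIX (h_COW : T_COW) (h_CMH : T_CMH) (h_WOR : T_WOR) (h_PTE : T_PTE)
    (h_TWE : T_TWE) (h_TWC : T_TWC) (h_TIN : T_TIN) (h_PTR : T_PTR) (h_TSA : T_TSA)
    (h_TDM : T_TDM) (h_TNM : T_TNM) (h_TGM : T_TGM) (h_IMN : T_IMN) (h_BIN : T_BIN)
    (h_COC : T_COC) (h_TRW : T_TRW) (h_CO3 : T_CO3) : T_FIX := by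
  classical
  obtain ⟨L, i1, i2, i3, i4, i5, hinf, hcnt, hbdd⟩ := h_WOR
  let K : Type := L → L
  have hLK : Cardinal.mk L ≤ Cardinal.mk K := by
    refine Cardinal.mk_le_of_injective (f := fun a : L => (fun _ => a : L → L)) ?_
    intro a b hab
    exact congrFun hab a
  haveI : Infinite K := by
    rw [Cardinal.infinite_iff] at hinf ⊢
    exact hinf.trans hLK
  let Θ : Type := Set K
  let P0 : Type := Co Θ
  obtain ⟨T⟩ := tw_exists (WithTop L) L P0
  have hPT : ∀ (i j : WithTop L) (h : i ≤ j), ∃ π, EP (T.e i j h) π :=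
    h_PTE _ T.toPT (h_TWE _ _ _ T)
  have hEP : ∀ i : L, ∃ π, EP (T.e i ⊤ le_top) π := fun i => hPT i ⊤ le_top
  choose π hE using hEP
  have hC0 : CCC P0 := h_COC Θ
  have hCC : ∀ j, CCC (T.A j) := h_TWC L L P0 T hcnt hbdd hC0
  have hCT : CCC (T.A ⊤) := hCC ⊤
  have hJK : Cardinal.mk (WithTop L) ≤ Cardinal.mk K := by
    have : Cardinal.mk (WithTop L) = Cardinal.mk L + 1 := Cardinal.mk_option
    rw [this]
    exact Cardinal.add_le_of_le (Cardinal.aleph0_le_mk K) hLK
      (Cardinal.one_le_aleph0.trans (Cardinal.aleph0_le_mk K))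
  have hINV := h_TIN K (WithTop L) L Θ P0 T Co.D hJK hCC (h_BIN K Θ) ⊤
  have hgood := h_TGM _ _ _ T
  have hR3 := h_TRW K (WithTop L) L Θ P0 T Co.D hLK hJK hCC (h_CO3 K Θ) ⊤
  -- projections between stages
  have hmid : ∀ (i j : L) (h : i ≤ j) (U : RO (T.A i)), ∃ V : RO (T.A j),
      RO.cm (hE i) U = RO.cm (hE j) V := by
    intro i j h U
    obtain ⟨ρ, hρ⟩ := hPT i j (WithTop.coe_le_coe.2 h)
    refine ⟨RO.cm hρ U, RO.ext_mem fun q => ?_⟩
    rw [RO.mem_cm, RO.mem_cm, RO.mem_cm]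
    have e1 : π i q ≤ ρ (π j q) := by
      refine ep_least (hE i) ?_
      rw [← T.e_trans i j ⊤ (WithTop.coe_le_coe.2 h) le_top]
      exact ((hE j).ep q).trans (T.e_mono _ _ _ _ _ (hρ.ep _))
    have e2 : ρ (π j q) ≤ π i q := by
      refine ep_least hρ (ep_least (hE j) ?_)
      rw [T.e_trans]
      exact (hE i).ep q
    exact ⟨fun h => RO.mem_down h e2, fun h => RO.mem_down h e1⟩
  let Λ : Lev L (T.A ⊤) := {
    Lv := fun i => Set.range (RO.cm (hE i))
    mono := by
      rintro i j h _ ⟨U, rfl⟩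
      obtain ⟨V, hV⟩ := hmid i j h U
      exact ⟨V, hV.symm⟩
    sup := by
      intro i S hS
      obtain ⟨_, h2, _⟩ := h_CMH _ _ _ _ (hE i)
      refine ⟨sSup (RO.cm (hE i) ⁻¹' S), ?_⟩
      rw [h2, Set.image_preimage_eq_of_subset hS]
    cpl := by
      rintro i _ ⟨U, rfl⟩
      obtain ⟨h1, _⟩ := h_CMH _ _ _ _ (hE i)
      exact ⟨Uᶜ, h1 U⟩
    all := by
      intro U
      obtain ⟨i, U', h⟩ := h_PTR L T.toPT π hE hbdd hCT U
      exact ⟨i, U', h.symm⟩
    bdd := hbdd }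
  have hCap : Cap Λ := by
    constructor
    · intro i F hF
      obtain ⟨_, _, _, h4, _⟩ := h_CMH _ _ _ _ (hE i)
      choose F' hF' using fun ξ => h4 ℕ (F ξ) (hF ξ)
      obtain ⟨E, hE'⟩ := h_TDM L L P0 T π hE i F'
      refine ⟨E, fun ξ => ?_⟩
      rw [hF' ξ]
      exact hE' ξ
    · intro i
      refine ⟨Order.succ i, Order.le_succ i, fun f hf => ?_⟩
      obtain ⟨_, _, _, h4, _⟩ := h_CMH _ _ _ _ (hE i)
      obtain ⟨f', rfl⟩ := h4 ℕ f hf
      obtain ⟨G, hG, hrel⟩ := h_TNM L L P0 T π hE i f'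
      obtain ⟨hI1, hI2, hI3⟩ := h_IMN _ _ _ _ (hE (Order.succ i)) G
      have hg := hI3 (hgood _ G hG)
      let nm : Bool → Nm (RO (T.A ⊤)) ℕ := fun b => {
        v := fun n k => (G.im (T.e _ ⊤ le_top)).nv b n k
        disj := fun n k l hkl => le_antisymm (fun p hp => absurd (hg.disj b n k l p hp.1 hp.2) hkl)
          bot_le
        tot := fun n => RO.eq_top_iff'.2 fun p => RO.mem_iSup.2 fun q _ => hg.tot b n q }
      refine ⟨nm false, nm true, ?_, ?_, ?_, ?_⟩
      · intro n k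
        refine ⟨G.nv false n k, RO.ext_mem fun q => ?_⟩
        rw [RO.mem_cm]
        exact (hI1 false n k q).symm
      · intro n p k hp
        have := hg.big n k p hp
        omega
      · intro p n s a k h1 h2 h3
        exact hrel p n s a k h1 h2 h3
      · intro k hk
        have hk' : ((Order.succ i : L) : WithTop L) ≤ k := WithTop.coe_le_coe.2 hk
        have hGk : G.im (T.e _ _ hk') ∈ T.mu k := T.mu_e _ _ hk' G hG
        obtain ⟨S, hS1, hS2⟩ := h_TSA L L P0 T π hE k _ hGk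
        have hcomp : (G.im (T.e _ _ hk')).im (T.e k ⊤ le_top) = G.im (T.e _ ⊤ le_top) := by
          rw [Mk.im_im]
          congr 1
          funext p
          exact T.e_trans _ _ _ hk' le_top p
        rw [hcomp] at hS1
        refine ⟨S, fun n T' p l hp hl => hS1 n T' p l hp hl, fun x hx hb => ?_⟩
        obtain ⟨_, _, _, h4, _⟩ := h_CMH _ _ _ _ (hE k)
        obtain ⟨x', rfl⟩ := h4 ℕ x hx
        refine hS2 x' fun n q a b ha hb' => ?_
        obtain ⟨hJ1, _⟩ := h_IMN _ _ _ _ (hE k) (G.im (T.e _ _ hk'))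
        refine hb n (T.e k ⊤ le_top q) a b ?_ ?_
        · exact (Nm.mem_cm (hE k) x' n a _).2 (RO.mem_down ha ((hE k).pe q))
        · have h5 := (hJ1 false n b (T.e k ⊤ le_top q)).2 (RO.mem_down hb' ((hE k).pe q))
          rw [hcomp] at h5
          exact h5
  obtain ⟨Y, hY1, hY2⟩ := h_COW L (T.A ⊤) Λ hCap
  have hne : Nonempty (T.A ⊤) :=
    ⟨T.e ⊥ ⊤ bot_le (T.z.symm ⟨fun _ => none, by simp⟩)⟩
  let e0 : P0 → T.A ⊤ := fun p => T.e ⊥ ⊤ bot_le (T.z.symm p)
  -- the basic reals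
  obtain ⟨π0, hπ0⟩ := hPT ⊥ ⊤ bot_le
  have hEP0 : EP e0 (fun q => T.z (π0 q)) := {
    emono := fun p q h => T.e_mono _ _ _ _ _ (T.z.symm.monotone h)
    pmono := fun p q h => T.z.monotone (hπ0.pmono h)
    pe := fun p => by
      have h := T.z.monotone (hπ0.pe (T.z.symm p))
      rwa [T.z.apply_symm_apply] at h
    pe' := fun p => by
      have h := T.z.monotone (hπ0.pe' (T.z.symm p))
      rwa [T.z.apply_symm_apply] at h
    ep := fun q => by
      have h := hπ0.ep q
      simpa [e0] using h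
    lift := fun q p h => by
      obtain ⟨q', h1, h2⟩ := hπ0.lift q (T.z.symm p) (by
        have := T.z.symm.monotone h
        rwa [T.z.symm_apply_apply] at this)
      exact ⟨q', h1, h2⟩ }
  have hc : ∀ η : Θ, ∃ c : Nm (RO (T.A ⊤)) ℕ, ∀ n k p, Dc Co.D e0 η n k p → p ∈ c.v n k := by
    intro η
    refine ⟨{
      v := fun n k => RO.gen {p | Dc Co.D e0 η n k p}
      disj := ?_
      tot := ?_ }, fun n k p hp q hq => ⟨q, le_rfl, p, hp, hq⟩⟩
    · intro n k l hkl
      refine le_antisymm (fun p hp => ?_) bot_le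
      obtain ⟨q, hq, s, ⟨a, ha, hsa⟩, hqs⟩ := hp.1 p le_rfl
      obtain ⟨r, hr, t, ⟨b, hb, htb⟩, hrt⟩ := hp.2 q hq
      exfalso
      have h1 : T.z (π0 r) ≤ a := ep_least hEP0 (hr.trans (hqs.trans hsa))
      have h2 : T.z (π0 r) ≤ b := ep_least hEP0 (hrt.trans htb)
      have h3 := h1 _ _ ha
      have h4 := h2 _ _ hb
      rw [h3] at h4
      exact hkl (Option.some.inj h4)
    · intro n
      refine RO.eq_top_iff'.2 fun p => RO.mem_iSup.2 fun q _ => ?_
      let a : Co Θ := T.z (π0 q)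
      by_cases ha : ∃ k, a.f (η, n) = some k
      · obtain ⟨k, hk⟩ := ha
        exact ⟨q, le_rfl, k, fun r hr => ⟨r, le_rfl, q, ⟨a, hk, hEP0.ep q⟩, hr⟩⟩
      · let b : Co Θ := ⟨Function.update a.f (η, n) (some 0), by
          refine (a.fin.union (Set.finite_singleton (η, n))).subset ?_
          intro x hx
          by_cases hxe : x = (η, n)
          · exact Or.inr hxe
          · left
            simpa [Function.update_of_ne hxe] using hx⟩
        have hba : b ≤ a := by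
          intro x k hk
          by_cases hxe : x = (η, n)
          · subst hxe; exact absurd ⟨k, hk⟩ ha
          · simpa [b, Function.update_of_ne hxe] using hk
        obtain ⟨q', h1, h2⟩ := hEP0.lift q b hba
        refine ⟨q', h1, 0, fun r hr => ⟨r, le_rfl, q', ⟨b, ?_, h2⟩, hr⟩⟩
        change Function.update a.f (η, n) (some 0) (η, n) = some 0
        simp
  choose c hc using hc
  refine ⟨RO (T.A ⊤), inferInstance, K, ?_, ⟨Y, hY1, hY2⟩, ?_, ?_⟩
  · obtain ⟨p⟩ := hne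
    intro h
    exact RO.notMem_bot p (h ▸ RO.mem_top p)
  · intro g
    have hfew : Few K (⋃ i : K, {η : Θ | ∃ p : T.A ⊤, ∃ m, ∀ n, m ≤ n → ∀ q ≤ p, ∀ k l,
        Dc Co.D e0 η n k q → q ∈ (g i).v n l → k ≤ l}) :=
      few_iUnion _ fun i => hR3 (g i)
    have hex : ∃ η : Θ, η ∉ (⋃ i : K, {η : Θ | ∃ p : T.A ⊤, ∃ m, ∀ n, m ≤ n → ∀ q ≤ p, ∀ k l,
        Dc Co.D e0 η n k q → q ∈ (g i).v n l → k ≤ l}) := by
      by_contra hcon
      push Not at hcon
      have h1 : Cardinal.mk Θ ≤ Cardinal.mk K := by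
        have := Set.eq_univ_of_forall hcon
        rw [this] at hfew
        unfold Few at hfew
        rwa [Cardinal.mk_univ] at hfew
      exact absurd h1 (not_le.2 (by
        have : Cardinal.mk Θ = 2 ^ Cardinal.mk K := Cardinal.mk_set
        rw [this]
        exact Cardinal.cantor _))
    obtain ⟨η, hη⟩ := hex
    refine top_le_iff.1 (le_iSup_of_le (c η) ?_)
    refine le_iInf fun i p _ => ?_
    rw [RO.mem_compl]
    intro q _ hq
    obtain ⟨r, hr, m, hm⟩ := Nm.mem_leS.1 hq q le_rfl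
    refine hη (Set.mem_iUnion.2 ⟨i, r, m, fun n hn s hs k l hk hl => ?_⟩)
    exact hm n hn s hs k l (hc η n k s hk) hl
  · intro x
    let ψ : K → ℕ → Finset (List Bool) → Set (T.A ⊤) := fun i j S =>
      {p | ∃ s : List Bool, S = {s} ∧ s.length = 2 * j ∧ p ∈ ini s (x i)}
    have hDC : ∀ i, DC (ψ i) := by
      rintro i j S p q hq ⟨s, h1, h2, h3⟩
      exact ⟨s, h1, h2, RO.mem_down h3 hq⟩
    have hTT : ∀ i, TT ∅ 0 0 (ψ i) := by
      intro i j _ q _
      obtain ⟨q', hq', s, hs⟩ := (x i).decides (2 * j) q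
      refine ⟨q', hq', {(List.range (2 * j)).map s}, ⟨by simp, by simp⟩, _, rfl, by simp, ?_⟩
      refine RO.mem_iInf.2 fun l => ?_
      have hl : l.val < 2 * j := by simpa using l.isLt
      have e : ((List.range (2 * j)).map s).get l = s l.val := by simp
      rw [e]
      exact hs l.val hl
    have hfew : Few K (⋃ i : K, {η : Θ | ∃ p m0, Bad Co.D e0 ∅ 0 (ψ i) η p m0}) :=
      few_iUnion _ fun i => hINV ∅ 0 0 (ψ i) Set.finite_empty (Set.empty_subset _) (hDC i) (hTT i)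
    have hex : ∃ η : Θ, η ∉ (⋃ i : K, {η : Θ | ∃ p m0, Bad Co.D e0 ∅ 0 (ψ i) η p m0}) := by
      by_contra hcon
      push Not at hcon
      have h1 : Cardinal.mk Θ ≤ Cardinal.mk K := by
        have := Set.eq_univ_of_forall hcon
        rw [this] at hfew
        unfold Few at hfew
        rwa [Cardinal.mk_univ] at hfew
      exact absurd h1 (not_le.2 (by
        have : Cardinal.mk Θ = 2 ^ Cardinal.mk K := Cardinal.mk_set
        rw [this]
        exact Cardinal.cantor _))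
    obtain ⟨η, hη⟩ := hex
    let φ : Nm (RO (T.A ⊤)) (Finset (List Bool)) :=
      Nm.push (fun j => j + 1) (fun j s => dec j (s (Fin.last j))) (c η)
    have hφ : ∀ j k q, q ∈ (c η).v j k → ∃ q' ≤ q, q' ∈ φ.v j (dec j k) := by
      intro j k q hq
      obtain ⟨q', hq', s, hs⟩ := (c η).decides (j + 1) q
      have hk : s j = k := Nm.uniq (hs j (Nat.lt_succ_self j)) (RO.mem_down hq hq')
      have h := Nm.push_of (N := fun j => j + 1) (G := fun j s => dec j (s (Fin.last j)))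
        (x := c η) (n := j) (p := q') (fun l : Fin (j + 1) => s l.val) (fun l => hs l.val l.isLt)
      refine ⟨q', hq', ?_⟩
      have e : dec j ((fun l : Fin (j + 1) => s l.val) (Fin.last j)) = dec j k := by
        simp [hk]
      rw [← e]
      exact h
    refine top_le_iff.1 (le_iSup_of_le φ (le_inf ?_ ?_))
    · refine le_iInf fun j p _ => Nm.mem_memv.2 fun q _ S hS => ?_
      obtain ⟨q', hq', s, hs⟩ := (c η).decides (j + 1) q
      have e := Nm.mem_push.1 hS q' hq' (fun l : Fin (j + 1) => s l.val)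
        (fun l => hs l.val l.isLt)
      rw [← e]
      exact dec_prop j _
    · refine le_iInf fun i => le_iInf fun m p _ => ?_
      refine RO.mem_iSup.2 fun q _ => ?_
      have hnb : ¬ Bad Co.D e0 ∅ 0 (ψ i) η q m := fun h =>
        hη (Set.mem_iUnion.2 ⟨i, q, m, h⟩)
      unfold Bad at hnb
      push Not at hnb
      obtain ⟨j, hj, r, hr, -, k, hk, S, -, ⟨s, hS, hs, hsx⟩, hSd⟩ := hnb
      obtain ⟨r', hr', hr2⟩ := hφ j k r (hc η j k r hk)
      refine ⟨r', hr'.trans hr, j, RO.mem_iSup.2 fun t ht => ⟨t, le_rfl, hj,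
        RO.mem_iSup.2 fun u hu => ⟨u, le_rfl, dec j k, ?_, ?_⟩⟩⟩
      · exact RO.mem_down hr2 (hu.trans ht)
      · have hsd : s ∈ dec j k := hSd (by rw [hS]; simp)
        refine RO.mem_iSup.2 fun w hw => ⟨w, le_rfl, s, RO.mem_iSup.2 fun y hy =>
          ⟨y, le_rfl, hsd, ?_⟩⟩
        exact RO.mem_down hsx (hy.trans (hw.trans (hu.trans (ht.trans hr'))))

end CofSN2
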