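import Pool.Agent.CofSN2.Targets

/-!
# MP_3e8648_lc, second model: gaps of the new marks (helper50)
-/

set_option autoImplicit false

namespace CofSN2

open CofSN

namespace GNW_

theorem self_gen {Q : Type} [Preorder Q] {S : Set Q} {c : Q} (h : c ∈ S) : c ∈ RO.gen S :=
  RO.mem_gen.2 fun q hq => ⟨q, le_rfl, c, h, hq⟩

theorem om_app (s t : List ℕ) (i : ℕ) (h : i < s.length) : om (s ++ t) i = om s i := by
  unfold om
  rw [List.take_append_of_le_length (by omega)]

theorem sm_app (s t : List ℕ) (i : ℕ) (h : i < s.length) : sm (om (s ++ t)) i = sm (om s) i := by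
  unfold sm
  refine Finset.sum_congr rfl fun k hk => ?_
  rw [om_app s t k]
  have := Finset.mem_range.1 hk
  omega

theorem le_foldr (l : List ℕ) (x : ℕ) (h : x ∈ l) : x ≤ l.foldr max 0 := by
  induction l with
  | nil => simp at h
  | cons a l ih =>
    rw [List.foldr_cons]
    rcases List.mem_cons.1 h with h | h
    · rw [h]
      exact le_max_left _ _
    · exact (ih h).trans (le_max_right _ _)

end GNW_

theorem p_GNW : T_GNW := by
  intro Ω P _ μ F ξ c s0 j a hpre hdec hprod
  obtain ⟨t, ht⟩ := hpre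
  have hcs : c.cs F = s0 ++ ([H j] ++ t) := by rw [← ht, List.append_assoc]
  have hlen : s0.length < (c.cs F).length := by
    rw [hcs]
    simp
  refine ⟨s0.length, fun i => (Finset.range (sm (om s0) i)).sup a, om (c.cs F) s0.length,
    fun i hi => ?_, hprod, ?_, ?_⟩
  · refine GNW_.self_gen ⟨hi.trans hlen, ?_⟩
    rw [if_neg (by decide)]
    have hsm : sm (om (c.cs F)) i = sm (om s0) i := by rw [hcs, GNW_.sm_app s0 _ i hi]
    rw [hsm]
    exact ⟨a, hdec i hi, rfl⟩
  · refine GNW_.self_gen ⟨hlen, ?_⟩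
    rw [if_pos rfl]
  · unfold om
    have h1 : H j ∈ (c.cs F).take (s0.length + 1) := by
      rw [hcs, List.take_append]
      simp
    have h2 := GNW_.le_foldr _ _ h1
    omega

end CofSN2
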