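import Pool.Agent.CofSN2.Targets

/-!
# MP_3e8648_lc, second model: the target GTR (helper94)
-/

set_option autoImplicit false

namespace CofSN2

open CofSN

namespace GTR_

variable {Ω P : Type} [Preorder P] {μ : Set (Mk P)}

open Classical in
/-- the part of `l` beyond the Cohen piece with index `F` -/
noncomputable def rest (c : S3 Ω P μ) (F : Ω → Nm (RO P) ℕ) (l : List ℕ) :
    (Ω → Nm (RO P) ℕ) → List ℕ := fun E => if E = F then l.drop (c.cs F).length else []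

theorem rest_fin (c : S3 Ω P μ) (F : Ω → Nm (RO P) ℕ) (l : List ℕ) :
    {E | rest c F l E ≠ []}.Finite := by
  refine (Set.finite_singleton F).subset fun E hE => ?_
  by_contra h
  exact hE (by
    unfold rest
    exact if_neg h)

theorem exists_ext (c : S3 Ω P μ) (F : Ω → Nm (RO P) ℕ) (q : P) (hq : q ≤ c.p) (l : List ℕ)
    (hl : c.cs F <+: l) : ∃ c' ≤ c, c'.p = q ∧ c'.cs F = l := by
  refine ⟨(c.put q hq).app (rest c F l) (rest_fin c F l),
    (S3.app_le _ _ _).trans (c.put_le q hq), rfl, ?_⟩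
  obtain ⟨t, rfl⟩ := hl
  change c.cs F ++ rest c F (c.cs F ++ t) F = c.cs F ++ t
  unfold rest
  rw [if_pos rfl, List.drop_left]

theorem om_prefix {s t : List ℕ} (h : s <+: t) {n i : ℕ} (hn : n < s.length) (hi : i ≤ n) :
    om t i = om s i := by
  obtain ⟨u, rfl⟩ := h
  unfold om
  rw [List.take_append_of_le_length (by omega)]

theorem sm_prefix {s t : List ℕ} (h : s <+: t) {n : ℕ} (hn : n < s.length) :
    sm (om t) n = sm (om s) n := by
  unfold sm
  refine Finset.sum_congr rfl fun i hi => ?_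
  exact om_prefix h hn (by
    have := Finset.mem_range.1 hi
    omega)

theorem newG_of (F : Ω → Nm (RO P) ℕ) (ξ : Ω) (b : Bool) (n k : ℕ) (s d : S3 Ω P μ)
    (hs : s ∈ (newG F ξ : Mk (S3 Ω P μ)) b n k) (hp : d.p ≤ s.p) (hc : s.cs F <+: d.cs F) :
    d ∈ (newG F ξ : Mk (S3 Ω P μ)) b n k := by
  obtain ⟨h1, h2⟩ := hs
  refine ⟨lt_of_lt_of_le h1 hc.length_le, ?_⟩
  cases b with
  | true =>
    rw [if_pos rfl] at h2 ⊢
    rw [h2]
    exact (om_prefix hc h1 le_rfl).symm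
  | false =>
    rw [if_neg (by decide)] at h2 ⊢
    obtain ⟨a, ha, hk⟩ := h2
    refine ⟨a, ?_, ?_⟩
    · intro m hm
      rw [sm_prefix hc h1] at hm
      exact RO.mem_down (ha m hm) hp
    · rw [sm_prefix hc h1]
      exact hk

theorem nv_of (F : Ω → Nm (RO P) ℕ) (ξ : Ω) (b : Bool) (n k : ℕ) (c d : S3 Ω P μ)
    (hp : c.p = d.p) (hF : c.cs F = d.cs F)
    (h : c ∈ (newG F ξ : Mk (S3 Ω P μ)).nv b n k) :
    d ∈ (newG F ξ : Mk (S3 Ω P μ)).nv b n k := by
  refine RO.mem_gen.2 fun d' hd' => ?_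
  obtain ⟨c', hc', hc'p, hc'F⟩ := exists_ext c F d'.p (by
    rw [hp]
    exact hd'.1) (d'.cs F) (by
    rw [hF]
    exact hd'.2.1 F)
  obtain ⟨r, hr, s, hs, hrs⟩ := RO.mem_gen.1 h c' hc'
  obtain ⟨d'', hd'', hd''p, hd''F⟩ := exists_ext d' F r.p (by
    rw [← hc'p]
    exact hr.1) (r.cs F) (by
    rw [← hc'F]
    exact hr.2.1 F)
  refine ⟨d'', hd'', d'', ?_, le_rfl⟩
  refine newG_of F ξ b n k s d'' hs ?_ ?_
  · rw [hd''p]
    exact hrs.1
  · rw [hd''F]
    exact hrs.2.1 F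

end GTR_

open GTR_

theorem p_GTR : T_GTR := by
  intro Ω P _ μ F ξ c d j hp hF h
  obtain ⟨k, b, w, h1, h2, h3, h4⟩ := h
  exact ⟨k, b, w, fun i hi => nv_of F ξ false i (b i) c d hp hF (h1 i hi), h2,
    nv_of F ξ true k w c d hp hF h3, h4⟩

end CofSN2
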