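import Pool.Agent.CofSN2.GMN

set_option autoImplicit false

namespace CofSN2

open CofSN

namespace GTRx_

open GMN_

variable {Ω P : Type} [Preorder P] {μ : Set (Mk P)}

/-- membership in the sets of the new mark depends on two coordinates -/
theorem mem_congr {F : Ω → Nm (RO P) ℕ} {ξ : Ω} {b : Bool} {n k : ℕ} {c d : S3 Ω P μ}
    (h1 : c.p = d.p) (h2 : c.cs F = d.cs F) (h : c ∈ (newG F ξ : Mk (S3 Ω P μ)) b n k) :
    d ∈ (newG F ξ : Mk (S3 Ω P μ)) b n k := by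
  cases b with
  | true =>
    rw [mem_true] at h ⊢
    rw [← h2]; exact h
  | false =>
    rw [mem_false] at h ⊢
    rw [← h2, ← h1]; exact h

open Classical in
/-- move the two coordinates -/
theorem move {F : Ω → Nm (RO P) ℕ} (d : S3 Ω P μ) (q : P) (hq : q ≤ d.p) (s : List ℕ)
    (hs : d.cs F <+: s) : ∃ d' ≤ d, d'.p = q ∧ d'.cs F = s := by
  obtain ⟨t, ht⟩ := hs
  let h : (Ω → Nm (RO P) ℕ) → List ℕ := fun F' => if F' = F then t else []
  have hh : {F' | h F' ≠ []}.Finite := by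
    refine (Set.finite_singleton F).subset ?_
    intro F' hF'
    by_contra hne
    exact hF' (if_neg hne)
  refine ⟨(d.put q hq).app h hh, (S3.app_le _ _ _).trans (S3.put_le _ _ _), rfl, ?_⟩
  change d.cs F ++ h F = s
  rw [show h F = t from if_pos rfl, ht]

theorem nv_congr {F : Ω → Nm (RO P) ℕ} {ξ : Ω} {b : Bool} {n k : ℕ} {c d : S3 Ω P μ}
    (h1 : c.p = d.p) (h2 : c.cs F = d.cs F) (h : c ∈ (newG F ξ : Mk (S3 Ω P μ)).nv b n k) :
    d ∈ (newG F ξ : Mk (S3 Ω P μ)).nv b n k := by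
  rw [mem_nv] at h ⊢
  intro d' hd'
  have e1 : d'.p ≤ c.p := h1 ▸ p_le hd'
  have e2 : c.cs F <+: d'.cs F := h2 ▸ cs_le hd' F
  obtain ⟨c', hc', f1, f2⟩ := move (F := F) c d'.p e1 (d'.cs F) e2
  obtain ⟨r, hr, hr2⟩ := h c' hc'
  have g1 : r.p ≤ d'.p := f1 ▸ p_le hr
  have g2 : d'.cs F <+: r.cs F := f2 ▸ cs_le hr F
  obtain ⟨d'', hd'', k1, k2⟩ := move (F := F) d' r.p g1 (r.cs F) g2
  exact ⟨d'', hd'', mem_congr k1.symm k2.symm hr2⟩

end GTRx_

theorem p_GTR : T_GTR := by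
  intro Ω P _ μ F ξ c d j h1 h2 h
  obtain ⟨k, b, w, g1, g2, g3, g4⟩ := h
  exact ⟨k, b, w, fun i hi => GTRx_.nv_congr h1 h2 (g1 i hi), g2, GTRx_.nv_congr h1 h2 g3, g4⟩

end CofSN2
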