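import Pool.Agent.CofSN2.Targets

/-!
# MP_3e8648_lc, second model (cof(SN) < non(N)): the target IST (helper9)

The successor step for the invariant.
-/

set_option autoImplicit false

namespace CofSN2

open CofSN

namespace IST_

theorem few_iUnion {K Θ T : Type} [Infinite K] (S : T → Set Θ) [Countable T]
    (h : ∀ t, Few K (S t)) : Few K (⋃ t, S t) := by
  unfold Few at h ⊢
  have hT : Cardinal.mk T ≤ Cardinal.mk K :=
    (Cardinal.mk_le_aleph0).trans (Cardinal.aleph0_le_mk K)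
  refine (Cardinal.mk_iUnion_le_sum_mk).trans ?_
  refine (Cardinal.sum_le_sum _ (fun _ => Cardinal.mk K) h).trans ?_
  rw [Cardinal.sum_const']
  calc Cardinal.mk T * Cardinal.mk K ≤ Cardinal.mk K * Cardinal.mk K := mul_le_mul' hT le_rfl
    _ = Cardinal.mk K := Cardinal.mul_eq_self (Cardinal.aleph0_le_mk K)

theorem few_mono {K Θ : Type} {S S' : Set Θ} (h : S ⊆ S') (h' : Few K S') : Few K S :=
  (Cardinal.mk_le_mk_of_subset h).trans h'

/-- countably many functions with finite support in a countable set -/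
theorem ctb {X Y : Type} [Countable Y] (y0 : Y) {C : Set X} (hC : C.Countable) :
    {f : X → Y | {x | f x ≠ y0}.Finite ∧ ∀ x, x ∉ C → f x = y0}.Countable := by
  classical
  have : Countable C := hC.to_subtype
  let G : Finset (C × Y) → X → Y := fun s x =>
    if h : ∃ y, ∃ hx : x ∈ C, ((⟨x, hx⟩ : C), y) ∈ s then h.choose else y0
  refine (Set.countable_range G).mono ?_
  rintro f ⟨hf, hf'⟩
  have hf2 : {x : C | f x.1 ≠ y0}.Finite := hf.preimage Subtype.val_injective.injOn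
  refine ⟨hf2.toFinset.image (fun x : C => (x, f x.1)), ?_⟩
  have hmem : ∀ (x : C) (y : Y), (x, y) ∈ hf2.toFinset.image (fun x : C => (x, f x.1)) ↔
      f x.1 ≠ y0 ∧ f x.1 = y := by
    intro x y
    constructor
    · intro h
      obtain ⟨x', hx', h⟩ := Finset.mem_image.1 h
      have h1 := (Set.Finite.mem_toFinset hf2).1 hx'
      have e1 : x' = x := congrArg Prod.fst h
      have e2 : f x'.1 = y := congrArg Prod.snd h
      subst e1
      exact ⟨h1, e2⟩
    · rintro ⟨h1, rfl⟩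
      exact Finset.mem_image.2 ⟨x, (Set.Finite.mem_toFinset hf2).2 h1, rfl⟩
  funext x
  show (if h : ∃ y, ∃ hx : x ∈ C, ((⟨x, hx⟩ : C), y) ∈
    hf2.toFinset.image (fun x : C => (x, f x.1)) then h.choose else y0) = f x
  split_ifs with h
  · obtain ⟨hx, h1⟩ := h.choose_spec
    exact ((hmem _ _).1 h1).2.symm
  · by_contra hne
    apply h
    have h0 : f x ≠ y0 := fun h => hne h.symm
    have hx : x ∈ C := by
      by_contra hx
      exact h0 (hf' x hx)
    exact ⟨f x, hx, (hmem ⟨x, hx⟩ _).2 ⟨h0, rfl⟩⟩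

variable {Ω P : Type} [Preorder P] {μ : Set (Mk P)}

/-- finite sets of marks after the step -/
theorem exists_mix (W' : Set (Mk (S3 Ω P μ))) (hf : W'.Finite) (h : W' ⊆ muS Ω μ) :
    ∃ (W : Set (Mk P)) (V : Set ((Ω → Nm (RO P) ℕ) × Ω)), W.Finite ∧ W ⊆ μ ∧ V.Finite ∧
      W' = mix W V := by
  induction W', hf using Set.Finite.induction_on with
  | empty =>
    refine ⟨∅, ∅, Set.finite_empty, Set.empty_subset _, Set.finite_empty, ?_⟩
    ext G'
    constructor
    · intro h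
      exact absurd h (Set.notMem_empty _)
    · rintro (⟨G, hG, _⟩ | ⟨x, hx, _⟩)
      · exact absurd hG (Set.notMem_empty _)
      · exact absurd hx (Set.notMem_empty _)
  | @insert G1 s _ _ ih =>
    obtain ⟨W, V, h1, h2, h3, h4⟩ := ih ((Set.subset_insert _ _).trans h)
    rcases h (Set.mem_insert G1 s) with ⟨G, hG, e⟩ | ⟨F, ξ, e⟩
    · refine ⟨insert G W, V, h1.insert _, Set.insert_subset hG h2, h3, ?_⟩
      ext G'
      rw [Set.mem_insert_iff, h4]
      constructor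
      · rintro (rfl | ⟨G2, hG2, e2⟩ | ⟨x, hx, e2⟩)
        · exact Or.inl ⟨G, Set.mem_insert _ _, e⟩
        · exact Or.inl ⟨G2, Set.mem_insert_of_mem _ hG2, e2⟩
        · exact Or.inr ⟨x, hx, e2⟩
      · rintro (⟨G2, hG2, e2⟩ | ⟨x, hx, e2⟩)
        · rcases Set.mem_insert_iff.1 hG2 with rfl | hG2
          · exact Or.inl (e2.trans e.symm)
          · exact Or.inr (Or.inl ⟨G2, hG2, e2⟩)
        · exact Or.inr (Or.inr ⟨x, hx, e2⟩)
    · refine ⟨W, insert (F, ξ) V, h1, h2, h3.insert _, ?_⟩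
      ext G'
      rw [Set.mem_insert_iff, h4]
      constructor
      · rintro (rfl | ⟨G2, hG2, e2⟩ | ⟨x, hx, e2⟩)
        · exact Or.inr ⟨(F, ξ), Set.mem_insert _ _, e⟩
        · exact Or.inl ⟨G2, hG2, e2⟩
        · exact Or.inr ⟨x, Set.mem_insert_of_mem _ hx, e2⟩
      · rintro (⟨G2, hG2, e2⟩ | ⟨x, hx, e2⟩)
        · exact Or.inr (Or.inl ⟨G2, hG2, e2⟩)
        · rcases Set.mem_insert_iff.1 hx with rfl | hx
          · exact Or.inl (e2.trans e.symm)
          · exact Or.inr (Or.inr ⟨x, hx, e2⟩)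

/-- decide finitely many values of finitely many functions -/
theorem decV (V : Set ((Ω → Nm (RO P) ℕ) × Ω)) (hV : V.Finite)
    (N : (Ω → Nm (RO P) ℕ) × Ω → ℕ) (p : P) :
    ∃ q ≤ p, ∀ x ∈ V, ∃ a : ℕ → ℕ, ∀ l < N x, q ∈ (x.1 x.2).v l (a l) := by
  induction V, hV using Set.Finite.induction_on with
  | empty => exact ⟨p, le_rfl, fun x hx => absurd hx (Set.notMem_empty x)⟩
  | @insert y s _ _ ih =>
    obtain ⟨q, hq, h⟩ := ih
    obtain ⟨r, hr, b, hb⟩ := Nm.decides (y.1 y.2) (N y) q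
    refine ⟨r, hr.trans hq, fun x hx => ?_⟩
    rcases Set.mem_insert_iff.1 hx with rfl | hx
    · exact ⟨b, hb⟩
    · obtain ⟨a, ha⟩ := h x hx
      exact ⟨a, fun l hl => RO.mem_down (ha l hl) hr⟩

theorem le_emb {c : S3 Ω P μ} {p : P} : c ≤ S3.emb p ↔ c.p ≤ p := by
  rw [S3.le_def]
  constructor
  · exact fun h => h.1
  · intro h
    refine ⟨h, fun F => List.nil_prefix, fun F => List.nil_prefix, fun F => List.nil_subset _,
      fun F n _ _ ξ hξ => ?_, fun G => List.nil_prefix, fun G => List.nil_subset _,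
      fun G n _ _ x hx => ?_⟩
    · exact absurd hξ (List.not_mem_nil)
    · exact absurd hx (List.not_mem_nil)

theorem Dc_emb {P0 Θ : Type} {D : Θ → ℕ → ℕ → P0 → Prop} {e0 : P0 → P} {η : Θ} {n k : ℕ}
    {c : S3 Ω P μ} : Dc D (fun p => (S3.emb (e0 p) : S3 Ω P μ)) η n k c ↔ Dc D e0 η n k c.p := by
  unfold Dc
  exact exists_congr fun p0 => and_congr_right fun _ => le_emb

/-- a condition is stronger than its restriction -/
theorem le_res (J : Set (Ω → Nm (RO P) ℕ)) (J' : Set (Mk P)) (c : S3 Ω P μ) :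
    c ≤ S3.res J J' c := by
  rw [S3.le_def]
  refine ⟨le_rfl, fun F => ?_, fun F => ?_, fun F => ?_, fun F n h hn ξ hξ => ?_, fun G => ?_,
    fun G => ?_, fun G n h hn x hx => ?_⟩
  · by_cases hF : F ∈ J
    · simp only [S3.res, hF, if_true]
      exact List.prefix_rfl
    · simp only [S3.res, hF, if_false]
      exact List.nil_prefix
  · by_cases hF : F ∈ J
    · simp only [S3.res, hF, if_true]
      exact List.prefix_rfl
    · simp only [S3.res, hF, if_false]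
      exact List.nil_prefix
  · by_cases hF : F ∈ J
    · simp only [S3.res, hF, if_true]
      exact List.Subset.refl _
    · simp only [S3.res, hF, if_false]
      exact List.nil_subset _
  · by_cases hF : F ∈ J
    · simp only [S3.res, hF, if_true] at hn
      exact absurd h (not_lt.2 hn)
    · simp only [S3.res, hF, if_false] at hξ
      exact absurd hξ (List.not_mem_nil)
  · by_cases hG : G ∈ J'
    · simp only [S3.res, hG, if_true]
      exact List.prefix_rfl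
    · simp only [S3.res, hG, if_false]
      exact List.nil_prefix
  · by_cases hG : G ∈ J'
    · simp only [S3.res, hG, if_true]
      exact List.Subset.refl _
    · simp only [S3.res, hG, if_false]
      exact List.nil_subset _
  · by_cases hG : G ∈ J'
    · simp only [S3.res, hG, if_true] at hn
      exact absurd h (not_lt.2 hn)
    · simp only [S3.res, hG, if_false] at hx
      exact absurd hx (List.not_mem_nil)

theorem gap_im (h_EPS : T_EPS) (h_IMN : T_IMN) (G : Mk P) (j : ℕ) (q : S3 Ω P μ) :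
    Gap (G.im S3.emb) j q ↔ Gap G j q.p :=
  (h_IMN P (S3 Ω P μ) S3.emb (fun c => c.p) (h_EPS Ω P μ) G).2.1 j q

/-- bad indices for a family are bad for the restriction of the condition -/
theorem bad_res (h_RES : T_RES) (h_GTR : T_GTR) (h_EPS : T_EPS) (h_IMN : T_IMN)
    {P0 Θ : Type} {D : Θ → ℕ → ℕ → P0 → Prop} {e0 : P0 → P} {m m0 : ℕ}
    {ψ ψ' : ℕ → Finset (List Bool) → Set (S3 Ω P μ)} {W : Set (Mk P)}
    {V : Set ((Ω → Nm (RO P) ℕ) × Ω)} {I : Set (Ω → Nm (RO P) ℕ)} {I' : Set (Mk P)}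
    (hD : DC ψ') (hs : ∀ j S c, c ∈ ψ' j S → c ∈ ψ j S)
    (hr : ∀ j S c, c ∈ ψ' j S → S3.res I I' c ∈ ψ' j S) (hI : ∀ x ∈ V, x.1 ∈ I)
    {η : Θ} {c : S3 Ω P μ}
    (h : Bad D (fun p => (S3.emb (e0 p) : S3 Ω P μ)) (mix W V) m ψ η c m0) :
    Bad D (fun p => (S3.emb (e0 p) : S3 Ω P μ)) (mix W V) m ψ' η (S3.res I I' c) m0 := by
  intro j hj q hq hG k hk S hS hqS
  obtain ⟨d, hd, hdr, hdp⟩ := h_RES Ω P μ I I' c q hq
  refine h j hj d hd ?_ k ?_ S hS ?_
  · rintro G' (⟨G, hGW, rfl⟩ | ⟨x, hx, rfl⟩)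
    · have h1 := hG (G.im S3.emb) (Or.inl ⟨G, hGW, rfl⟩)
      rw [gap_im h_EPS h_IMN] at h1 ⊢
      rw [hdp]
      exact h1
    · have h1 := hG (newG x.1 x.2) (Or.inr ⟨x, hx, rfl⟩)
      refine h_GTR Ω P μ x.1 x.2 q d j hdp.symm ?_ h1
      have h2 := congrFun (congrArg S3.cs hdr) x.1
      simp only [S3.res, hI x hx, if_true] at h2
      exact h2.symm
  · rw [Dc_emb] at hk ⊢
    rw [hdp]
    exact hk
  · refine hs j S d (hD j S (S3.res I I' q) d ?_ (hr j S q hqS))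
    rw [← hdr]
    exact le_res I I' d

theorem bad_mono {P0 Θ : Type} {D : Θ → ℕ → ℕ → P0 → Prop} {e : P0 → P} {m m0 : ℕ}
    {ψ : ℕ → Finset (List Bool) → Set P} {W : Set (Mk P)} {η : Θ} {p q : P} (hq : q ≤ p)
    (h : Bad D e W m ψ η p m0) : Bad D e W m ψ η q m0 :=
  fun j hj r hr => h j hj r (hr.trans hq)

/-- stems with support in `I`, `I'` -/
def Tp (I : Set (Ω → Nm (RO P) ℕ)) (I' : Set (Mk P)) : Set (Typ Ω P) :=
  {t | t.cs ∈ {f : (Ω → Nm (RO P) ℕ) → List ℕ | {x | f x ≠ []}.Finite ∧ ∀ x, x ∉ I → f x = []} ∧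
    t.ds ∈ {f : (Ω → Nm (RO P) ℕ) → List ℕ | {x | f x ≠ []}.Finite ∧ ∀ x, x ∉ I → f x = []} ∧
    t.st ∈ {f : Mk P → List (Finset ℕ) | {x | f x ≠ []}.Finite ∧ ∀ x, x ∉ I' → f x = []}}

theorem Tp_countable {I : Set (Ω → Nm (RO P) ℕ)} {I' : Set (Mk P)} (hI : I.Countable)
    (hI' : I'.Countable) : (Tp I I').Countable := by
  have h1 := ctb ([] : List ℕ) hI
  have h2 := ctb ([] : List (Finset ℕ)) hI'
  refine (((h1.prod h1).prod h2).image (fun z => (⟨z.1.1, z.1.2, z.2⟩ : Typ Ω P))).mono ?_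
  rintro ⟨a, b, c⟩ ⟨ha, hb, hc⟩
  exact ⟨((a, b), c), ⟨⟨ha, hb⟩, hc⟩, rfl⟩

theorem typ_res_mem (I : Set (Ω → Nm (RO P) ℕ)) (I' : Set (Mk P)) (c : S3 Ω P μ) :
    (S3.res I I' c).typ ∈ Tp I I' := by
  refine ⟨⟨?_, fun F hF => ?_⟩, ⟨?_, fun F hF => ?_⟩, ⟨?_, fun G hG => ?_⟩⟩
  · exact (S3.res I I' c).finF.subset fun F hF => Or.inl hF
  · simp only [S3.typ, S3.res, hF, if_false]
  · exact (S3.res I I' c).finF.subset fun F hF => Or.inr (Or.inl hF)
  · simp only [S3.typ, S3.res, hF, if_false]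
  · exact (S3.res I I' c).finG.subset fun F hF => Or.inl hF
  · simp only [S3.typ, S3.res, hG, if_false]

end IST_

open IST_ in
/-- IST -/
theorem p_IST (h_ANT : T_ANT) (h_RES : T_RES) (h_GTR : T_GTR) (h_TYP : T_TYP) (h_EPS : T_EPS)
    (h_IMN : T_IMN) : T_IST := by
  classical
  intro K Θ P0 Ω P _ _ μ D e0 hGM hccc hInv W' m m1 ψ hWf hW' hDψ hTT
  obtain ⟨W, V, hWfin, hWμ, hVfin, rfl⟩ := exists_mix W' hWf hW'
  obtain ⟨J, J', ψ', hJ, hJ', hDψ', hsub, hdense, hres⟩ := h_ANT Ω P μ hccc m ψ hDψ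
  have hTT' : TT (mix W V) m m1 ψ' := by
    intro j hj q hq
    obtain ⟨d, hd, S, hS, hdS⟩ := hTT j hj q hq
    exact hdense j q ⟨d, hd, S, hS, hdS⟩
  obtain ⟨I, hIdef⟩ : ∃ I : Set (Ω → Nm (RO P) ℕ), I = J ∪ Prod.fst '' V := ⟨_, rfl⟩
  have hJI : J ⊆ I := by
    rw [hIdef]
    exact Set.subset_union_left
  have hVI : ∀ x ∈ V, x.1 ∈ I := by
    intro x hx
    rw [hIdef]
    exact Or.inr ⟨x, hx, rfl⟩
  have hI : I.Countable := by
    rw [hIdef]
    exact hJ.union (hVfin.image _).countable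
  have c1 : Countable (Tp I J') := (Tp_countable hI hJ').to_subtype
  have c2 : Countable {A : Set (Mk P) | A.Finite ∧ A ⊆ J'} :=
    (Set.countable_ofPred_finite_subset hJ').to_subtype
  have hcov : {η : Θ | ∃ p m0, Bad D (fun p => (S3.emb (e0 p) : S3 Ω P μ)) (mix W V) m ψ η p m0} ⊆
      ⋃ x : (Tp I J') × {A : Set (Mk P) | A.Finite ∧ A ⊆ J'} × ℕ,
        {η : Θ | x.2.1.1 ⊆ μ ∧ ∃ (c : S3 Ω P μ) (m0 : ℕ), c.typ = x.1.1 ∧
          (∀ G, (c.pr G).length ≤ x.2.2) ∧ (∀ G, G ∉ x.2.1.1 → c.pr G = []) ∧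
          (∀ x ∈ V, ∃ a : ℕ → ℕ, ∀ i < (c.cs x.1).length, ∀ l < sm (om (c.cs x.1)) i,
            c.p ∈ (x.1 x.2).v l (a l)) ∧
          Bad D (fun p => (S3.emb (e0 p) : S3 Ω P μ)) (mix W V) m ψ' η c m0} := by
    rintro η ⟨c, m0, hbad⟩
    -- decide the values
    obtain ⟨p', hp', hval⟩ := decV V hVfin
      (fun x => ∑ i ∈ Finset.range (c.cs x.1).length, sm (om (c.cs x.1)) i) c.p
    obtain ⟨c', hc'def⟩ : ∃ c' : S3 Ω P μ, c' = c.put p' hp' := ⟨_, rfl⟩
    have hc'p : c'.p = p' := by rw [hc'def]; rfl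
    have hc'cs : c'.cs = c.cs := by rw [hc'def]; rfl
    have hc'le : c' ≤ c := by
      rw [hc'def]
      exact S3.put_le c p' hp'
    have hbad' := bad_res h_RES h_GTR h_EPS h_IMN hDψ' hsub (hres I J' hJI (Set.Subset.refl _))
      hVI (bad_mono hc'le hbad)
    obtain ⟨d, hd⟩ : ∃ d : S3 Ω P μ, d = S3.res I J' c' := ⟨_, rfl⟩
    rw [← hd] at hbad'
    have hAf : {G : Mk P | d.pr G ≠ []}.Finite := d.finG.subset fun G hG => Or.inr hG
    have hAJ : {G : Mk P | d.pr G ≠ []} ⊆ J' := by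
      intro G hG
      by_contra h
      apply hG
      rw [hd]
      simp only [S3.res, h, if_false]
    have hAμ : {G : Mk P | d.pr G ≠ []} ⊆ μ := by
      intro G hG
      by_contra h
      exact hG (d.sup G h).2
    have hdt : d.typ ∈ Tp I J' := by
      rw [hd]
      exact typ_res_mem I J' c'
    obtain ⟨r, hr⟩ : ∃ r, ∀ G, (d.pr G).length ≤ r := by
      refine ⟨hAf.toFinset.sup fun G => (d.pr G).length, fun G => ?_⟩
      by_cases hG : d.pr G = []
      · rw [hG]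
        exact Nat.zero_le _
      · exact Finset.le_sup (f := fun G => (d.pr G).length)
          ((Set.Finite.mem_toFinset hAf).2 hG)
    refine Set.mem_iUnion.2 ⟨(⟨d.typ, hdt⟩, ⟨{G : Mk P | d.pr G ≠ []}, hAf, hAJ⟩, r), hAμ, d, m0,
      rfl, hr, fun G hG => ?_, fun x hx => ?_, hbad'⟩
    · by_contra h
      exact hG h
    · obtain ⟨a, ha⟩ := hval x hx
      refine ⟨a, fun i hi l hl => ?_⟩
      have hcs : d.cs x.1 = c.cs x.1 := by
        rw [hd]
        simp only [S3.res, hVI x hx, if_true]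
        rw [hc'cs]
      have hdp : d.p = p' := by
        rw [hd]
        exact hc'p
      rw [hcs] at hi hl
      rw [hdp]
      refine ha l (lt_of_lt_of_le hl ?_)
      exact Finset.single_le_sum (f := fun i => sm (om (c.cs x.1)) i)
        (fun _ _ => Nat.zero_le _) (Finset.mem_range.2 hi)
  refine few_mono hcov (few_iUnion _ ?_)
  rintro ⟨⟨t, ht⟩, ⟨A, hA, hAJ⟩, r⟩
  by_cases hAμ : A ⊆ μ
  · refine few_mono ?_ (h_TYP K Θ P0 Ω P μ D e0 hGM hInv W V m m1 ψ' hWfin hWμ hVfin hDψ' hTT'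
      t A r hA hAμ)
    rintro η ⟨_, h⟩
    exact h
  · have : ({η : Θ | A ⊆ μ ∧ ∃ (c : S3 Ω P μ) (m0 : ℕ), c.typ = t ∧
          (∀ G, (c.pr G).length ≤ r) ∧ (∀ G, G ∉ A → c.pr G = []) ∧
          (∀ x ∈ V, ∃ a : ℕ → ℕ, ∀ i < (c.cs x.1).length, ∀ l < sm (om (c.cs x.1)) i,
            c.p ∈ (x.1 x.2).v l (a l)) ∧
          Bad D (fun p => (S3.emb (e0 p) : S3 Ω P μ)) (mix W V) m ψ' η c m0} : Set Θ) = ∅ := by
      ext η
      constructor
      · rintro ⟨h, _⟩
        exact absurd h hAμ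
      · intro h
        exact absurd h (Set.notMem_empty _)
    show Few K _
    unfold Few
    rw [this]
    simp

end CofSN2
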