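import Pool.Agent.CofSN2.Targets

/-!
# MP_3e8648_lc, second model: LIN, the invariant at limits (helper25, for helper90)
-/

set_option autoImplicit false

namespace CofSN2

open CofSN

namespace LIN_

theorem few_iUnion {K Θ ι : Type} [Infinite K] (hι : Cardinal.mk ι ≤ Cardinal.mk K)
    (S : ι → Set Θ) (h : ∀ i, Few K (S i)) : Few K (⋃ i, S i) := by
  unfold Few at *
  calc Cardinal.mk (⋃ i, S i) ≤ Cardinal.sum fun i => Cardinal.mk (S i) :=
        Cardinal.mk_iUnion_le_sum_mk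
    _ ≤ Cardinal.sum fun _ : ι => Cardinal.mk K := Cardinal.sum_le_sum _ _ h
    _ = Cardinal.mk ι * Cardinal.mk K := by rw [Cardinal.sum_const']
    _ ≤ Cardinal.mk K * Cardinal.mk K := by gcongr
    _ = Cardinal.mk K := Cardinal.mul_eq_self (Cardinal.aleph0_le_mk K)

theorem gap_down {P : Type} [Preorder P] {G : Mk P} {j : ℕ} {p q : P} (h : Gap G j p)
    (hq : q ≤ p) : Gap G j q := by
  obtain ⟨k, b, w, h1, h2, h3, h4⟩ := h
  exact ⟨k, b, w, fun i hi => RO.mem_down (h1 i hi) hq, h2, RO.mem_down h3 hq, h4⟩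

/-- the sets pulled back to a stage -/
def pb {P A : Type} [Preorder P] [Preorder A] (e : A → P)
    (ψ : ℕ → Finset (List Bool) → Set P) : ℕ → Finset (List Bool) → Set A :=
  fun j S => {a | ∀ a' ≤ a, ∃ c' ≤ e a', c' ∈ ψ j S}

theorem pb_dc {P A : Type} [Preorder P] [Preorder A] (e : A → P)
    (ψ : ℕ → Finset (List Bool) → Set P) : DC (pb e ψ) :=
  fun _ _ _ _ hq hp a' ha' => hp a' (ha'.trans hq)

theorem vs_fin (m j : ℕ) : {S | VS m j S}.Finite := by
  refine (Finset.finite_toSet (List.finite_length_eq Bool (2 * j)).toFinset.powerset).subset ?_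
  rintro S ⟨-, hS⟩
  rw [Finset.mem_coe, Finset.mem_powerset]
  intro s hs
  rw [Set.Finite.mem_toFinset]
  exact hS s hs

theorem dense {P A : Type} [Preorder P] [Preorder A] {e : A → P} (he : Monotone e)
    (ψ : ℕ → Finset (List Bool) → Set P) (j : ℕ) (F : Set (Finset (List Bool)))
    (hF : F.Finite) (a : A) (hno : ∀ a' ≤ a, ∀ S ∈ F, a' ∉ pb e ψ j S) :
    ∃ b ≤ a, ∀ S ∈ F, ∀ c' ≤ e b, c' ∉ ψ j S := by
  induction F, hF using Set.Finite.induction_on with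
  | empty => exact ⟨a, le_rfl, fun S hS => absurd hS (Set.notMem_empty S)⟩
  | @insert S0 F _ _ ih =>
    obtain ⟨b, hb, hb'⟩ := ih fun a' ha' S hS => hno a' ha' S (Set.mem_insert_of_mem _ hS)
    have h1 := hno b hb S0 (Set.mem_insert _ _)
    simp only [pb, Set.mem_ofPred_eq, not_forall, not_exists, not_and] at h1
    obtain ⟨c, hc, hc'⟩ := h1
    refine ⟨c, hc.trans hb, fun S hS c' hle => ?_⟩
    rcases Set.mem_insert_iff.1 hS with rfl | hS
    · exact hc' c' hle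
    · exact hb' S hS c' (hle.trans (he hc))

theorem gap_iff {P A : Type} [Preorder P] [Preorder A] {e : A → P} {π : P → A}
    (h_IMN : T_IMN) (hE : EP e π) (W' : Set (Mk A)) (j : ℕ) (a : A) :
    (∀ G ∈ Mk.im e '' W', Gap G j (e a)) ↔ ∀ G ∈ W', Gap G j a := by
  constructor
  · intro h G hG
    have h1 := ((h_IMN A P e π hE G).2.1 j (e a)).1 (h _ (Set.mem_image_of_mem _ hG))
    exact gap_down h1 (hE.pe' a)
  · rintro h _ ⟨G, hG, rfl⟩
    exact ((h_IMN A P e π hE G).2.1 j (e a)).2 (gap_down (h G hG) (hE.pe a))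

theorem pb_tt {P A : Type} [Preorder P] [Preorder A] {e : A → P} {π : P → A}
    (h_IMN : T_IMN) (hE : EP e π) (W' : Set (Mk A)) (m m1 : ℕ)
    (ψ : ℕ → Finset (List Bool) → Set P) (h : TT (Mk.im e '' W') m m1 ψ) :
    TT W' m m1 (pb e ψ) := by
  intro j hj a ha
  by_contra hcon
  push Not at hcon
  obtain ⟨b, hb, hb'⟩ := dense hE.emono ψ j {S | VS m j S} (vs_fin m j) a
    fun a' ha' S hS => hcon a' ha' S hS
  have h1 : ∀ G ∈ Mk.im e '' W', Gap G j (e b) :=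
    (gap_iff h_IMN hE W' j b).2 fun G hG => gap_down (ha G hG) hb
  obtain ⟨q', hq', S, hS, hS'⟩ := h j hj (e b) h1
  exact hb' S hS q' hq' hS'

end LIN_

open LIN_ in
/-- LIN: the invariant at limits -/
theorem p_LIN (h_IMN : T_IMN) : T_LIN := by
  intro K Θ P0 ι P _ _ A _ e π D e0 e1 μ ν hι hE he hinv hex W m m1 ψ hW hWμ hdc htt
  have hu : Few K (⋃ i : ι, {η : Θ | (∃ W' : Set (Mk (A i)), W'.Finite ∧ W' ⊆ ν i ∧
      W = Mk.im (e i) '' W') ∧ ∃ (p : A i) (m0 : ℕ), ∀ j, m0 ≤ j → ∀ q ≤ p,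
        (∀ G ∈ W, Gap G j (e i q)) → ∀ k, Dc D (e1 i) η j k q →
        ∀ S, VS m j S → q ∈ pb (e i) ψ j S → ¬ S ⊆ dec j k}) := by
    refine few_iUnion hι _ fun i => ?_
    by_cases hi : ∃ W' : Set (Mk (A i)), W'.Finite ∧ W' ⊆ ν i ∧ W = Mk.im (e i) '' W'
    · obtain ⟨W', hW', hWν, rfl⟩ := hi
      have h1 := hinv i W' m m1 (pb (e i) ψ) hW' hWν (pb_dc (e i) ψ)
        (pb_tt h_IMN (hE i) W' m m1 ψ htt)
      refine le_trans (Cardinal.mk_le_mk_of_subset ?_) h1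
      rintro η ⟨-, p, m0, hp⟩
      refine ⟨p, m0, fun j hj q hq hG => hp j hj q hq ?_⟩
      exact (gap_iff h_IMN (hE i) W' j q).2 hG
    · refine le_trans (Cardinal.mk_le_mk_of_subset (t := (∅ : Set Θ)) ?_) ?_
      · rintro η ⟨h, -⟩
        exact absurd h hi
      · simp
  refine le_trans (Cardinal.mk_le_mk_of_subset ?_) hu
  rintro η ⟨p, m0, hp⟩
  obtain ⟨i, a, rfl, hW'⟩ := hex W hW hWμ p
  refine Set.mem_iUnion.2 ⟨i, hW', a, m0, fun j hj q hq hG k hD S hS hqS => ?_⟩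
  obtain ⟨c', hc', hcS⟩ := hqS q le_rfl
  obtain ⟨p0, hp0, hqp⟩ := hD
  refine hp j hj c' (hc'.trans ((hE i).emono hq)) (fun G hG' => gap_down (hG G hG') hc') k
    ⟨p0, hp0, hc'.trans (((hE i).emono hqp).trans (he i p0).le)⟩ S hS hcS

end CofSN2
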