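import Pool.Agent.CofSN2.Targets

/-!
# MP_3e8648_lc, second model: LNK (helper1)

Conditions with the same stems and not too many promises are compatible.
-/

set_option autoImplicit false

namespace CofSN2

open CofSN

namespace LNK_

variable {Ω P ι : Type} [Preorder P] {μ : Set (Mk P)} [Fintype ι] {p : P} {t : Typ Ω P}
  {c : ι → S3 Ω P μ}

/-- the condition with the stems `t` and all the promises of the `c v` -/
noncomputable def lub (v0 : ι) (hp : ∀ v, (c v).p = p) (ht : ∀ v, (c v).typ = t)
    (hl : ∀ G, ∀ q ≤ p, ∀ k, q ∈ G.nv true (t.st G).length k →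
      ((Finset.univ : Finset ι).toList.flatMap fun v => (c v).pr G).length ≤ k) :
    S3 Ω P μ where
  p := p
  cs := t.cs
  ds := t.ds
  dp := fun F => (Finset.univ : Finset ι).toList.flatMap fun v => (c v).dp F
  st := t.st
  pr := fun G => (Finset.univ : Finset ι).toList.flatMap fun v => (c v).pr G
  finF := by
    refine (Set.finite_iUnion fun v => (c v).finF).subset ?_
    intro F hF
    rw [Set.mem_iUnion]
    rcases hF with h | h | h
    · refine ⟨v0, Or.inl ?_⟩
      rw [← ht v0] at h
      exact h
    · refine ⟨v0, Or.inr (Or.inl ?_)⟩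
      rw [← ht v0] at h
      exact h
    · obtain ⟨x, hx⟩ := List.exists_mem_of_ne_nil _ h
      obtain ⟨v, -, hv⟩ := List.mem_flatMap.1 hx
      exact ⟨v, Or.inr (Or.inr (List.ne_nil_of_mem hv))⟩
  finG := by
    refine (Set.finite_iUnion fun v => (c v).finG).subset ?_
    intro G hG
    rw [Set.mem_iUnion]
    rcases hG with h | h
    · refine ⟨v0, Or.inl ?_⟩
      rw [← ht v0] at h
      exact h
    · obtain ⟨x, hx⟩ := List.exists_mem_of_ne_nil _ h
      obtain ⟨v, -, hv⟩ := List.mem_flatMap.1 hx
      exact ⟨v, Or.inr (List.ne_nil_of_mem hv)⟩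
  sup := by
    intro G hG
    constructor
    · rw [← ht v0]
      exact ((c v0).sup G hG).1
    · refine List.flatMap_eq_nil_iff.2 fun v _ => ?_
      exact ((c v).sup G hG).2
  hgt := by
    obtain rfl := hp v0
    obtain rfl := ht v0
    exact (c v0).hgt
  wid := by
    obtain rfl := hp v0
    obtain rfl := ht v0
    exact (c v0).wid
  len := hl
  bd := by
    intro G x hx
    obtain ⟨v, -, hv⟩ := List.mem_flatMap.1 hx
    exact (c v).bd G x hv

theorem length_flatMap_le {α β : Type} (f : α → List β) (r : ℕ) (hf : ∀ a, (f a).length ≤ r) :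
    ∀ l : List α, (l.flatMap f).length ≤ l.length * r
  | [] => by simp
  | a :: l => by
    have h1 := length_flatMap_le f r hf l
    have h2 := hf a
    rw [List.flatMap_cons, List.length_append, List.length_cons, Nat.succ_mul]
    omega

end LNK_

open LNK_ in
/-- LNK: conditions with the same stems and not too many promises are compatible -/
theorem p_LNK : T_LNK := by
  intro Ω P _ μ hμ A r p t ι _ _ c hp ht hr hA hw hAμ
  obtain ⟨v0⟩ := ‹Nonempty ι›
  have hl : ∀ G, ∀ q ≤ p, ∀ k, q ∈ G.nv true (t.st G).length k →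
      ((Finset.univ : Finset ι).toList.flatMap fun v => (c v).pr G).length ≤ k := by
    intro G q hq k hk
    by_cases hG : G ∈ A
    · obtain ⟨m, w, hm, hpw, hcw⟩ := hw G hG
      have h1 := (hμ G (hAμ hG)).mono m (t.st G).length w k q hm (RO.mem_down hpw hq) hk
      have h2 := length_flatMap_le (fun v => (c v).pr G) r (fun v => hr v G)
        (Finset.univ : Finset ι).toList
      rw [Finset.length_toList, Finset.card_univ] at h2
      exact h2.trans (hcw.trans h1)
    · have h1 : ((Finset.univ : Finset ι).toList.flatMap fun v => (c v).pr G) = [] :=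
        List.flatMap_eq_nil_iff.2 fun v _ => hA v G hG
      rw [h1]
      exact Nat.zero_le _
  refine ⟨lub v0 hp ht hl, rfl, rfl, fun v => ?_⟩
  have hcs : (c v).cs = t.cs := congrArg Typ.cs (ht v)
  have hds : (c v).ds = t.ds := congrArg Typ.ds (ht v)
  have hst : (c v).st = t.st := congrArg Typ.st (ht v)
  refine S3.le_def.2 ⟨?_, fun F => ?_, fun F => ?_, fun F ξ hξ => ?_, ?_, fun G => ?_,
    fun G x hx => ?_, ?_⟩
  · rw [hp v]
    exact le_rfl
  · rw [hcs]
    exact List.prefix_rfl
  · rw [hds]
    exact List.prefix_rfl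
  · exact List.mem_flatMap.2 ⟨v, Finset.mem_toList.2 (Finset.mem_univ v), hξ⟩
  · intro F n h hn
    rw [hds] at hn
    exact absurd h (not_lt.2 hn)
  · rw [hst]
    exact List.prefix_rfl
  · exact List.mem_flatMap.2 ⟨v, Finset.mem_toList.2 (Finset.mem_univ v), hx⟩
  · intro G n h hn
    rw [hst] at hn
    exact absurd h (not_lt.2 hn)

end CofSN2
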