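import Pool.Agent.CofSN2.Targets

/-!
# MP_3e8648_lc, second model: PTC, the chain condition at countable stages (helper45)
-/

set_option autoImplicit false

namespace CofSN2

open CofSN

/-- the chain condition at countable stages -/
theorem p_PTC : T_PTC := by
  intro J _ _ _ _ T h0 hS _ j
  induction j using SuccOrder.limitRecOn with
  | isMin j hj =>
    intro _
    obtain rfl := hj.eq_bot
    exact h0
  | succ i hi ih =>
    intro hc
    have hci : (Set.Iio i).Countable :=
      hc.mono (Set.Iio_subset_Iio (Order.le_succ i))
    exact hS i hi (ih hci)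
  | isSuccLimit j hj ih =>
    intro hc ι f hf
    choose lev hlev p hp using fun a => T.lim j hj (f a)
    -- each fibre is countable
    have hfib : ∀ i : Set.Iio j, {a : ι | lev a = i}.Countable := by
      rintro ⟨i, hi⟩
      have hccc : CCC (T.A i) := ih i hi (hc.mono (Set.Iio_subset_Iio (le_of_lt hi)))
      have h1 : Countable {a : ι | lev a = i} := by
        refine hccc {a : ι | lev a = i} (fun a => T.e (lev a) i (le_of_eq a.2) (p a)) ?_
        rintro ⟨a, ha⟩ ⟨b, hb⟩ hab ⟨r, hr1, hr2⟩
        have hne : a ≠ b := fun h => hab (Subtype.ext h)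
        refine hf a b hne ⟨T.e i j (le_of_lt hi) r, ?_, ?_⟩
        · have h2 := T.e_mono i j (le_of_lt hi) _ _ hr1
          rw [T.e_trans] at h2
          rw [hp a] at h2
          exact h2
        · have h2 := T.e_mono i j (le_of_lt hi) _ _ hr2
          rw [T.e_trans] at h2
          rw [hp b] at h2
          exact h2
      exact h1
    have hcount : Countable (Set.Iio j) := hc
    have huniv : (Set.univ : Set ι) = ⋃ i : Set.Iio j, {a : ι | lev a = i} := by
      ext a
      simp only [Set.mem_univ, Set.mem_iUnion, true_iff]
      exact ⟨⟨lev a, hlev a⟩, rfl⟩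
    have h3 : (Set.univ : Set ι).Countable := by
      rw [huniv]
      exact Set.countable_iUnion hfib
    exact Set.countable_univ_iff.1 h3

end CofSN2
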