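import Pool.Agent.CofSN2.Targets
import Pool.Agent.CofSN.TCT

/-!
# MP_3e8648_lc, second model: chain condition at the first uncountable stage (helper82)
-/

set_option autoImplicit false

namespace CofSN2

open CofSN

open CofSN.TCT_ in
theorem p_PTT : T_PTT := by
  intro L _ _ _ _ _ T hTEP hCC hc hb ι f hf
  by_contra hι
  obtain ⟨g, hg⟩ := inj hc hι
  have hpi : ∀ i : L, ∃ π, EP (T.e i ⊤ le_top) π := fun i => hTEP i ⊤ le_top
  choose π hE using hpi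
  have hlev : ∀ γ : L, ∃ (l : L) (a : T.A (l : WithTop L)), T.e l ⊤ le_top a = f (g γ) := by
    intro γ
    obtain ⟨i, hi, p, hp⟩ := T.lim ⊤ limtop (f (g γ))
    obtain ⟨b, rfl⟩ := WithTop.ne_top_iff_exists.1 hi.ne
    exact ⟨b, p, hp⟩
  choose lev a0 ha0 using hlev
  let F : L → Set L := fun δ => {γ | (∀ x < γ, lev x < γ) ∧ ∃ (h : δ < γ) (b : T.A (δ : WithTop L)),
    T.e δ γ (WithTop.coe_le_coe.2 h.le) b = π γ (f (g γ))}
  have hFc : ∀ δ, (F δ).Countable := by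
    intro δ
    have hccc : CCC (T.A (δ : WithTop L)) := hCC δ
    have hF : ∀ γ : F δ, ∃ (h : δ < γ.1) (b : T.A (δ : WithTop L)),
      T.e δ γ.1 (WithTop.coe_le_coe.2 h.le) b = π γ.1 (f (g γ.1)) := fun γ => γ.2.2
    choose hlt b hbb using hF
    have key : ∀ γ γ' : F δ, γ.1 < γ'.1 → ¬ Cmp (b γ) (b γ') := by
      intro γ γ' hγ hcmp
      obtain ⟨r, hr1, hr2⟩ := hcmp
      have hl : lev γ.1 < γ'.1 := γ'.2.1 _ hγ
      refine hf (g γ.1) (g γ'.1) (hg _ _ hγ) ?_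
      have e1 : ∀ (x y : L) (h : x ≤ y) (p : T.A (x : WithTop L)),
          T.e y ⊤ le_top (T.e x y (WithTop.coe_le_coe.2 h) p) = T.e x ⊤ le_top p :=
        fun x y h p => T.e_trans _ _ _ _ _ p
      have h1 : T.e δ γ.1 (WithTop.coe_le_coe.2 (hlt γ).le) r ≤ π γ.1 (f (g γ.1)) := by
        rw [← hbb γ]
        exact T.e_mono _ _ _ _ _ hr1
      obtain ⟨q', hq1, hq2⟩ := (hE γ.1).lift _ _ h1
      rw [e1 _ _ (hlt γ).le] at hq2
      let a' := T.e (lev γ.1) γ'.1 (WithTop.coe_le_coe.2 hl.le) (a0 γ.1)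
      have ha' : T.e γ'.1 ⊤ le_top a' = f (g γ.1) := by
        rw [e1 _ _ hl.le, ha0]
      have h2 : π γ'.1 q' ≤ a' := by
        have h3 : q' ≤ T.e γ'.1 ⊤ le_top a' := by rw [ha']; exact hq1
        exact ((hE γ'.1).pmono h3).trans ((hE γ'.1).pe a')
      have h4 : π γ'.1 q' ≤ T.e δ γ'.1 (WithTop.coe_le_coe.2 (hlt γ').le) r := by
        have h3 : q' ≤ T.e γ'.1 ⊤ le_top
            (T.e δ γ'.1 (WithTop.coe_le_coe.2 (hlt γ').le) r) := by
          rw [e1 _ _ (hlt γ').le]; exact hq2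
        exact ((hE γ'.1).pmono h3).trans ((hE γ'.1).pe _)
      have h5 : π γ'.1 q' ≤ π γ'.1 (f (g γ'.1)) := by
        rw [← hbb γ']
        exact h4.trans (T.e_mono _ _ _ _ _ hr2)
      obtain ⟨q, hq3, hq4⟩ := (hE γ'.1).lift _ _ h5
      refine ⟨q, ?_, hq3⟩
      rw [← ha']
      exact hq4.trans (T.e_mono _ _ _ _ _ h2)
    have h6 : Countable (F δ) := by
      refine hccc (F δ) b fun γ γ' hne => ?_
      rcases lt_trichotomy γ.1 γ'.1 with h | h | h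
      · exact key _ _ h
      · exact absurd (Subtype.ext h) hne
      · rintro ⟨r, hr1, hr2⟩
        exact key _ _ h ⟨r, hr2, hr1⟩
    exact Set.countable_coe_iff.1 h6
  have hFb : ∀ δ, ∃ b, ∀ c ∈ F δ, c ≤ b := fun δ => bound hb (hFc δ)
  choose h hh using hFb
  obtain ⟨γ, hγ, hcl⟩ := closed hc hb lev h
  obtain ⟨i, hi, p, hp⟩ := T.lim γ (limcoe hγ) (π γ (f (g γ)))
  have hi' : i ≠ ⊤ := (hi.trans (WithTop.coe_lt_top γ)).ne
  obtain ⟨δ, rfl⟩ := WithTop.ne_top_iff_exists.1 hi'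
  have hδ : δ < γ := WithTop.coe_lt_coe.1 hi
  have hmem : γ ∈ F δ := ⟨fun x hx => (hcl x hx).1, hδ, p, hp⟩
  exact absurd (hh δ γ hmem) (not_le.2 (hcl δ hδ).2)

end CofSN2
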