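import Pool.Agent.CofSN2.Targets

/-!
# MP_3e8648_lc, second model: conditions below a restriction (RES)
-/

set_option autoImplicit false

namespace CofSN2

open CofSN

namespace RES_

open Classical in
/-- the data of `q` on `J` (`J'`), the data of `c` outside -/
noncomputable def glue {Ω P : Type} [Preorder P] {μ : Set (Mk P)}
    (J : Set (Ω → Nm (RO P) ℕ)) (J' : Set (Mk P)) (c q : S3 Ω P μ) (hq : q.p ≤ c.p) :
    S3 Ω P μ where
  p := q.p
  cs F := if F ∈ J then q.cs F else c.cs F
  ds F := if F ∈ J then q.ds F else c.ds F
  dp F := if F ∈ J then q.dp F else c.dp F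
  st G := if G ∈ J' then q.st G else c.st G
  pr G := if G ∈ J' then q.pr G else c.pr G
  finF := by
    refine (q.finF.union c.finF).subset fun F hF => ?_
    by_cases h : F ∈ J
    · left
      simpa [h] using hF
    · right
      simpa [h] using hF
  finG := by
    refine (q.finG.union c.finG).subset fun G hG => ?_
    by_cases h : G ∈ J'
    · left
      simpa [h] using hG
    · right
      simpa [h] using hG
  sup G hG := by
    have h1 := q.sup G hG
    have h2 := c.sup G hG
    by_cases h : G ∈ J'
    · simpa [h] using h1
    · simpa [h] using h2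
  hgt G n h := by
    by_cases hJ : G ∈ J'
    · simp only [hJ, if_true] at h ⊢
      exact q.hgt G n h
    · simp only [hJ, if_false] at h ⊢
      exact fun r hr => c.hgt G n h r (hr.trans hq)
  wid G n h := by
    by_cases hJ : G ∈ J'
    · simp only [hJ, if_true] at h ⊢
      exact q.wid G n h
    · simp only [hJ, if_false] at h ⊢
      exact fun r hr => c.wid G n h r (hr.trans hq)
  len G := by
    by_cases hJ : G ∈ J'
    · simp only [hJ, if_true]
      exact q.len G
    · simp only [hJ, if_false]
      exact fun r hr => c.len G r (hr.trans hq)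
  bd G x hx := by
    by_cases hJ : G ∈ J'
    · simp only [hJ, if_true] at hx
      exact q.bd G x hx
    · simp only [hJ, if_false] at hx
      exact c.bd G x hx

end RES_

theorem p_RES : T_RES := by
  classical
  intro Ω P _ μ J J' c q hq
  obtain ⟨h1, h2, h3, h4, h5, h6, h7, h8⟩ := hq
  have hp : q.p ≤ c.p := h1
  refine ⟨RES_.glue J J' c q hp, ⟨hp, ?_, ?_, ?_, ?_, ?_, ?_, ?_⟩, ?_, rfl⟩
  · intro F
    by_cases h : F ∈ J
    · have := h2 F
      simpa [RES_.glue, S3.res, h] using this
    · simp [RES_.glue, h]
  · intro F
    by_cases h : F ∈ J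
    · have := h3 F
      simpa [RES_.glue, S3.res, h] using this
    · simp [RES_.glue, h]
  · intro F
    by_cases h : F ∈ J
    · have := h4 F
      simpa [RES_.glue, S3.res, h] using this
    · simp [RES_.glue, h]
  · intro F n hn hn' ξ hξ r hr a ha
    by_cases h : F ∈ J
    · have e1 : (RES_.glue J J' c q hp).ds F = q.ds F := by simp [RES_.glue, h]
      have hn2 : n < (q.ds F).length := by rw [← e1]; exact hn
      have e2 : (S3.res J J' c).ds F = c.ds F := by simp [S3.res, h]
      have e3 : (S3.res J J' c).dp F = c.dp F := by simp [S3.res, h]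
      have := h5 F n hn2 (by rw [e2]; exact hn') ξ (by rw [e3]; exact hξ) r hr a ha
      simp only [e1]
      exact this
    · have e1 : (RES_.glue J J' c q hp).ds F = c.ds F := by simp [RES_.glue, h]
      rw [e1] at hn
      exact absurd hn (not_lt.2 hn')
  · intro G
    by_cases h : G ∈ J'
    · have := h6 G
      simpa [RES_.glue, S3.res, h] using this
    · simp [RES_.glue, h]
  · intro G
    by_cases h : G ∈ J'
    · have := h7 G
      simpa [RES_.glue, S3.res, h] using this
    · simp [RES_.glue, h]
  · intro G n hn hn' x hx r hr a ha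
    by_cases h : G ∈ J'
    · have e1 : (RES_.glue J J' c q hp).st G = q.st G := by simp [RES_.glue, h]
      have hn2 : n < (q.st G).length := by rw [← e1]; exact hn
      have e2 : (S3.res J J' c).st G = c.st G := by simp [S3.res, h]
      have e3 : (S3.res J J' c).pr G = c.pr G := by simp [S3.res, h]
      have := h8 G n hn2 (by rw [e2]; exact hn') x (by rw [e3]; exact hx) r hr a ha
      simp only [e1]
      exact this
    · have e1 : (RES_.glue J J' c q hp).st G = c.st G := by simp [RES_.glue, h]
      rw [e1] at hn
      exact absurd hn (not_lt.2 hn')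
  · ext1
    · rfl
    · funext F
      by_cases h : F ∈ J <;> simp [RES_.glue, S3.res, h]
    · funext F
      by_cases h : F ∈ J <;> simp [RES_.glue, S3.res, h]
    · funext F
      by_cases h : F ∈ J <;> simp [RES_.glue, S3.res, h]
    · funext G
      by_cases h : G ∈ J' <;> simp [RES_.glue, S3.res, h]
    · funext G
      by_cases h : G ∈ J' <;> simp [RES_.glue, S3.res, h]

end CofSN2
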