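import Pool.Agent.CofSN2.Targets

/-!
# MP_3e8648_lc, second model: SLA, the generic slaloms
-/

set_option autoImplicit false

namespace CofSN2

open CofSN

namespace SLA_

variable {Ω P : Type} [Preorder P] {μ : Set (Mk P)}

/-- the Boolean value of `S(n) = T` for the generic slalom of the mark `G` -/
def slv (G : Mk P) (n : ℕ) (T : Finset ℕ) : RO (S3 Ω P μ) :=
  RO.gen {c | ∃ h : n < (c.st G).length, (c.st G)[n] = T}

theorem st_prefix {c' c : S3 Ω P μ} (h : c' ≤ c) (G : Mk P) : c.st G <+: c'.st G :=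
  (S3.le_def.1 h).2.2.2.2.2.1 G

theorem mem_slv {G : Mk P} {n : ℕ} {T : Finset ℕ} {c : S3 Ω P μ} :
    c ∈ slv G n T ↔ ∀ q ≤ c, ∃ r ≤ q, ∃ h : n < (r.st G).length, (r.st G)[n] = T := by
  unfold slv
  rw [RO.mem_gen]
  constructor
  · intro h q hq
    obtain ⟨r, hr, s, ⟨hn, hs⟩, hrs⟩ := h q hq
    have hpre := st_prefix hrs G
    refine ⟨r, hr, lt_of_lt_of_le hn hpre.length_le, ?_⟩
    rw [← hs]
    exact (hpre.getElem hn).symm
  · intro h q hq
    obtain ⟨r, hr, hn, hs⟩ := h q hq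
    exact ⟨r, hr, r, ⟨hn, hs⟩, le_rfl⟩

theorem eq_of_mem {G : Mk P} {n : ℕ} {T : Finset ℕ} {c : S3 Ω P μ}
    (hc : c ∈ slv G n T) (hn : n < (c.st G).length) : (c.st G)[n] = T := by
  obtain ⟨r, hr, h, hs⟩ := mem_slv.1 hc c le_rfl
  have hpre := st_prefix hr G
  rw [← hs]
  exact hpre.getElem hn

theorem self_mem {G : Mk P} {n : ℕ} {c : S3 Ω P μ} (hn : n < (c.st G).length) :
    c ∈ slv G n ((c.st G)[n]) := by
  refine mem_slv.2 fun q hq => ?_
  have hpre := st_prefix hq G
  exact ⟨q, le_rfl, lt_of_lt_of_le hn hpre.length_le, (hpre.getElem hn).symm⟩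

open Classical in
/-- add one promise -/
noncomputable def addp (hμ : ∀ G ∈ μ, GM G) (G : Mk P) (hG : G ∈ μ) (x : Nm (RO P) ℕ)
    (hx : ∀ n q a k, q ∈ x.v n a → q ∈ G.nv false n k → a ≤ cb k) (c : S3 Ω P μ)
    (hl : (c.pr G).length + 1 ≤ (c.st G).length) : S3 Ω P μ where
  p := c.p
  cs := c.cs
  ds := c.ds
  dp := c.dp
  st := c.st
  pr := fun H => if H = G then x :: c.pr H else c.pr H
  finF := c.finF
  finG := by
    refine (c.finG.union (Set.finite_singleton G)).subset ?_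
    intro H hH
    by_cases h : H = G
    · exact Or.inr h
    · left
      simpa [h] using hH
  sup := by
    intro H hH
    have h : H ≠ G := by
      intro h
      exact hH (h ▸ hG)
    simpa [h] using c.sup H hH
  hgt := c.hgt
  wid := c.wid
  len := by
    intro H q hq k hk
    by_cases h : H = G
    · subst h
      have h1 := (hμ H hG).big _ _ _ hk
      simp only [if_true, List.length_cons]
      omega
    · simpa [h] using c.len H q hq k hk
  bd := by
    intro H y hy n q a k h1 h2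
    by_cases h : H = G
    · subst h
      simp only [if_true, List.mem_cons] at hy
      rcases hy with rfl | hy
      · exact hx n q a k h1 h2
      · exact c.bd H y hy n q a k h1 h2
    · simp only [h, if_false] at hy
      exact c.bd H y hy n q a k h1 h2

theorem addp_le (hμ : ∀ G ∈ μ, GM G) (G : Mk P) (hG : G ∈ μ) (x : Nm (RO P) ℕ)
    (hx : ∀ n q a k, q ∈ x.v n a → q ∈ G.nv false n k → a ≤ cb k) (c : S3 Ω P μ)
    (hl : (c.pr G).length + 1 ≤ (c.st G).length) : addp hμ G hG x hx c hl ≤ c := by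
  refine S3.le_def.2 ⟨le_rfl, fun _ => List.prefix_rfl, fun _ => List.prefix_rfl,
    fun _ => List.Subset.refl _, fun _ _ h h' => absurd h (not_lt.2 h'),
    fun _ => List.prefix_rfl, fun H => ?_, fun _ _ h h' => absurd h (not_lt.2 h')⟩
  by_cases h : H = G
  · subst h
    simp only [addp, if_true]
    exact List.subset_cons_self _ _
  · simp only [addp, h, if_false]
    exact List.Subset.refl _

theorem mem_addp (hμ : ∀ G ∈ μ, GM G) (G : Mk P) (hG : G ∈ μ) (x : Nm (RO P) ℕ)
    (hx : ∀ n q a k, q ∈ x.v n a → q ∈ G.nv false n k → a ≤ cb k) (c : S3 Ω P μ)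
    (hl : (c.pr G).length + 1 ≤ (c.st G).length) :
    x ∈ (addp hμ G hG x hx c hl).pr G := by
  simp [addp]

/-- the generic slalom as a name -/
noncomputable def sl (hEXL : T_EXL) (hμ : ∀ G ∈ μ, GM G) (G : Mk P) (hG : G ∈ μ) :
    Nm (RO (S3 Ω P μ)) (Finset ℕ) where
  v n T := slv G n T
  disj n a b hab := by
    refine le_antisymm (fun c hc => ?_) bot_le
    obtain ⟨r, hr, h, hs⟩ := mem_slv.1 hc.1 c le_rfl
    have hb := eq_of_mem (RO.mem_down hc.2 hr) h
    exact absurd (hs.symm.trans hb) hab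
  tot n := by
    rw [RO.eq_top_iff']
    intro c
    refine RO.mem_iSup.2 fun q _ => ?_
    obtain ⟨c', hc', _, _, _, _, _, hl⟩ := hEXL Ω P μ hμ q {G} (fun _ => n + 1)
      (Set.finite_singleton G) (Set.singleton_subset_iff.2 hG)
    have hn : n < (c'.st G).length := by
      rw [hl G rfl]
      exact lt_of_lt_of_le (Nat.lt_succ_self n) (le_max_right _ _)
    exact ⟨c', hc', _, self_mem hn⟩

end SLA_

theorem p_SLA (hEXL : T_EXL) : T_SLA := by
  intro Ω P _ μ hμ h G hG
  refine ⟨SLA_.sl hEXL hμ G hG, ?_, ?_⟩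
  · intro n T q k hT hk
    obtain ⟨r, hr, hn, hs⟩ := SLA_.mem_slv.1 hT q le_rfl
    obtain ⟨t, ht, s, ⟨p0, hp0, rfl⟩, hts⟩ := RO.mem_gen.1 (RO.mem_down hk hr) r le_rfl
    have hpre := SLA_.st_prefix ht G
    have hn' : n < (t.st G).length := lt_of_lt_of_le hn hpre.length_le
    have hT' : (t.st G)[n] = T := by
      rw [← hs]
      exact (hpre.getElem hn).symm
    have hp : t.p ∈ G.nv true n k := by
      refine RO.mem_gen.2 fun u hu => ?_
      exact ⟨u, le_rfl, p0, hp0, hu.trans (S3.le_def.1 hts).1⟩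
    rw [← hT']
    exact t.wid G n hn' t.p le_rfl k hp
  · intro x hx
    rw [RO.eq_top_iff']
    intro c
    refine Nm.mem_capt.2 fun q _ => ?_
    obtain ⟨c', hc', _, _, _, hpr, _, hl⟩ := hEXL Ω P μ hμ q {G} (fun H => (q.pr H).length + 1)
      (Set.finite_singleton G) (Set.singleton_subset_iff.2 hG)
    have hl' : (c'.pr G).length + 1 ≤ (c'.st G).length := by
      rw [hpr, hl G rfl]
      exact le_max_right _ _
    refine ⟨SLA_.addp hμ G hG x hx c' hl', (SLA_.addp_le hμ G hG x hx c' hl').trans hc',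
      (c'.st G).length, fun n hn s hs a T ha hT => ?_⟩
    obtain ⟨t, ht, hnt, htT⟩ := SLA_.mem_slv.1 hT s le_rfl
    have h2 : t.p ∈ x.v n a := RO.mem_down ((Nm.mem_cm h x n a s).1 ha) (S3.le_def.1 ht).1
    have h1 := (S3.le_def.1 (ht.trans hs)).2.2.2.2.2.2.2 G n hnt hn x
      (SLA_.mem_addp hμ G hG x hx c' hl') t.p le_rfl a h2
    rw [htT] at h1
    exact h1

end CofSN2
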