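import Pool.Agent.CofSN2.Targets2

/-!
# MP_3e8648_lc, second model: regular sets have countable support (SPW)
-/

set_option autoImplicit false

namespace CofSN2

open CofSN

namespace SPW_

/-- A maximal antichain in a regular set. -/
theorem exists_max {Q : Type} [Preorder Q] (U : RO Q) : ∃ A : Set Q, (∀ a ∈ A, a ∈ U) ∧
    (∀ a ∈ A, ∀ b ∈ A, a ≠ b → ¬ Cmp a b) ∧ ∀ q ∈ U, ∃ a ∈ A, Cmp q a := by
  obtain ⟨A, hA⟩ := zorn_subset {A : Set Q | (∀ a ∈ A, a ∈ U) ∧
      ∀ a ∈ A, ∀ b ∈ A, a ≠ b → ¬ Cmp a b} (by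
    intro C hC hch
    refine ⟨⋃₀ C, ⟨?_, ?_⟩, fun s hs => Set.subset_sUnion_of_mem hs⟩
    · rintro a ⟨s, hs, ha⟩
      exact (hC hs).1 a ha
    · rintro a ⟨s, hs, ha⟩ b ⟨t, ht, hb⟩ hab
      rcases hch.total hs ht with h | h
      · exact (hC ht).2 a (h ha) b hb hab
      · exact (hC hs).2 a ha b (h hb) hab)
  refine ⟨A, hA.prop.1, hA.prop.2, fun q hq => ?_⟩
  by_contra hcon
  push Not at hcon
  have h1 : insert q A ∈ {A : Set Q | (∀ a ∈ A, a ∈ U) ∧
      ∀ a ∈ A, ∀ b ∈ A, a ≠ b → ¬ Cmp a b} := by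
    refine ⟨?_, ?_⟩
    · rintro a (rfl | ha)
      · exact hq
      · exact hA.prop.1 a ha
    · rintro a (rfl | ha) b (rfl | hb) hab
      · exact absurd rfl hab
      · exact hcon b hb
      · rintro ⟨r, h2, h3⟩
        exact hcon a ha ⟨r, h3, h2⟩
      · exact hA.prop.2 a ha b hb hab
  have h2 : q ∈ A := hA.le_of_ge h1 (Set.subset_insert q A) (Set.mem_insert q A)
  exact hcon q h2 ⟨q, le_rfl, le_rfl⟩

variable {Ω P : Type} [Preorder P] {μ : Set (Mk P)} (I : Set (Ω → Nm (RO P) ℕ))
  (I' : Set (Mk P))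

/-- a restriction contains less information than every extension of a condition with support in
the two sets -/
theorem res_le {r a : S3 Ω P μ} (h : r ≤ a)
    (hF : ∀ F, F ∉ I → a.cs F = [] ∧ a.ds F = [] ∧ a.dp F = [])
    (hG : ∀ G, G ∉ I' → a.st G = [] ∧ a.pr G = []) : S3.res I I' r ≤ a := by
  classical
  obtain ⟨h1, h2, h3, h4, h5, h6, h7, h8⟩ := h
  refine ⟨h1, ?_, ?_, ?_, ?_, ?_, ?_, ?_⟩
  · intro F
    by_cases hI : F ∈ I
    · have := h2 F
      simpa [S3.res, hI] using this
    · rw [(hF F hI).1]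
      exact List.nil_prefix
  · intro F
    by_cases hI : F ∈ I
    · have := h3 F
      simpa [S3.res, hI] using this
    · rw [(hF F hI).2.1]
      exact List.nil_prefix
  · intro F
    by_cases hI : F ∈ I
    · have := h4 F
      simpa [S3.res, hI] using this
    · rw [(hF F hI).2.2]
      exact List.nil_subset _
  · intro F n hn hn' ξ hξ q hq k hk
    by_cases hI : F ∈ I
    · have e1 : (S3.res I I' r).ds F = r.ds F := by simp [S3.res, hI]
      have hn2 : n < (r.ds F).length := by rw [← e1]; exact hn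
      have := h5 F n hn2 hn' ξ hξ q hq k hk
      simp only [e1]
      exact this
    · rw [(hF F hI).2.2] at hξ
      exact absurd hξ List.not_mem_nil
  · intro G
    by_cases hI : G ∈ I'
    · have := h6 G
      simpa [S3.res, hI] using this
    · rw [(hG G hI).1]
      exact List.nil_prefix
  · intro G
    by_cases hI : G ∈ I'
    · have := h7 G
      simpa [S3.res, hI] using this
    · rw [(hG G hI).2]
      exact List.nil_subset _
  · intro G n hn hn' x hx q hq k hk
    by_cases hI : G ∈ I'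
    · have e1 : (S3.res I I' r).st G = r.st G := by simp [S3.res, hI]
      have hn2 : n < (r.st G).length := by rw [← e1]; exact hn
      have := h8 G n hn2 hn' x hx q hq k hk
      simp only [e1]
      exact this
    · rw [(hG G hI).2] at hx
      exact absurd hx List.not_mem_nil

/-- a condition is stronger than its restriction -/
theorem le_res (c : S3 Ω P μ) : c ≤ S3.res I I' c := by
  classical
  refine ⟨le_rfl, ?_, ?_, ?_, ?_, ?_, ?_, ?_⟩
  · intro F
    by_cases hI : F ∈ I <;> simp [S3.res, hI]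
  · intro F
    by_cases hI : F ∈ I <;> simp [S3.res, hI]
  · intro F
    by_cases hI : F ∈ I <;> simp [S3.res, hI]
  · intro F n hn hn' ξ hξ q hq k hk
    by_cases hI : F ∈ I
    · have e1 : (S3.res I I' c).ds F = c.ds F := by simp [S3.res, hI]
      rw [e1] at hn'
      exact absurd hn (not_lt.2 hn')
    · have e1 : (S3.res I I' c).dp F = [] := by simp [S3.res, hI]
      rw [e1] at hξ
      exact absurd hξ List.not_mem_nil
  · intro G
    by_cases hI : G ∈ I' <;> simp [S3.res, hI]
  · intro G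
    by_cases hI : G ∈ I' <;> simp [S3.res, hI]
  · intro G n hn hn' x hx q hq k hk
    by_cases hI : G ∈ I'
    · have e1 : (S3.res I I' c).st G = c.st G := by simp [S3.res, hI]
      rw [e1] at hn'
      exact absurd hn (not_lt.2 hn')
    · have e1 : (S3.res I I' c).pr G = [] := by simp [S3.res, hI]
      rw [e1] at hx
      exact absurd hx List.not_mem_nil

end SPW_

open SPW_

theorem p_SPW (h_RES : T_RES) : T_SPW := by
  intro Ω P _ μ hccc U
  obtain ⟨A, hAU, hanti, hmax⟩ := exists_max U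
  have hAc : A.Countable := by
    have h := hccc A (fun a => a.1) fun i j hij =>
      hanti i.1 i.2 j.1 j.2 fun h => hij (Subtype.ext h)
    exact Set.countable_coe_iff.1 h
  refine ⟨⋃ a ∈ A, {F | a.cs F ≠ [] ∨ a.ds F ≠ [] ∨ a.dp F ≠ []},
    ⋃ a ∈ A, {G | a.st G ≠ [] ∨ a.pr G ≠ []}, hAc.biUnion fun a _ => a.finF.countable,
    hAc.biUnion fun a _ => a.finG.countable, ?_⟩
  intro I I' hI hI' c
  have hsF : ∀ a ∈ A, ∀ F, F ∉ I → a.cs F = [] ∧ a.ds F = [] ∧ a.dp F = [] := by
    intro a ha F hF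
    by_contra hne
    refine hF (hI (Set.mem_biUnion ha ?_))
    change a.cs F ≠ [] ∨ a.ds F ≠ [] ∨ a.dp F ≠ []
    tauto
  have hsG : ∀ a ∈ A, ∀ G, G ∉ I' → a.st G = [] ∧ a.pr G = [] := by
    intro a ha G hG
    by_contra hne
    refine hG (hI' (Set.mem_biUnion ha ?_))
    change a.st G ≠ [] ∨ a.pr G ≠ []
    tauto
  constructor
  · intro hc
    by_contra hres
    obtain ⟨d, hd, hdU⟩ := RO.exists_compl hres
    have key : S3.res I I' d ∈ Uᶜ := by
      rw [RO.mem_compl]
      intro q hq hqU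
      obtain ⟨a, ha, r, hrq, hra⟩ := hmax q hqU
      obtain ⟨e, he, he2, -⟩ := h_RES Ω P μ I I' d r (hrq.trans hq)
      have h1 : e ≤ a := by
        refine (le_res I I' e).trans ?_
        rw [he2]
        exact res_le I I' hra (hsF a ha) (hsG a ha)
      exact (RO.mem_compl.1 hdU) _ he (RO.mem_down (hAU a ha) h1)
    obtain ⟨e, he, he2, -⟩ := h_RES Ω P μ I I' c d hd
    have h2 : e ≤ S3.res I I' d := by
      rw [← he2]
      exact le_res I I' e
    exact (RO.mem_compl.1 key) _ h2 (RO.mem_down hc he)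
  · intro hc
    exact RO.mem_down hc (le_res I I' c)

end CofSN2
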