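import Pool.Agent.CofSN2.Targets2
import Pool.Agent.CofSN.ST3

/-!
# MP_3e8648_lc, second model: the target STW
-/

set_option autoImplicit false

namespace CofSN2

open CofSN

namespace STW_

variable {Ω P : Type} [Preorder P] {μ : Set (Mk P)}

theorem le_emb {c : S3 Ω P μ} {p : P} : c ≤ S3.emb p ↔ c.p ≤ p := by
  rw [S3.le_def]
  constructor
  · exact fun h => h.1
  · intro h
    exact ⟨h, fun _ => List.nil_prefix, fun _ => List.nil_prefix, fun _ => List.nil_subset _,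
      fun _ _ _ _ ξ hξ => absurd hξ List.not_mem_nil, fun _ => List.nil_prefix,
      fun _ => List.nil_subset _, fun _ _ _ _ x hx => absurd hx List.not_mem_nil⟩

theorem Dc_emb {P0 Θ : Type} {D : Θ → ℕ → ℕ → P0 → Prop} {e0 : P0 → P} {η : Θ} {n k : ℕ}
    {c : S3 Ω P μ} :
    Dc D (fun p => (S3.emb (e0 p) : S3 Ω P μ)) η n k c ↔ Dc D e0 η n k c.p := by
  unfold Dc
  exact exists_congr fun p0 => and_congr_right fun _ => le_emb

/-- `g(n) ≥ j` -/
def pre (g : Nm (RO (S3 Ω P μ)) ℕ) (t : Ty Ω P) (n : ℕ) : ℕ → RO P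
  | 0 => ⊤
  | j + 1 => Etw g t n j

theorem gtv_anti {g : Nm (RO (S3 Ω P μ)) ℕ} {n i j : ℕ} (h : i ≤ j) {c : S3 Ω P μ}
    (hc : c ∈ gtv g n j) : c ∈ gtv g n i := by
  refine RO.mem_iSup.2 fun c' hc' => ?_
  obtain ⟨c2, h2, l, h3⟩ := RO.mem_iSup.1 hc c' hc'
  obtain ⟨c3, h4, hl, h5⟩ := RO.mem_iSup.1 h3 c2 le_rfl
  exact ⟨c3, h4.trans h2, l, RO.mem_iSup.2 fun d hd => ⟨d, le_rfl, by omega,
    RO.mem_down h5 hd⟩⟩

theorem Etw_anti {g : Nm (RO (S3 Ω P μ)) ℕ} {t : Ty Ω P} {n i j : ℕ} (h : i ≤ j) :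
    Etw g t n j ≤ Etw g t n i := by
  rw [RO.le_def]
  intro p hp
  refine RO.mem_gen.2 fun q hq => ?_
  obtain ⟨r, hr, s, ⟨c, hc1, hc2, hc3⟩, hrs⟩ := RO.mem_gen.1 hp q hq
  exact ⟨r, hr, s, ⟨c, hc1, hc2, gtv_anti h hc3⟩, hrs⟩

/-- the least `j` such that no condition of type `t` forces `g(n) > j` -/
def gt (hC : T_CPW) (hμ : ∀ G ∈ μ, GM G) (g : Nm (RO (S3 Ω P μ)) ℕ) (t : Ty Ω P) :
    Nm (RO P) ℕ where
  v n j := pre g t n j ⊓ (Etw g t n j)ᶜ
  disj := by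
    have key : ∀ n a b, a < b →
        (pre g t n a ⊓ (Etw g t n a)ᶜ) ⊓ (pre g t n b ⊓ (Etw g t n b)ᶜ) = ⊥ := by
      intro n a b hab
      refine le_antisymm (fun p hp => ?_) bot_le
      obtain ⟨⟨_, h2⟩, ⟨h3, _⟩⟩ := hp
      cases b with
      | zero => omega
      | succ b =>
        have h4 : p ∈ Etw g t n a := RO.le_def.1 (Etw_anti (Nat.lt_succ_iff.1 hab)) p h3
        exact absurd h4 (RO.mem_compl.1 h2 p le_rfl)
    intro n a b hab
    rcases lt_or_gt_of_ne hab with h | h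
    · exact key n a b h
    · rw [inf_comm]
      exact key n b a h
  tot n := by
    rw [RO.eq_top_iff']
    intro p
    refine RO.mem_iSup.2 fun q _ => ?_
    have h1 : ∃ j, q ∉ Etw g t n j := by
      by_contra h
      push Not at h
      exact hC Ω P μ hμ g t n q h
    classical
    have h2 := Nat.find_spec h1
    obtain ⟨r, hr, h3⟩ := RO.exists_compl h2
    refine ⟨r, hr, Nat.find h1, ?_, h3⟩
    refine RO.mem_down ?_ hr
    rcases Nat.eq_zero_or_pos (Nat.find h1) with h0 | h0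
    · rw [h0]
      exact RO.mem_top q
    · obtain ⟨j, hj⟩ := Nat.exists_eq_succ_of_ne_zero h0.ne'
      have h4 := Nat.find_min h1 (m := j) (by omega)
      rw [not_not] at h4
      rw [hj]
      exact h4

/-- the badness of an index -/
def Bd {P0 P Θ : Type} [Preorder P] (D : Θ → ℕ → ℕ → P0 → Prop) (e : P0 → P)
    (g : Nm (RO P) ℕ) (η : Θ) (p : P) (m : ℕ) : Prop :=
  ∀ n, m ≤ n → ∀ q ≤ p, ∀ k l, Dc D e η n k q → q ∈ g.v n l → k ≤ l

theorem bad_res {P0 Θ : Type} {D : Θ → ℕ → ℕ → P0 → Prop} {e0 : P0 → P} (hR : T_RES)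
    {g : Nm (RO (S3 Ω P μ)) ℕ} {J : Set (Ω → Nm (RO P) ℕ)} {J' : Set (Mk P)}
    (hJ : ∀ n l c, c ∈ g.v n l ↔ S3.res J J' c ∈ g.v n l) {η : Θ} {c : S3 Ω P μ} {m : ℕ}
    (h : Bd D (fun p => (S3.emb (e0 p) : S3 Ω P μ)) g η c m) :
    Bd D (fun p => (S3.emb (e0 p) : S3 Ω P μ)) g η (S3.res J J' c) m := by
  intro n hn c' hc' k l hk hl
  obtain ⟨d, hd, hd1, hd2⟩ := hR Ω P μ J J' c c' hc'
  refine h n hn d hd k l ?_ ?_
  · rw [Dc_emb] at hk ⊢
    rw [hd2]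
    exact hk
  · rw [hJ, hd1, ← hJ]
    exact hl

theorem bad_type {P0 Θ : Type} {D : Θ → ℕ → ℕ → P0 → Prop} {e0 : P0 → P} (hC : T_CPW)
    (hμ : ∀ G ∈ μ, GM G) {g : Nm (RO (S3 Ω P μ)) ℕ} {η : Θ} {c : S3 Ω P μ} {m : ℕ}
    (h : Bd D (fun p => (S3.emb (e0 p) : S3 Ω P μ)) g η c m) :
    Bd D e0 (gt hC hμ g c.ty) η c.p m := by
  intro n hn q hq k l hk hl
  by_contra hlk
  push Not at hlk
  have h1 : c.put q hq ∈ gtv g n l := by
    refine RO.mem_iSup.2 fun r hr => ?_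
    obtain ⟨r', hr', l', hl'⟩ := g.decide n r
    have h2 : r' ≤ c.put q hq := hr'.trans hr
    have h4 : k ≤ l' := by
      refine h n hn r' (h2.trans (c.put_le q hq)) k l' ?_ hl'
      rw [Dc_emb]
      obtain ⟨p0, hp0, hq0⟩ := hk
      exact ⟨p0, hp0, le_trans (S3.le_def.1 h2).1 hq0⟩
    exact ⟨r', hr', l', RO.mem_iSup.2 fun d hd => ⟨d, le_rfl, by omega, RO.mem_down hl' hd⟩⟩
  have h5 : q ∈ Etw g c.ty n l := by
    refine RO.mem_gen.2 fun q' hq' => ⟨q', le_rfl, q, ⟨c.put q hq, rfl, rfl, h1⟩, hq'⟩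
  exact RO.mem_compl.1 hl.2 q le_rfl h5

open Cardinal in
/-- functions with finite support in a countable set -/
theorem mk_fs_le {K X Y : Type} [Infinite K] {J : Set X} (hJ : J.Countable) (hY : #Y ≤ #K)
    (z : Y) : #{f : X → Y // (∀ x, x ∉ J → f x = z) ∧ {x | f x ≠ z}.Finite} ≤ #K := by
  classical
  have hK : ℵ₀ ≤ #K := Cardinal.aleph0_le_mk K
  have hX : #(J × Y) ≤ #K := by
    have h1 : #J ≤ #K := (Cardinal.le_aleph0_iff_set_countable.2 hJ).trans hK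
    have h4 : #(J × Y) = #J * #Y := by simp
    rw [h4]
    exact (mul_le_mul' h1 hY).trans_eq (Cardinal.mul_eq_self hK)
  refine le_trans ?_ (ST3_.mk_finset_le hX)
  have hfin : ∀ f : {f : X → Y // (∀ x, x ∉ J → f x = z) ∧ {x | f x ≠ z}.Finite},
      {x : J | f.1 x.1 ≠ z}.Finite := fun f =>
    f.2.2.preimage Subtype.val_injective.injOn
  let G : {f : X → Y // (∀ x, x ∉ J → f x = z) ∧ {x | f x ≠ z}.Finite} → Finset (J × Y) :=
    fun f => (hfin f).toFinset.image fun i : J => (i, f.1 i.1)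
  refine Cardinal.mk_le_of_injective (f := G) ?_
  have hmem : ∀ f (i : J) (y : Y), (i, y) ∈ G f ↔ y ≠ z ∧ f.1 i.1 = y := by
    intro f i y
    simp only [G, Finset.mem_image, Set.Finite.mem_toFinset, Set.mem_ofPred_eq, Prod.mk.injEq]
    constructor
    · rintro ⟨i', h1, rfl, rfl⟩
      exact ⟨h1, rfl⟩
    · rintro ⟨h1, rfl⟩
      exact ⟨i, h1, rfl, rfl⟩
  intro f f' hff
  apply Subtype.ext
  funext i
  by_cases hi : i ∈ J
  · have h1 := hmem f ⟨i, hi⟩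
    have h2 := hmem f' ⟨i, hi⟩
    rw [hff] at h1
    by_cases h0 : f.1 i = z
    · by_cases h0' : f'.1 i = z
      · rw [h0, h0']
      · exact ((h1 (f'.1 i)).1 ((h2 (f'.1 i)).2 ⟨h0', rfl⟩)).2
    · exact ((h2 (f.1 i)).1 ((h1 (f.1 i)).2 ⟨h0, rfl⟩)).2.symm
  · rw [f.2.1 i hi, f'.2.1 i hi]

/-- the types of conditions with support in `J`, `J'` -/
def Tp (μ : Set (Mk P)) (J : Set (Ω → Nm (RO P) ℕ)) (J' : Set (Mk P)) : Type :=
  {t : Ty Ω P // ∃ c : S3 Ω P μ, (S3.res J J' c).ty = t}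

open Cardinal in
theorem mk_tp_le {K : Type} [Infinite K] (hΩ : #Ω ≤ #K) {J : Set (Ω → Nm (RO P) ℕ)}
    {J' : Set (Mk P)} (hJ : J.Countable) (hJ' : J'.Countable) : #(Tp μ J J') ≤ #K := by
  classical
  have hK : ℵ₀ ≤ #K := Cardinal.aleph0_le_mk K
  have hY : #(List ℕ × (List ℕ × List Ω)) ≤ #K := by
    have h1 : #(List ℕ) ≤ #K := (Cardinal.mk_le_aleph0).trans hK
    have h3 : #(List Ω) ≤ #K := (Cardinal.mk_list_le_max Ω).trans (max_le hK hΩ)
    have h4 : #(List ℕ × (List ℕ × List Ω)) = #(List ℕ) * (#(List ℕ) * #(List Ω)) := by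
      simp
    rw [h4]
    calc #(List ℕ) * (#(List ℕ) * #(List Ω)) ≤ #K * (#K * #K) :=
          mul_le_mul' h1 (mul_le_mul' h1 h3)
      _ = #K := by rw [Cardinal.mul_eq_self hK, Cardinal.mul_eq_self hK]
  have hY' : #(List (Finset ℕ) × ℕ) ≤ #K := (Cardinal.mk_le_aleph0).trans hK
  have hA := mk_fs_le (K := K) hJ hY ([], ([], []))
  have hB := mk_fs_le (K := K) hJ' hY' ([], 0)
  let A := {f : (Ω → Nm (RO P) ℕ) → List ℕ × (List ℕ × List Ω) //
    (∀ x, x ∉ J → f x = ([], ([], []))) ∧ {x | f x ≠ ([], ([], []))}.Finite}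
  let B := {f : Mk P → List (Finset ℕ) × ℕ //
    (∀ x, x ∉ J' → f x = ([], 0)) ∧ {x | f x ≠ ([], 0)}.Finite}
  have hAB : #(A × B) ≤ #K := by
    have h4 : #(A × B) = #A * #B := by simp
    rw [h4]
    exact (mul_le_mul' hA hB).trans_eq (Cardinal.mul_eq_self hK)
  refine le_trans ?_ hAB
  have hTA : ∀ t : Tp μ J J', (∀ x, x ∉ J → (t.1.cs x, (t.1.ds x, t.1.dp x)) = ([], ([], []))) ∧
      {x | (t.1.cs x, (t.1.ds x, t.1.dp x)) ≠ ([], ([], []))}.Finite := by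
    rintro ⟨t, c, rfl⟩
    constructor
    · intro x hx
      simp only [S3.ty, S3.res, hx, if_false]
    · refine c.finF.subset fun x hx => ?_
      by_cases hxJ : x ∈ J
      · simp only [S3.ty, S3.res, hxJ, if_true, Set.mem_ofPred_eq, ne_eq, Prod.mk.injEq] at hx
        simp only [Set.mem_ofPred_eq]
        tauto
      · simp [S3.ty, S3.res, hxJ] at hx
  have hTB : ∀ t : Tp μ J J', (∀ x, x ∉ J' → (t.1.st x, t.1.nl x) = ([], 0)) ∧
      {x | (t.1.st x, t.1.nl x) ≠ ([], 0)}.Finite := by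
    rintro ⟨t, c, rfl⟩
    constructor
    · intro x hx
      simp only [S3.ty, S3.res, hx, if_false, List.length_nil]
    · refine c.finG.subset fun x hx => ?_
      by_cases hxJ : x ∈ J'
      · simp only [S3.ty, S3.res, hxJ, if_true, Set.mem_ofPred_eq, ne_eq, Prod.mk.injEq,
          List.length_eq_zero_iff] at hx
        simp only [Set.mem_ofPred_eq]
        tauto
      · simp [S3.ty, S3.res, hxJ] at hx
  let F : Tp μ J J' → A × B := fun t => (⟨fun x => (t.1.cs x, (t.1.ds x, t.1.dp x)), hTA t⟩,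
    ⟨fun x => (t.1.st x, t.1.nl x), hTB t⟩)
  refine Cardinal.mk_le_of_injective (f := F) ?_
  rintro ⟨⟨cs, ds, dp, st, nl⟩, ht⟩ ⟨⟨cs', ds', dp', st', nl'⟩, ht'⟩ h
  have h1 := congrArg (fun z : A × B => z.1.1) h
  have h2 := congrArg (fun z : A × B => z.2.1) h
  simp only [F] at h1 h2
  have e1 : cs = cs' := funext fun x => congrArg Prod.fst (congrFun h1 x)
  have e2 : ds = ds' := funext fun x => congrArg (fun z => z.2.1) (congrFun h1 x)
  have e3 : dp = dp' := funext fun x => congrArg (fun z => z.2.2) (congrFun h1 x)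
  have e4 : st = st' := funext fun x => congrArg Prod.fst (congrFun h2 x)
  have e5 : nl = nl' := funext fun x => congrArg Prod.snd (congrFun h2 x)
  subst e1 e2 e3 e4 e5
  rfl

end STW_

open STW_ in
theorem p_STW (hC : T_CPW) (hS : T_SPW) (hR : T_RES) : T_STW := by
  intro K Θ P0 Ω P _ _ μ D e0 hΩ hμ hccc hR3 g
  choose Jn Jn' hJn hJn' hJn2 using fun (n l : ℕ) => hS Ω P μ hccc (g.v n l)
  obtain ⟨J, hJdef⟩ : ∃ J : Set (Ω → Nm (RO P) ℕ), J = ⋃ n, ⋃ l, Jn n l := ⟨_, rfl⟩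
  obtain ⟨J', hJdef'⟩ : ∃ J' : Set (Mk P), J' = ⋃ n, ⋃ l, Jn' n l := ⟨_, rfl⟩
  have hJc : J.Countable := by
    rw [hJdef]
    exact Set.countable_iUnion fun n => Set.countable_iUnion fun l => hJn n l
  have hJc' : J'.Countable := by
    rw [hJdef']
    exact Set.countable_iUnion fun n => Set.countable_iUnion fun l => hJn' n l
  have hJ : ∀ n l c, c ∈ g.v n l ↔ S3.res J J' c ∈ g.v n l := fun n l c =>
    hJn2 n l J J' (by
      rw [hJdef]
      exact Set.subset_iUnion_of_subset n (Set.subset_iUnion_of_subset l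
        (Set.Subset.refl _))) (by
      rw [hJdef']
      exact Set.subset_iUnion_of_subset n (Set.subset_iUnion_of_subset l
        (Set.Subset.refl _))) c
  have hsub : {η : Θ | ∃ p : S3 Ω P μ, ∃ m,
      Bd D (fun p => (S3.emb (e0 p) : S3 Ω P μ)) g η p m} ⊆
      ⋃ t : Tp μ J J', {η : Θ | ∃ p : P, ∃ m, Bd D e0 (gt hC hμ g t.1) η p m} := by
    rintro η ⟨c, m, h⟩
    rw [Set.mem_iUnion]
    exact ⟨⟨(S3.res J J' c).ty, c, rfl⟩, (S3.res J J' c).p, m,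
      bad_type hC hμ (bad_res hR hJ h)⟩
  refine ST3_.few_mono hsub ?_
  exact ST3_.few_iUnion _ (mk_tp_le hΩ hJc hJc') fun t => hR3 (gt hC hμ g t.1)

end CofSN2
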