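import Pool.Agent.CofSN2.Targets
import Pool.Agent.CofSN.INP

/-!
# MP_3e8648_lc, second model, target TAW
-/

set_option autoImplicit false

namespace CofSN2

open CofSN

namespace TAW_

/-- the values at `m` and before -/
abbrev Vl : Type := (ℕ × Finset ℕ) × ℕ

/-- the widths -/
def wdn (m : ℕ) (s : Fin (m + 1) → Vl) (i : ℕ) : ℕ :=
  if h : i < m + 1 then (s ⟨i, h⟩).1.1 else 0

/-- the slalom -/
def sln (m : ℕ) (s : Fin (m + 1) → Vl) (i : ℕ) : Finset ℕ :=
  if h : i < m + 1 then (s ⟨i, h⟩).1.2 else ∅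

open Classical in
/-- the number of the block of `m` -/
noncomputable def blk (wd : ℕ → ℕ) (m : ℕ) : ℕ :=
  if h : ∃ n, m < sm wd n then Nat.find h else 0

/-- the word of `τ` at `m` -/
noncomputable def G (m : ℕ) (s : Fin (m + 1) → Vl) : List Bool :=
  match (((sln m s (blk (wdn m s) m)).sort (· ≤ ·))[m - (sm (wdn m s) (blk (wdn m s) m) -
      wdn m s (blk (wdn m s) m))]?).bind
      (fun a => (Encodable.decode a : Option (List Bool))) with
  | some w => if (s (Fin.last m)).2 ≤ w.length then w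
      else List.replicate (s (Fin.last m)).2 false
  | none => List.replicate (s (Fin.last m)).2 false

theorem G_len (m : ℕ) (s : Fin (m + 1) → Vl) : (s (Fin.last m)).2 ≤ (G m s).length := by
  unfold G
  split
  · split_ifs with h
    · exact h
    · simp
  · simp

theorem sm_eq (w : ℕ → ℕ) (n : ℕ) : sm w n = ∑ i ∈ Finset.range n, w i + w n := by
  unfold sm
  rw [Finset.sum_range_succ]

theorem st_ge (w : ℕ → ℕ) (n : ℕ) (hw : ∀ i < n, 1 ≤ w i) : n ≤ ∑ i ∈ Finset.range n, w i := by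
  calc n = ∑ _i ∈ Finset.range n, 1 := by simp
    _ ≤ _ := Finset.sum_le_sum fun i hi => hw i (Finset.mem_range.1 hi)

theorem sm_congr (v w : ℕ → ℕ) (n : ℕ) (h : ∀ i ≤ n, v i = w i) : sm v n = sm w n := by
  unfold sm
  refine Finset.sum_congr rfl fun i hi => h i ?_
  have := Finset.mem_range.1 hi
  omega

theorem blk_eq (w v : ℕ → ℕ) (m n : ℕ) (hvw : ∀ i ≤ n, v i = w i)
    (h1 : ∑ i ∈ Finset.range n, w i ≤ m) (h2 : m < sm w n) : blk v m = n := by
  have hex : ∃ n, m < sm v n := ⟨n, by rw [sm_congr v w n hvw]; exact h2⟩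
  unfold blk
  rw [dif_pos hex]
  refine (Nat.find_eq_iff hex).2 ⟨by rw [sm_congr v w n hvw]; exact h2, fun l hl => ?_⟩
  rw [sm_congr v w l fun i hi => hvw i (by omega)]
  refine not_lt.2 (le_trans ?_ h1)
  unfold sm
  refine Finset.sum_le_sum_of_subset ?_
  intro i hi
  rw [Finset.mem_range] at hi ⊢
  omega

theorem G_eq (s : ℕ → Vl) (n j : ℕ) (hn : n ≤ ∑ i ∈ Finset.range n, (s i).1.1)
    (hj : j < (s n).1.1) (w : List Bool)
    (hT : ((s n).1.2.sort (· ≤ ·))[j]? = some (Encodable.encode w))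
    (hw : (s (∑ i ∈ Finset.range n, (s i).1.1 + j)).2 ≤ w.length) :
    G (∑ i ∈ Finset.range n, (s i).1.1 + j) (fun l => s l) = w := by
  set m := ∑ i ∈ Finset.range n, (s i).1.1 + j with hm
  have hw1 : ∀ i ≤ n, wdn m (fun l => s l) i = (s i).1.1 := by
    intro i hi
    unfold wdn
    rw [dif_pos (by omega)]
  have hs1 : sln m (fun l => s l) n = (s n).1.2 := by
    unfold sln
    rw [dif_pos (by omega)]
  have hb : blk (wdn m (fun l => s l)) m = n := by
    refine blk_eq (fun i => (s i).1.1) _ m n hw1 (by omega) ?_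
    rw [sm_eq]
    omega
  have hi : m - (sm (wdn m (fun l => s l)) n - wdn m (fun l => s l) n) = j := by
    rw [sm_congr _ (fun i => (s i).1.1) n hw1, hw1 n le_rfl, sm_eq]
    omega
  unfold G
  rw [hb, hi, hs1, hT]
  simp [Encodable.encodek, hw]

end TAW_

open TAW_

theorem p_TAW : T_TAW := by
  intro L P _ _ Λ k f fp w S hfp hw1 hfp2 hS1 hS2
  let τ : Nm (RO P) (List Bool) := Nm.push (fun m => m + 1) G (Nm.pair (Nm.pair w S) f)
  refine ⟨τ, ?_, ?_⟩
  · rw [RO.eq_top_iff']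
    intro p
    unfold ht
    refine RO.mem_iInf.2 fun n => Nm.mem_rel.2 fun q hq k s hk hs => ?_
    obtain ⟨r, hr, s', hs'⟩ := (Nm.pair (Nm.pair w S) f).decides (n + 1) q
    have e1 := Nm.mem_push.1 hs r hr (fun k => s' k) (fun k => hs' k k.2)
    have e2 : (s' n).2 = k := Nm.uniq (hs' n (by omega)).2 (RO.mem_down hk hr)
    rw [← e1, ← e2]
    exact G_len n (fun k => s' k)
  · intro σ hσ x p hp
    let X : Nm (RO P) ℕ := Nm.push (fun n => n + 1)
      (fun n s => Encodable.encode ((s (Fin.last n)).1.take (s (Fin.last n)).2)) (Nm.pair σ fp)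
    have hX : Λ.In k X := (p_INP L P Λ (List Bool × ℕ) ℕ k).2 _ _ _
      ((p_INP L P Λ (List Bool) ℕ k).1 _ _ hσ hfp)
    have hXbd : ∀ n p a b, p ∈ X.v n a → p ∈ fp.v n b → a ≤ cb b := by
      intro n q a b ha hb
      obtain ⟨r, hr, s', hs'⟩ := (Nm.pair σ fp).decides (n + 1) q
      have e1 := Nm.mem_push.1 ha r hr (fun k => s' k) (fun k => hs' k k.2)
      have e2 : (s' n).2 = b := Nm.uniq (hs' n (by omega)).2 (RO.mem_down hb hr)
      rw [← e1, ← e2]
      refine le_cb ?_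
      simp
    have hcap := hS2 X hX hXbd
    obtain ⟨hp1, hp2⟩ := hp
    refine RO.mem_iInf.2 fun m0 => RO.mem_iSup.2 fun q hq => ?_
    obtain ⟨r1, hr1, m1, h1⟩ := RO.mem_iSup.1 hp1 q hq
    have hc : q ∈ Nm.capt X S := by rw [hcap]; exact RO.mem_top q
    obtain ⟨r2, hr2, m2, h2⟩ := Nm.mem_capt.1 hc r1 hr1
    have hr2q : r2 ≤ q := hr2.trans hr1
    have h3 := RO.mem_iInf.1 (RO.mem_down hp2 (hr2q.trans hq)) (max m0 (max m1 m2))
    obtain ⟨r3, hr3, n, h3⟩ := RO.mem_iSup.1 h3 r2 le_rfl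
    obtain ⟨r4, hr4, hn, h3⟩ := RO.mem_iSup.1 h3 r3 le_rfl
    obtain ⟨r5, hr5, u, hu, hux⟩ := RO.mem_iSup.1 h3 r4 le_rfl
    obtain ⟨r6, hr6, l, hl⟩ := fp.decide n r5
    obtain ⟨r7, hr7, s1, hs1⟩ := (Nm.pair (Nm.pair w S) f).decides (n + 1) r6
    obtain ⟨r8, hr8, s', hs'⟩ := (Nm.pair (Nm.pair w S) f).decides
      (max (n + 1) (sm (fun i => (s1 i).1.1) n)) r7
    have hn0 : m0 ≤ n := (le_max_left _ _).trans hn
    have hn1 : m1 ≤ n := (le_max_left _ _).trans ((le_max_right _ _).trans hn)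
    have hn2 : m2 ≤ n := (le_max_right _ _).trans ((le_max_right _ _).trans hn)
    have hr86 : r8 ≤ r6 := hr8.trans hr7
    have hr85 : r8 ≤ r5 := hr86.trans hr6
    have hr82 : r8 ≤ r2 := hr85.trans (hr5.trans (hr4.trans hr3))
    have hl8 := RO.mem_down hl hr86
    have hu8 := RO.mem_down hu hr85
    -- the widths
    have hsm : sm (fun i => (s1 i).1.1) n = sm (fun i => (s' i).1.1) n := by
      refine sm_congr _ _ n fun i hi => ?_
      exact Nm.uniq (RO.mem_down (hs1 i (by omega)).1.1 hr8)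
        (hs' i (lt_of_lt_of_le (by omega) (le_max_left _ _))).1.1
    rw [hsm] at hs'
    have hN : ∀ i ≤ n, r8 ∈ (Nm.pair (Nm.pair w S) f).v i (s' i) := fun i hi =>
      hs' i (lt_of_lt_of_le (by omega) (le_max_left _ _))
    have hM : ∀ i < sm (fun i => (s' i).1.1) n, r8 ∈ (Nm.pair (Nm.pair w S) f).v i (s' i) :=
      fun i hi => hs' i (lt_of_lt_of_le hi (le_max_right _ _))
    have hwd : ∀ i ≤ n, r8 ∈ w.v i (s' i).1.1 := fun i hi => (hN i hi).1.1
    have hst : n ≤ ∑ i ∈ Finset.range n, (s' i).1.1 :=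
      st_ge (fun i => (s' i).1.1) n fun i hi => hw1 i r8 _ (hwd i hi.le)
    -- the length of the word
    have hlu : l ≤ u.length := Nm.mem_rel.1 (RO.mem_iInf.1 (RO.mem_iInf.1 h1 n) hn1) r8
      (hr82.trans hr2) l u hl8 hu8
    -- the values of f
    have hsup := hfp2 r8 n (fun i => (s' i).1.1) (fun i => (s' i).2) l hwd
      (fun i hi => (hM i hi).2) hl8
    have hfl : ∀ m, m < sm (fun i => (s' i).1.1) n → (s' m).2 ≤ l := by
      intro m hm
      rw [hsup]
      exact Finset.le_sup (f := fun i => (s' i).2) (Finset.mem_range.2 hm)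
    have hTn : r8 ∈ S.v n (s' n).1.2 := (hN n le_rfl).1.2
    -- the coded word is in the slalom
    have hXa : r8 ∈ X.v n (Encodable.encode (u.take l)) := by
      refine Nm.mem_push.2 fun q' hq' t ht => ?_
      have e := ht (Fin.last n)
      have e1 : (t (Fin.last n)).1 = u := Nm.uniq e.1 (RO.mem_down hu8 hq')
      have e2 : (t (Fin.last n)).2 = l := Nm.uniq e.2 (RO.mem_down hl8 hq')
      rw [e1, e2]
    have hmem : Encodable.encode (u.take l) ∈ (s' n).1.2 := h2 n hn2 r8 hr82 _ _ hXa hTn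
    have hcard : (s' n).1.2.card ≤ (s' n).1.1 := hS1 n _ r8 _ hTn (hwd n le_rfl)
    obtain ⟨j, hj, hje⟩ := List.getElem_of_mem ((Finset.mem_sort (· ≤ ·)).2 hmem)
    have hjn : j < (s' n).1.1 := by
      rw [Finset.length_sort] at hj
      omega
    have hm2 : ∑ i ∈ Finset.range n, (s' i).1.1 + j < sm (fun i => (s' i).1.1) n := by
      rw [sm_eq]
      exact Nat.add_lt_add_left hjn _
    have hwk : (u.take l).length = l := by rw [List.length_take]; omega
    have hGe : G (∑ i ∈ Finset.range n, (s' i).1.1 + j) (fun l => s' l) = u.take l := by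
      refine G_eq s' n j hst hjn (u.take l) ?_ ?_
      · rw [List.getElem?_eq_getElem hj, hje]
      · rw [hwk]
        exact hfl _ hm2
    have hτ : r8 ∈ τ.v (∑ i ∈ Finset.range n, (s' i).1.1 + j) (u.take l) := by
      rw [← hGe]
      exact Nm.push_of (N := fun m => m + 1) (G := G) (x := Nm.pair (Nm.pair w S) f)
        (n := ∑ i ∈ Finset.range n, (s' i).1.1 + j)
        (fun l => s' l) (fun l => hM l (by
          have := l.2
          omega))
    have hini : r8 ∈ ini (u.take l) x := by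
      refine RO.mem_iInf.2 fun i => ?_
      have hl : (i : ℕ) < u.length := lt_of_lt_of_le i.2 (by rw [hwk]; exact hlu)
      have h := RO.mem_iInf.1 (RO.mem_down hux hr85) ⟨i, hl⟩
      have e : (u.take l).get i = u.get ⟨i, hl⟩ := by simp
      rw [e]
      exact h
    refine ⟨r8, hr82.trans hr2q, ∑ i ∈ Finset.range n, (s' i).1.1 + j, ?_⟩
    have hm0 : m0 ≤ ∑ i ∈ Finset.range n, (s' i).1.1 + j := by omega
    exact le_iSup (fun _ : m0 ≤ ∑ i ∈ Finset.range n, (s' i).1.1 + j =>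
      cyl τ (∑ i ∈ Finset.range n, (s' i).1.1 + j) x) hm0 r8
      (le_iSup (fun s => τ.v (∑ i ∈ Finset.range n, (s' i).1.1 + j) s ⊓ ini s x) (u.take l) r8
        ⟨hτ, hini⟩)

end CofSN2
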