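import Pool.Agent.CofSN2.Targets

/-!
# MP_3e8648_lc, second model: the invariant at all stages (helper32)
-/

set_option autoImplicit false

namespace CofSN2

open CofSN

namespace TIN_

theorem ep_iso {P Q : Type} [Preorder P] [Preorder Q] (f : P ≃o Q) :
    EP (f : P → Q) (f.symm : Q → P) where
  emono := f.monotone
  pmono := f.symm.monotone
  pe p := by simp
  pe' p := by simp
  ep q := by simp
  lift q p h := ⟨f p, by
    have h1 := f.monotone h
    simpa using h1, le_rfl⟩

theorem ccc_iso {P Q : Type} [Preorder P] [Preorder Q] (f : P ≃o Q) (h : CCC P) : CCC Q := by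
  intro ι g hg
  refine h ι (fun i => f.symm (g i)) fun i j hij hc => hg i j hij ?_
  obtain ⟨r, h1, h2⟩ := hc
  refine ⟨f r, ?_, ?_⟩
  · have h3 := f.monotone h1
    simpa using h3
  · have h3 := f.monotone h2
    simpa using h3

theorem one_le {K : Type} [Infinite K] : Cardinal.mk Unit ≤ Cardinal.mk K := by
  have h1 : Cardinal.mk Unit = 1 := Cardinal.mk_unit
  rw [h1]
  exact Cardinal.one_le_aleph0.trans (Cardinal.aleph0_le_mk K)

/-- LIN for one order isomorphism -/
theorem inv_iso (hL : T_LIN) (K Θ P0 : Type) [Infinite K] {P Q : Type} [Preorder P]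
    [Preorder Q] (f : P ≃o Q) (D : Θ → ℕ → ℕ → P0 → Prop) (e0 : P0 → P) (e1 : P0 → Q)
    (he : ∀ p, f (e0 p) = e1 p) (μ : Set (Mk P)) (ν : Set (Mk Q))
    (hm : ∀ G ∈ μ, G.im f ∈ ν) (h : INV K D e1 ν) : INV K D e0 μ := by
  refine hL K Θ P0 Unit P (fun _ => Q) (fun _ => f.symm) (fun _ => f) D e0 (fun _ => e1) μ
    (fun _ => ν) one_le (fun _ => ep_iso f.symm) (fun _ p => ?_) (fun _ => h) ?_
  · rw [← he p]
    simp
  · intro W hW hWμ p
    refine ⟨(), f p, by simp, Mk.im f '' W, hW.image _, ?_, ?_⟩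
    · rintro _ ⟨G, hG, rfl⟩
      exact hm G (hWμ hG)
    · rw [Set.image_image]
      have h1 : ∀ G : Mk P, Mk.im f.symm (Mk.im f G) = G := by
        intro G
        rw [Mk.im_im]
        have h4 : (f.symm : Q → P) ∘ f = fun x => x := by
          funext x
          simp
        rw [h4, Mk.im_id]
      simp only [h1, Set.image_id']

/-- a common stage for finitely many marks -/
theorem common {J : Type} [LinearOrder J] [OrderBot J] [SuccOrder J] {Ω P0 : Type}
    [Preorder P0] (T : Tw J Ω P0) (j : J) (hj : Order.IsSuccLimit j) (i0 : J) (h0 : i0 < j)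
    (W : Set (Mk (T.A j))) (hW : W.Finite) (hWμ : W ⊆ T.mu j) :
    ∃ (i : J) (h : i < j), i0 ≤ i ∧ ∀ G ∈ W, ∃ G0 ∈ T.mu i, G = G0.im (T.e i j h.le) := by
  induction W, hW using Set.Finite.induction_on with
  | empty => exact ⟨i0, h0, le_rfl, fun G hG => absurd hG (Set.notMem_empty _)⟩
  | @insert G1 S hG1 hS ih =>
    obtain ⟨i, h, hi, hi'⟩ := ih fun G hG => hWμ (Set.mem_insert_of_mem _ hG)
    obtain ⟨i1, h1, G0, hG0, e0⟩ := T.mu_l j hj G1 (hWμ (Set.mem_insert _ _))
    have key : ∀ (k : J) (hk : k < j) (l : J) (hl : l < j) (hkl : k ≤ l), ∀ G0 ∈ T.mu k,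
        ∃ G2 ∈ T.mu l, G0.im (T.e k j hk.le) = G2.im (T.e l j hl.le) := by
      intro k hk l hl hkl G0 hG0
      refine ⟨G0.im (T.e k l hkl), T.mu_e k l hkl G0 hG0, ?_⟩
      rw [Mk.im_im]
      congr 1
      funext x
      exact (T.e_trans k l j hkl hl.le x).symm
    refine ⟨max i i1, max_lt h h1, hi.trans (le_max_left _ _), ?_⟩
    rintro G (rfl | hG)
    · rw [e0]
      exact key i1 h1 _ (max_lt h h1) (le_max_right _ _) G0 hG0
    · obtain ⟨G3, hG3, e3⟩ := hi' G hG
      rw [e3]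
      exact key i h _ (max_lt h h1) (le_max_left _ _) G3 hG3

end TIN_

open TIN_ in
/-- TIN -/
theorem p_TIN (h_PTE : T_PTE) (h_TWE : T_TWE) (h_TGM : T_TGM) (h_LIN : T_LIN)
    (h_IST : T_IST) : T_TIN := by
  intro K J Ω Θ P0 _ _ _ _ _ _ T D hK hC h0 j
  have hEP : ∀ (i j : J) (h : i ≤ j), ∃ π, EP (T.e i j h) π :=
    h_PTE J T.toPT (h_TWE J Ω P0 T)
  induction j using WellFoundedLT.induction with
  | ind j ih =>
  by_cases hj : Order.IsSuccPrelimit j
  · by_cases hm : IsMin j
    · have hj' : j = ⊥ := hm.eq_bot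
      subst hj'
      refine inv_iso h_LIN K Θ P0 T.z D _ (id : P0 → P0) (fun p => ?_) _ ∅ ?_ h0
      · rw [T.e_refl]
        simp
      · intro G hG
        rw [T.mu_z] at hG
        exact absurd hG (Set.notMem_empty _)
    · have hl : Order.IsSuccLimit j := ⟨hm, hj⟩
      choose π hπ using fun i : Set.Iio j => hEP i.1 j (le_of_lt i.2)
      refine h_LIN K Θ P0 (Set.Iio j) (T.A j) (fun i => T.A i.1)
        (fun i => T.e i.1 j (le_of_lt i.2)) π D _
        (fun i p => T.e ⊥ i.1 bot_le (T.z.symm p)) _ (fun i => T.mu i.1)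
        ((Cardinal.mk_set_le _).trans hK) hπ (fun i p => ?_) (fun i => ih i.1 i.2) ?_
      · exact T.e_trans ⊥ i.1 j bot_le (le_of_lt i.2) _
      · intro W hW hWμ p
        obtain ⟨i0, hi0, a0, ha0⟩ := T.lim j hl p
        obtain ⟨i, hi, hle, hG⟩ := common T j hl i0 hi0 W hW hWμ
        choose! f hf1 hf2 using hG
        refine ⟨⟨i, hi⟩, T.e i0 i hle a0, ?_, f '' W, hW.image _, ?_, ?_⟩
        · rw [← ha0]
          exact T.e_trans i0 i j hle hi.le a0
        · rintro _ ⟨G, hG, rfl⟩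
          exact hf1 G hG
        · rw [Set.image_image]
          ext G
          constructor
          · intro h
            exact ⟨G, h, (hf2 G h).symm⟩
          · rintro ⟨G', h, rfl⟩
            change Mk.im (T.e i j _) (f G') ∈ W
            rw [← hf2 G' h]
            exact h
  · rw [Order.not_isSuccPrelimit_iff] at hj
    obtain ⟨i, hij⟩ := hj
    have hi : ¬ IsMax i := hij.lt.not_isMax
    obtain rfl : Order.succ i = j := hij.succ_eq
    have h1 := h_IST K Θ P0 Ω (T.A i) (T.mu i) D (fun p => T.e ⊥ i bot_le (T.z.symm p))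
      (h_TGM J Ω P0 T i) (ccc_iso (T.s i hi) (hC _)) (ih i hij.lt)
    refine inv_iso h_LIN K Θ P0 (T.s i hi) D _ _ (fun p => ?_) _ _ ?_ h1
    · rw [← T.s_e i hi, T.e_trans]
    · intro G hG
      exact (T.mu_s i hi G).1 hG

end CofSN2
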