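import Pool.Agent.CofSN2.Targets
import Pool.Agent.CofSN.TSL

/-!
# MP_3e8648_lc, second model, target TNM: the marks of the functions of a level (helper7)
-/

set_option autoImplicit false

namespace CofSN2

open CofSN

namespace TNM_

theorem im_im {P Q R : Type} (e₁ : P → Q) (e₂ : Q → R) (G : Mk P) :
    (G.im e₁).im e₂ = G.im (fun p => e₂ (e₁ p)) := by
  funext b n k
  simp only [Mk.im, Set.image_image]

theorem im_id {P : Type} {e : P → P} (h : ∀ p, e p = p) (G : Mk P) : G.im e = G := by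
  funext b n k
  have h1 : e = id := funext h
  simp only [Mk.im, h1, Set.image_id]

end TNM_

open TNM_ in
theorem p_TNM (h_PTE : T_PTE) (h_TWE : T_TWE) (h_IMN : T_IMN) (h_GMN : T_GMN) : T_TNM := by
  intro L Ω P0 _ _ _ _ _ _ _ T π hE i f
  obtain ⟨ξ⟩ := (inferInstance : Nonempty Ω)
  have key : ∀ j : WithTop L, j = Order.succ (i : WithTop L) → ∃ G ∈ T.mu j,
      ∀ (q : T.A ⊤) (n : ℕ) (s a : ℕ → ℕ) (k : ℕ),
      (∀ l ≤ n, q ∈ (G.im (T.e j ⊤ le_top)).nv true l (s l)) →
      (∀ l < sm s n, q ∈ (f.cm (hE i)).v l (a l)) →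
      q ∈ (G.im (T.e j ⊤ le_top)).nv false n k → k = (Finset.range (sm s n)).sup a := by
    intro j hj
    subst hj
    have hi : ¬ IsMax (i : WithTop L) := (WithTop.coe_lt_top i).not_isMax
    obtain ⟨π', hE'⟩ := h_PTE (WithTop L) T.toPT (h_TWE (WithTop L) Ω P0 T)
      (Order.succ (i : WithTop L)) ⊤ le_top
    have hc := TSL_.ep_comp (TSL_.ep_iso (T.s i hi)) hE'
    obtain ⟨_, hG2⟩ := h_GMN Ω (T.A i) (T.mu i) (fun _ => f) ξ
    have hG3 := (h_IMN _ _ _ _ hc (newG (fun _ => f) ξ)).1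
    refine ⟨(newG (fun _ => f) ξ : Mk (S3 Ω (T.A i) (T.mu i))).im (fun p => (T.s i hi).symm p),
      ?_, ?_⟩
    · rw [T.mu_s (i : WithTop L) hi, im_im, im_id (fun p => (T.s i hi).apply_symm_apply p)]
      exact Or.inr ⟨fun _ => f, ξ, rfl⟩
    · intro q n s a k h1 h2 h3
      simp only [im_im] at h1 h3
      have a1 : ((T.s i hi) (π' q)).p ≤ π i q := by
        have b1 : q ≤ T.e (Order.succ (i : WithTop L)) ⊤ le_top
            (T.e i (Order.succ (i : WithTop L)) (Order.le_succ _) (π i q)) := by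
          rw [T.e_trans]
          exact (hE i).ep q
        have b2 := (hE'.pmono b1).trans (hE'.pe _)
        have b3 := (T.s i hi).monotone b2
        rw [T.s_e] at b3
        exact b3.1
      refine hG2 ((T.s i hi) (π' q)) n s a k (fun l hl => (hG3 _ _ _ _).1 (h1 l hl)) ?_
        ((hG3 _ _ _ _).1 h3)
      intro m hm
      exact RO.mem_down (U := f.v m (a m)) (h2 m hm) a1
  exact key _ WithTop.succ_coe.symm

end CofSN2
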