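import Pool.Agent.CofSN2.Targets2

/-!
# MP_3e8648_lc, second model: TRW, few dominated basic reals at all stages (helper32)
-/

set_option autoImplicit false

namespace CofSN2

open CofSN

namespace TRW_

/-- an order isomorphism is a complete embedding -/
theorem ep_iso {P Q : Type} [Preorder P] [Preorder Q] (φ : P ≃o Q) :
    EP (φ.symm : Q → P) (φ : P → Q) where
  emono := φ.symm.monotone
  pmono := φ.monotone
  pe q := by rw [OrderIso.apply_symm_apply]
  pe' q := by rw [OrderIso.apply_symm_apply]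
  ep p := by rw [OrderIso.symm_apply_apply]
  lift p q h := by
    refine ⟨φ.symm q, ?_, le_rfl⟩
    have h1 := φ.symm.monotone h
    rwa [OrderIso.symm_apply_apply] at h1

theorem r3_iso {K Θ P0 P Q : Type} [Preorder P] [Preorder Q] {D : Θ → ℕ → ℕ → P0 → Prop}
    {e : P0 → P} (φ : P ≃o Q) (h : R3 K D e) : R3 K D (fun p => φ (e p)) := by
  intro g
  have h1 := h (g.cm (ep_iso φ))
  refine le_trans (Cardinal.mk_le_mk_of_subset ?_) h1
  rintro η ⟨q, m, hq⟩
  refine ⟨φ.symm q, m, fun n hn p hp k l hD hg => ?_⟩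
  refine hq n hn (φ p) ?_ k l ?_ hg
  · have h2 := φ.monotone hp
    rwa [OrderIso.apply_symm_apply] at h2
  · obtain ⟨p0, h3, h4⟩ := hD
    exact ⟨p0, h3, φ.monotone h4⟩

theorem ccc_iso {P Q : Type} [Preorder P] [Preorder Q] (φ : P ≃o Q) (h : CCC P) : CCC Q := by
  intro ι f hf
  refine h ι (fun i => φ.symm (f i)) fun i j hij hc => hf i j hij ?_
  obtain ⟨r, h1, h2⟩ := hc
  refine ⟨φ r, ?_, ?_⟩
  · have h3 := φ.monotone h1
    rwa [OrderIso.apply_symm_apply] at h3
  · have h3 := φ.monotone h2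
    rwa [OrderIso.apply_symm_apply] at h3

end TRW_

/-- TRW -/
theorem p_TRW (h_PTE : T_PTE) (h_TWE : T_TWE) (h_TGM : T_TGM) (h_LIM : T_LIM)
    (h_STW : T_STW) : T_TRW := by
  intro K J Ω Θ P0 _ _ _ _ _ _ T D hΩ hJ hccc h0 j
  induction j using WellFoundedLT.induction with
  | ind j ih =>
  by_cases hj : Order.IsSuccPrelimit j
  · by_cases hm : IsMin j
    · have hj' : j = ⊥ := hm.eq_bot
      subst hj'
      have h1 := TRW_.r3_iso T.z.symm h0
      have h2 : (fun p => T.e ⊥ ⊥ bot_le (T.z.symm p)) = fun p => T.z.symm (id p) := by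
        funext p
        rw [T.e_refl]
        rfl
      rw [h2]
      exact h1
    · have hl : Order.IsSuccLimit j := ⟨hm, hj⟩
      have hπ : ∀ i : Set.Iio j, ∃ π, EP (T.e i.1 j (le_of_lt i.2)) π := fun i =>
        h_PTE J T.toPT (h_TWE J Ω P0 T) i.1 j (le_of_lt i.2)
      choose π hπ using hπ
      refine h_LIM K Θ P0 (Set.Iio j) (T.A j) (fun i => T.A i.1)
        (fun i => T.e i.1 j (le_of_lt i.2)) π D _
        (fun i p => T.e ⊥ i.1 bot_le (T.z.symm p)) ?_ hπ ?_ ?_ ?_
      · exact (Cardinal.mk_set_le _).trans hJ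
      · intro q
        obtain ⟨i, h, p, hp⟩ := T.lim j hl q
        exact ⟨⟨i, h⟩, p, hp⟩
      · intro i p
        exact T.e_trans _ _ _ _ _ _
      · intro i
        exact ih i.1 i.2
  · rw [Order.not_isSuccPrelimit_iff] at hj
    obtain ⟨i, hij⟩ := hj
    have hi : ¬ IsMax i := hij.lt.not_isMax
    obtain rfl : Order.succ i = j := hij.succ_eq
    have h1 : CCC (S3 Ω (T.A i) (T.mu i)) := TRW_.ccc_iso (T.s i hi) (hccc _)
    have h2 := h_STW K Θ P0 Ω (T.A i) (T.mu i) D (fun p => T.e ⊥ i bot_le (T.z.symm p)) hΩ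
      (h_TGM J Ω P0 T i) h1 (ih i (Order.lt_succ_of_not_isMax hi))
    have h3 := TRW_.r3_iso (T.s i hi).symm h2
    have h4 : (fun p => T.e ⊥ (Order.succ i) bot_le (T.z.symm p)) =
        fun p => (T.s i hi).symm (S3.emb (T.e ⊥ i bot_le (T.z.symm p))) := by
      funext p
      rw [← T.s_e i hi, OrderIso.symm_apply_apply, T.e_trans]
    rw [h4]
    exact h3

end CofSN2
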