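import Pool.Agent.CofSN2.Targets
import Pool.Agent.CofSN.TSL

/-!
# MP_3e8648_lc, second model, target TSA: the slaloms for the marks of level `i`
-/

set_option autoImplicit false

namespace CofSN2

open CofSN CofSN.TSL_

theorem p_TSA (h_PTE : T_PTE) (h_TWE : T_TWE) (h_TGM : T_TGM) (h_IMN : T_IMN) (h_EPS : T_EPS)
    (h_SLA : T_SLA) : T_TSA := by
  intro L Ω P0 _ _ _ _ _ _ T π hE i G hG
  have hi : ¬ IsMax (i : WithTop L) := (WithTop.coe_lt_top i).not_isMax
  obtain ⟨π', hE'⟩ := h_PTE (WithTop L) T.toPT (h_TWE (WithTop L) Ω P0 T)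
    (Order.succ (i : WithTop L)) ⊤ le_top
  have h := h_EPS Ω (T.A i) (T.mu i)
  obtain ⟨S₀, hS1, hS2⟩ := h_SLA Ω (T.A i) (T.mu i) (h_TGM (WithTop L) Ω P0 T i) h G hG
  have hc := ep_comp (ep_iso (T.s i hi)) hE'
  have a1 : ∀ q : T.A ⊤, ((T.s i hi) (π' q)).p ≤ π i q := by
    intro q
    have b1 : q ≤ T.e (Order.succ (i : WithTop L)) ⊤ le_top
        (T.e i (Order.succ (i : WithTop L)) (Order.le_succ _) (π i q)) := by
      rw [T.e_trans]
      exact (hE i).ep q
    have b2 := (hE'.pmono b1).trans (hE'.pe _)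
    have b3 := (T.s i hi).monotone b2
    rw [T.s_e] at b3
    exact b3.1
  have a2 : ∀ q : T.A ⊤, π i q ≤ ((T.s i hi) (π' q)).p := by
    intro q
    have b1 : (T.s i hi) (π' q) ≤ S3.emb ((T.s i hi) (π' q)).p := h.ep _
    rw [← T.s_e (i : WithTop L) hi, OrderIso.le_iff_le] at b1
    have b2 := (hE'.ep q).trans (hE'.emono b1)
    rw [T.e_trans] at b2
    exact ((hE i).pmono b2).trans ((hE i).pe _)
  refine ⟨S₀.cm hc, fun n T' q k hq hk => ?_, fun x hx => ?_⟩
  · have hk1 := ((h_IMN (T.A i) (T.A ⊤) (T.e i ⊤ le_top) (π i) (hE i) G).1 true n k q).1 hk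
    have hk2 : ((T.s i hi) (π' q)).p ∈ G.nv true n k := RO.mem_down (U := G.nv true n k) hk1 (a1 q)
    refine hS1 n T' ((T.s i hi) (π' q)) k hq ?_
    exact ((h_IMN (T.A i) (S3 Ω (T.A i) (T.mu i)) S3.emb (fun c => c.p) h G).1 true n k _).2 hk2
  · have h1 := capt_cm hc (hS2 x hx)
    have h2 : (x.cm h).cm hc = x.cm (hE i) := by
      ext1
      funext n a
      refine RO.ext_mem fun q => ?_
      constructor
      · intro hq
        exact RO.mem_down (U := x.v n a) hq (a2 q)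
      · intro hq
        exact RO.mem_down (U := x.v n a) hq (a1 q)
    rw [← h2]
    exact h1

end CofSN2
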