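import Pool.Agent.CofSN2.Targets
import Pool.Agent.CofSN.TCT

/-!
# MP_3e8648_lc, second model: chain conditions in the tower (helper70)
-/

set_option autoImplicit false

namespace CofSN2

open CofSN

namespace TWC_

theorem iso {A B : Type} [Preorder A] [Preorder B] (e : A ≃o B) (h : CCC B) : CCC A := by
  intro ι f hf
  refine h ι (fun i => e (f i)) fun i j hij hc => hf i j hij ?_
  obtain ⟨r, h1, h2⟩ := hc
  refine ⟨e.symm r, ?_, ?_⟩
  · have := e.symm.monotone h1
    simpa using this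
  · have := e.symm.monotone h2
    simpa using this

end TWC_

theorem p_TWC (h_PTE : T_PTE) (h_PTC : T_PTC) (h_PTT : T_PTT) (h_TWE : T_TWE)
    (h_TGM : T_TGM) (h_CCS : T_CCS) : T_TWC := by
  intro L Ω P0 _ _ _ _ _ _ T hc hb hP0 j
  have hpr : ∀ (i j : WithTop L) (h : i ≤ j), ∃ π, EP (T.e i j h) π :=
    h_PTE (WithTop L) T.toPT (h_TWE (WithTop L) Ω P0 T)
  have h0 : CCC (T.A ⊥) := TWC_.iso T.z hP0
  have hs : ∀ j, ¬ IsMax j → CCC (T.A j) → CCC (T.A (Order.succ j)) := fun j hj h =>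
    TWC_.iso (T.s j hj) (h_CCS Ω (T.A j) (T.mu j) (h_TGM (WithTop L) Ω P0 T j) h)
  have hi : ∀ i : L, CCC (T.A i) := fun i =>
    h_PTC (WithTop L) T.toPT h0 hs hpr i (TCT_.iiocoe hc i)
  induction j with
  | top => exact h_PTT L T.toPT hpr hi hc hb
  | coe i => exact hi i

end CofSN2
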