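import Pool.Agent.CofSN2.Targets

/-!
# MP_3e8648_lc, second model: the family `psit` is small and total
-/

set_option autoImplicit false

namespace CofSN2

open CofSN

namespace TYA_

theorem gap_down {P : Type} [Preorder P] {G : Mk P} {j : ℕ} {p q : P} (h : Gap G j p)
    (hq : q ≤ p) : Gap G j q := by
  obtain ⟨k, b, w, h1, h2, h3, h4⟩ := h
  exact ⟨k, b, w, fun i hi => RO.mem_down (h1 i hi) hq, h2, RO.mem_down h3 hq, h4⟩

section typ

variable {Ω P : Type} [Preorder P] {μ : Set (Mk P)}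

theorem okj_down {V : Set ((Ω → Nm (RO P) ℕ) × Ω)} {t : Typ Ω P} {j : ℕ} {p q : P}
    (h : okj V t j p) (hq : q ≤ p) : okj V t j q := by
  intro x hx
  obtain ⟨a, h1, h2⟩ := h x hx
  exact ⟨a, fun i hi l hl => RO.mem_down (h1 i hi l hl) hq, h2⟩

theorem na_down {ψ : ℕ → Finset (List Bool) → Set (S3 Ω P μ)} {A : Set (Mk P)} {r : ℕ}
    {t : Typ Ω P} {v : Finset (List Bool)} {j : ℕ} {p q : P} (h : NA ψ A r t v j p)
    (hq : q ≤ p) : NA ψ A r t v j q := fun q' hq' => h q' (hq'.trans hq)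

theorem psit_dc (ψ : ℕ → Finset (List Bool) → Set (S3 Ω P μ))
    (V : Set ((Ω → Nm (RO P) ℕ) × Ω)) (A : Set (Mk P)) (r m : ℕ) (t : Typ Ω P) :
    DC (psit ψ V A r m t) := by
  intro j S p q hq hp
  rcases hp with ⟨h1, k, b, v, h2, h3, h4⟩ | ⟨h1, h2⟩
  · left
    refine ⟨okj_down h1 hq, k, b, v, ?_, ?_, h4⟩
    · intro G hG
      obtain ⟨h5, h6, w, h7, h8⟩ := h2 G hG
      exact ⟨fun i hi => RO.mem_down (h5 i hi) hq, h6, w, h7, RO.mem_down h8 hq⟩
    · intro s hs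
      obtain ⟨h5, h6⟩ := h3 s hs
      exact ⟨h5, na_down h6 hq⟩
  · right
    exact ⟨h1, fun q' hq' => h2 q' (hq'.trans hq)⟩

end typ

/-- the words of length `n` -/
noncomputable def wds (n : ℕ) : Finset (List Bool) :=
  (Finset.univ : Finset (List.Vector Bool n)).image fun v => v.toList

theorem mem_wds {n : ℕ} {s : List Bool} (h : s.length = n) : s ∈ wds n := by
  unfold wds
  rw [Finset.mem_image]
  exact ⟨⟨s, h⟩, Finset.mem_univ _, rfl⟩

theorem card_wds (n : ℕ) : (wds n).card ≤ 2 ^ n := by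
  unfold wds
  refine Finset.card_image_le.trans ?_
  rw [Finset.card_univ, card_vector, Fintype.card_bool]

theorem vs_mem {m j : ℕ} {S : Finset (List Bool)} (h : VS m j S) :
    S ∈ (wds (2 * j)).powerset := by
  rw [Finset.mem_powerset]
  intro s hs
  exact mem_wds (h.2 s hs)

/-- the possible values -/
abbrev Vv (m j : ℕ) : Type := {S : Finset (List Bool) // VS m j S}

noncomputable instance (m j : ℕ) : Fintype (Vv m j) :=
  Fintype.ofInjective (fun S : Vv m j => (⟨S.1, vs_mem S.2⟩ : (wds (2 * j)).powerset))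
    (by
      intro a b h
      have h1 : a.1 = b.1 := congrArg (fun x : (wds (2 * j)).powerset => x.1) h
      exact Subtype.ext h1)

instance (m j : ℕ) : Nonempty (Vv m j) := ⟨⟨∅, by simp [VS]⟩⟩

theorem card_vv (m j : ℕ) : Fintype.card (Vv m j) ≤ 2 ^ 2 ^ (2 * j) := by
  have h1 : Fintype.card (Vv m j) ≤ Fintype.card (wds (2 * j)).powerset :=
    Fintype.card_le_of_injective (fun S : Vv m j =>
      (⟨S.1, vs_mem S.2⟩ : (wds (2 * j)).powerset))
    (by
      intro a b h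
      have h1 : a.1 = b.1 := congrArg (fun x : (wds (2 * j)).powerset => x.1) h
      exact Subtype.ext h1)
  rw [Fintype.card_coe, Finset.card_powerset] at h1
  exact h1.trans (Nat.pow_le_pow_right (by norm_num) (card_wds _))

section typ

variable {Ω P : Type} [Preorder P] {μ : Set (Mk P)}

/-- `c` excludes the value `v` -/
def Exc (ψ : ℕ → Finset (List Bool) → Set (S3 Ω P μ)) (A : Set (Mk P)) (r : ℕ)
    (t : Typ Ω P) (j : ℕ) (q : P) (v : Finset (List Bool)) (c : S3 Ω P μ) : Prop :=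
  c.p = q ∧ c.typ = t ∧ (∀ G, (c.pr G).length ≤ r) ∧ (∀ G, G ∉ A → c.pr G = []) ∧
    ∀ d ≤ c, d ∉ ψ j v

theorem exc_all {ψ : ℕ → Finset (List Bool) → Set (S3 Ω P μ)} {A : Set (Mk P)} {r : ℕ}
    {t : Typ Ω P} {m j : ℕ} {q1 : P}
    (h : ∀ q2 ≤ q1, ∀ v, VS m j v → ¬ NA ψ A r t v j q2) :
    ∃ q2 ≤ q1, ∀ v : Vv m j, ∃ c, Exc ψ A r t j q2 v.1 c := by
  classical
  have key : ∀ T : Finset (Vv m j), ∃ q2 ≤ q1, ∀ v ∈ T, ∃ c, Exc ψ A r t j q2 v.1 c := by
    intro T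
    induction T using Finset.induction_on with
    | empty => exact ⟨q1, le_rfl, by simp⟩
    | insert v T _ ih =>
      obtain ⟨q2, hq2, h2⟩ := ih
      have h3 := h q2 hq2 v.1 v.2
      unfold NA at h3
      push Not at h3
      obtain ⟨q3, hq3, c, hc1, hc2, hc3, hc4, hc5⟩ := h3
      refine ⟨q3, hq3.trans hq2, ?_⟩
      intro v' hv'
      rw [Finset.mem_insert] at hv'
      rcases hv' with rfl | hv'
      · exact ⟨c, hc1, hc2, hc3, hc4, hc5⟩
      · obtain ⟨c', h4, h5, h6, h7, h8⟩ := h2 v' hv'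
        refine ⟨c'.put q3 (by rw [h4]; exact hq3), rfl, h5, h6, h7, ?_⟩
        intro d hd
        exact h8 d (hd.trans (c'.put_le q3 _))
  obtain ⟨q2, hq2, h2⟩ := key Finset.univ
  exact ⟨q2, hq2, fun v => h2 v (Finset.mem_univ _)⟩

/-- the claim: some value is not excluded -/
theorem claim (hI : T_IMN) (hE : T_EPS) (hL : T_LNK) (hN : T_GNW) (hμ : ∀ G ∈ μ, GM G)
    {W : Set (Mk P)} {V : Set ((Ω → Nm (RO P) ℕ) × Ω)} {m m1 : ℕ}
    {ψ : ℕ → Finset (List Bool) → Set (S3 Ω P μ)} (hT : TT (mix W V) m m1 ψ)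
    {t : Typ Ω P} {A : Set (Mk P)} {r : ℕ} (hA : A ⊆ μ) {j : ℕ} (hj : max m1 r ≤ j)
    {q' : P} (hW : ∀ G ∈ W, Gap G j q') (hok : okj V t j q') {k : Mk P → ℕ}
    {b : Mk P → ℕ → ℕ}
    (hk : ∀ G ∈ A, ∃ w, H j ≤ w ∧ q' ∈ G.nv true (k G) w)
    {s : Mk P → List (Finset ℕ)} (hs : s ∈ Ext A t.st k b) {q1 : P} (hq1 : q1 ≤ q') :
    ∃ q2 ≤ q1, ∃ v, VS m j v ∧ NA ψ A r (tpl V t j s) v j q2 := by
  classical
  by_contra hcon
  push Not at hcon
  have h1 : ∀ q2 ≤ q1, ∀ v, VS m j v → ¬ NA ψ A r (tpl V t j s) v j q2 := hcon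
  obtain ⟨q2, hq2, h2⟩ := exc_all h1
  choose c hc using h2
  have hcard : Fintype.card (Vv m j) * r ≤ H j := by
    have h3 := card_vv m j
    have h4 : r ≤ j + 1 := by
      have := le_max_right m1 r
      omega
    calc Fintype.card (Vv m j) * r ≤ 2 ^ 2 ^ (2 * j) * (j + 1) := Nat.mul_le_mul h3 h4
      _ = H j := by unfold H; ring
  obtain ⟨d, hd1, hd2, hd3⟩ := hL Ω P μ hμ A r q2 (tpl V t j s) (Vv m j) c
    (fun v => (hc v).1) (fun v => (hc v).2.1) (fun v => (hc v).2.2.1)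
    (fun v => (hc v).2.2.2.1) (by
      intro G hG
      obtain ⟨w, hw1, hw2⟩ := hk G hG
      refine ⟨k G, w, ?_, RO.mem_down hw2 (hq2.trans hq1), hcard.trans hw1⟩
      have h5 : (s G).length = max (t.st G).length (k G) := (hs.2 G hG).2.1
      have h6 : (tpl V t j s).st G = s G := rfl
      rw [h6, h5]
      exact le_max_right _ _) hA
  have hdq : d.p ≤ q' := by
    rw [hd1]
    exact hq2.trans hq1
  have hgap : ∀ G ∈ (mix W V : Set (Mk (S3 Ω P μ))), Gap G j d := by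
    rintro G' (⟨G, hG, rfl⟩ | ⟨x, hx, rfl⟩)
    · rw [(hI P (S3 Ω P μ) S3.emb (fun c => c.p) (hE Ω P μ) G).2.1 j d]
      exact gap_down (hW G hG) hdq
    · obtain ⟨a, ha1, ha2⟩ := hok x hx
      refine hN Ω P μ x.1 x.2 d (t.cs x.1) j a ?_ ?_ ha2
      · have h5 : d.cs = (tpl V t j s).cs := congrArg Typ.cs hd2
        rw [h5]
        have h6 : (tpl V t j s).cs x.1 = t.cs x.1 ++ [H j] := by
          unfold tpl
          exact if_pos ⟨x.2, hx⟩
        rw [h6]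
      · intro i hi l hl
        exact RO.mem_down (ha1 i hi l hl) hdq
  obtain ⟨d', hd', S', hS', hdS⟩ := hT j ((le_max_left _ _).trans hj) d hgap
  exact (hc ⟨S', hS'⟩).2.2.2.2 d' (hd'.trans (hd3 ⟨S', hS'⟩)) hdS

end typ

end TYA_

open TYA_ in
theorem p_TYA (hI : T_IMN) (hE : T_EPS) (hL : T_LNK) (hN : T_GNW) (hC : T_CNT) : T_TYA := by
  intro Ω P _ μ hμ W V m m1 ψ hWf hW hVf hD hT t A r hAf hA
  classical
  refine ⟨psit_dc ψ V A r m t, ?_⟩
  intro j hj q hq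
  by_cases hok : ∃ q' ≤ q, okj V t j q'
  swap
  · push Not at hok
    refine ⟨q, le_rfl, ∅, by simp [VS], Or.inr ⟨rfl, hok⟩⟩
  obtain ⟨q', hq', hok⟩ := hok
  have hWg : ∀ G ∈ W, Gap G j q' := fun G hG => gap_down (hq G (Or.inl hG)) hq'
  have hAg : ∀ G, ∃ (k : ℕ) (b : ℕ → ℕ) (w : ℕ), G ∈ A → (∀ i < k, q' ∈ G.nv false i (b i)) ∧
      (∏ i ∈ Finset.range k, 2 ^ (cb (b i) + 1)) ≤ j + 1 ∧ q' ∈ G.nv true k w ∧ H j ≤ w := by
    intro G
    by_cases hG : G ∈ A
    · obtain ⟨k, b, w, h1, h2, h3, h4⟩ := gap_down (hq G (Or.inr hG)) hq'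
      exact ⟨k, b, w, fun _ => ⟨h1, h2, h3, h4⟩⟩
    · exact ⟨0, fun _ => 0, 0, fun h => absurd h hG⟩
  choose k b w hkbw using hAg
  have hcnt := hC (Mk P) A t.st k (fun G i => cb (b G i)) (j + 1) hAf
    (fun G hG => (hkbw G hG).2.1)
  have hEf : (Ext A t.st k b).Finite := hcnt.1
  have hEc : (Ext A t.st k b).ncard ≤ (j + 1) ^ A.ncard := hcnt.2
  have key : ∀ T : Finset (Mk P → List (Finset ℕ)), (∀ s ∈ T, s ∈ Ext A t.st k b) →
      ∃ q2 ≤ q', ∃ v : (Mk P → List (Finset ℕ)) → Finset (List Bool), ∀ s ∈ T,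
        VS m j (v s) ∧ NA ψ A r (tpl V t j s) (v s) j q2 := by
    intro T
    induction T using Finset.induction_on with
    | empty => exact fun _ => ⟨q', le_rfl, fun _ => ∅, by simp⟩
    | insert s T hsT ih =>
      intro hTE
      obtain ⟨q2, hq2, v, hv⟩ := ih fun s' hs' => hTE s' (Finset.mem_insert_of_mem hs')
      obtain ⟨q3, hq3, v3, hv3, hna⟩ := claim hI hE hL hN hμ hT (t := t) (A := A) (r := r) hA hj
        hWg hok (k := k) (b := b)
        (fun G hG => ⟨w G, (hkbw G hG).2.2.2, (hkbw G hG).2.2.1⟩)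
        (hTE s (Finset.mem_insert_self _ _)) hq2
      refine ⟨q3, hq3.trans hq2, Function.update v s v3, ?_⟩
      intro s' hs'
      by_cases hss : s' = s
      · subst hss
        rw [Function.update_self]
        exact ⟨hv3, hna⟩
      · rw [Function.update_of_ne hss]
        have h1 := hv s' (Finset.mem_of_mem_insert_of_ne hs' hss)
        exact ⟨h1.1, na_down h1.2 hq3⟩
  obtain ⟨q2, hq2, v, hv⟩ := key hEf.toFinset fun s hs => hEf.mem_toFinset.1 hs
  refine ⟨q2, hq2.trans hq', hEf.toFinset.biUnion v, ?_, Or.inl ⟨okj_down hok hq2, k, b, v,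
    ?_, ?_, ?_⟩⟩
  · constructor
    · calc (hEf.toFinset.biUnion v).card ≤ ∑ s ∈ hEf.toFinset, (v s).card :=
            Finset.card_biUnion_le
        _ ≤ ∑ _s ∈ hEf.toFinset, (j + 1) ^ m := Finset.sum_le_sum fun s hs => (hv s hs).1.1
        _ = hEf.toFinset.card * (j + 1) ^ m := by rw [Finset.sum_const, smul_eq_mul]
        _ ≤ (j + 1) ^ A.ncard * (j + 1) ^ m := by
            refine Nat.mul_le_mul_right _ ?_
            rw [← Set.ncard_eq_toFinset_card _ hEf]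
            exact hEc
        _ = (j + 1) ^ (m + A.ncard) := by rw [← pow_add, add_comm A.ncard m]
    · intro u hu
      rw [Finset.mem_biUnion] at hu
      obtain ⟨s, hs, hu⟩ := hu
      exact (hv s hs).1.2 u hu
  · intro G hG
    obtain ⟨h1, h2, h3, h4⟩ := hkbw G hG
    exact ⟨fun i hi => RO.mem_down (h1 i hi) hq2, h2, w G, h4, RO.mem_down h3 hq2⟩
  · intro s hs
    exact hv s (hEf.mem_toFinset.2 hs)
  · intro u
    rw [Finset.mem_biUnion]
    constructor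
    · rintro ⟨s, hs, hu⟩
      exact ⟨s, hEf.mem_toFinset.1 hs, hu⟩
    · rintro ⟨s, hs, hu⟩
      exact ⟨s, hEf.mem_toFinset.2 hs, hu⟩

end CofSN2
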