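import Pool.Agent.CofSN2.Targets

/-!
# MP_3e8648_lc, second model: bad indices stay bad for `psit` (helper95)
-/

set_option autoImplicit false

namespace CofSN2

open CofSN

namespace TYB_

theorem nv_down {P : Type} [Preorder P] {G : Mk P} {b : Bool} {n k : ℕ} {p q : P}
    (h : p ∈ G.nv b n k) (hq : q ≤ p) : q ∈ G.nv b n k := RO.mem_down h hq

theorem gap_down {P : Type} [Preorder P] {G : Mk P} {j : ℕ} {p q : P} (h : Gap G j p)
    (hq : q ≤ p) : Gap G j q := by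
  obtain ⟨k, b, w, h1, h2, h3, h4⟩ := h
  exact ⟨k, b, w, fun i hi => nv_down (h1 i hi) hq, h2, nv_down h3 hq, h4⟩

theorem okj_down {Ω P : Type} [Preorder P] {V : Set ((Ω → Nm (RO P) ℕ) × Ω)} {t : Typ Ω P}
    {j : ℕ} {p q : P} (h : okj V t j p) (hq : q ≤ p) : okj V t j q := by
  intro x hx
  obtain ⟨a, h1, h2⟩ := h x hx
  exact ⟨a, fun i hi l hl => RO.mem_down (h1 i hi l hl) hq, h2⟩

theorem okj_large {Ω P : Type} [Preorder P] {μ : Set (Mk P)}
    (V : Set ((Ω → Nm (RO P) ℕ) × Ω)) (hV : V.Finite) (c : S3 Ω P μ)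
    (h : ∀ x ∈ V, ∃ a : ℕ → ℕ, ∀ i < (c.cs x.1).length, ∀ l < sm (om (c.cs x.1)) i,
      c.p ∈ (x.1 x.2).v l (a l)) : ∃ N : ℕ, ∀ j, N ≤ j → okj V c.typ j c.p := by
  choose! a ha using h
  let f : (Ω → Nm (RO P) ℕ) × Ω → ℕ := fun x => ∏ i ∈ Finset.range (c.cs x.1).length,
    2 ^ (cb ((Finset.range (sm (om (c.cs x.1)) i)).sup (a x)) + 1)
  refine ⟨hV.toFinset.sup f, fun j hj x hx => ⟨a x, ha x hx, ?_⟩⟩
  have h1 : f x ≤ hV.toFinset.sup f := Finset.le_sup (f := f) (hV.mem_toFinset.2 hx)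
  exact (h1.trans hj).trans (Nat.le_succ j)

end TYB_

open TYB_ in
open Classical in
/-- TYB: bad indices stay bad for `psit` -/
theorem p_TYB (hEPS : T_EPS) (hIMN : T_IMN) (hEXL : T_EXL) (hGNW : T_GNW) : T_TYB := by
  intro Θ P0 Ω P _ μ D e0 hGM W V m ψ hWμ hV hDC t A r hAf hAμ η c m0 hct hpr hprA hval hBad
  subst hct
  obtain ⟨N, hN⟩ := okj_large V hV c hval
  refine ⟨max m0 N, ?_⟩
  intro j hj q hq hgap k hDc S hVS hqS
  have hokq : okj V c.typ j q := okj_down (hN j ((le_max_right _ _).trans hj)) hq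
  rcases hqS with ⟨hok, kk, b, v, hA, hE, hu⟩ | ⟨-, hno⟩
  swap
  · exact absurd hokq (hno q le_rfl)
  let h : (Ω → Nm (RO P) ℕ) → List ℕ := fun F => if ∃ ξ, (F, ξ) ∈ V then [H j] else []
  have hh : {F | h F ≠ []}.Finite := by
    refine (hV.image Prod.fst).subset ?_
    intro F hF
    by_cases h1 : ∃ ξ, (F, ξ) ∈ V
    · obtain ⟨ξ, h2⟩ := h1
      exact ⟨(F, ξ), h2, rfl⟩
    · exfalso
      apply hF
      simp only [h, if_neg h1]
  let c1 : S3 Ω P μ := (c.put q hq).app h hh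
  have hc1 : c1 ≤ c := ((c.put q hq).app_le h hh).trans (c.put_le q hq)
  obtain ⟨d, hd, dcs, dds, ddp, dpr, dst, dlen⟩ := hEXL Ω P μ hGM c1 A kk hAf hAμ
  have hdp : d.p ≤ q := (S3.le_def.1 hd).1
  have hs : d.st ∈ Ext A c.typ.st kk b := by
    refine ⟨fun g hg => dst g hg, fun g hg => ⟨(S3.le_def.1 hd).2.2.2.2.2.1 g, dlen g hg, ?_⟩⟩
    intro i hi hci a ha
    have h1 : i < kk g := by
      have h2 := dlen g hg
      have h3 : (c.typ.st g).length = (c1.st g).length := rfl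
      rw [h3] at hci
      rw [h2] at hi
      rcases lt_max_iff.1 hi with h4 | h4
      · exact absurd h4 (not_lt.2 hci)
      · exact h4
    exact d.hgt g i hi d.p le_rfl (b g i) (nv_down ((hA g hg).1 i h1) hdp) a ha
  have htyp : d.typ = tpl V c.typ j d.st := by
    have e1 : d.cs = fun F => if ∃ ξ, (F, ξ) ∈ V then c.cs F ++ [H j] else c.cs F := by
      rw [dcs]
      funext F
      change c.cs F ++ h F = _
      by_cases h1 : ∃ ξ, (F, ξ) ∈ V
      · simp only [h, if_pos h1]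
      · simp only [h, if_neg h1, List.append_nil]
    have e2 : d.ds = c.ds := dds
    unfold S3.typ tpl
    rw [e1, e2]
  obtain ⟨hVSv, hNA⟩ := hE d.st hs
  have hex : ∃ d3 ≤ d, d3 ∈ ψ j (v d.st) := by
    by_contra hc
    push Not at hc
    refine hNA d.p hdp ⟨d, rfl, htyp, ?_, ?_, hc⟩
    · intro G
      rw [dpr]
      exact hpr G
    · intro G hG
      rw [dpr]
      exact hprA G hG
  obtain ⟨d3, hd3, hd3ψ⟩ := hex
  have hd3q : d3.p ≤ q := (S3.le_def.1 hd3).1.trans hdp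
  have hEP := hEPS Ω P μ
  have hgap3 : ∀ G ∈ (mix W V : Set (Mk (S3 Ω P μ))), Gap G j d3 := by
    rintro G' (⟨G, hG, rfl⟩ | ⟨x, hx, rfl⟩)
    · rw [(hIMN P (S3 Ω P μ) S3.emb (fun c => c.p) hEP G).2.1 j d3]
      exact gap_down (hgap G (Or.inl hG)) hd3q
    · obtain ⟨a, ha1, ha2⟩ := hokq x hx
      refine hGNW Ω P μ x.1 x.2 d3 (c.cs x.1) j a ?_ ?_ ha2
      · have h1 : d.cs x.1 = c.cs x.1 ++ [H j] := by
          rw [dcs]
          change c.cs x.1 ++ h x.1 = _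
          have h2 : ∃ ξ, (x.1, ξ) ∈ V := ⟨x.2, hx⟩
          simp only [h, if_pos h2]
        rw [← h1]
        exact (S3.le_def.1 hd3).2.1 x.1
      · exact fun i hi l hl => RO.mem_down (ha1 i hi l hl) hd3q
  have hDc3 : Dc D (fun p => (S3.emb (e0 p) : S3 Ω P μ)) η j k d3 := by
    obtain ⟨p0, h1, h2⟩ := hDc
    exact ⟨p0, h1, (hEP.ep d3).trans (hEP.emono (hd3q.trans h2))⟩
  have hfin := hBad j ((le_max_left _ _).trans hj) d3 ((hd3.trans hd).trans hc1) hgap3 k hDc3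
    (v d.st) hVSv hd3ψ
  intro hSub
  refine hfin fun u hu' => hSub ?_
  exact (hu u).2 ⟨d.st, hs, hu'⟩

end CofSN2
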