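import Pool.Agent.CofSN2.Targets

/-!
# MP_3e8648_lc, second model: few bad indices for every type (helper90)
-/

set_option autoImplicit false

namespace CofSN2

open CofSN

theorem p_TYP (h_TYA : T_TYA) (h_TYB : T_TYB) : T_TYP := by
  intro K Θ P0 Ω P _ _ μ D e0 hμ hinv W V m m1 ψ hW hWμ hV hDC hTT t A r hA hAμ
  obtain ⟨h1, h2⟩ := h_TYA Ω P μ hμ W V m m1 ψ hW hWμ hV hDC hTT t A r hA hAμ
  refine (Cardinal.mk_le_mk_of_subset ?_).trans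
    (hinv (W ∪ A) (m + A.ncard) (max m1 r) (psit ψ V A r m t) (hW.union hA)
      (Set.union_subset hWμ hAμ) h1 h2)
  rintro η ⟨c, m0, hc1, hc2, hc3, hc4, hc5⟩
  obtain ⟨m0', h⟩ := h_TYB Θ P0 Ω P μ D e0 hμ W V m ψ hWμ hV hDC t A r hA hAμ η c m0
    hc1 hc2 hc3 hc4 hc5
  exact ⟨c.p, m0', h⟩

end CofSN2
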