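import Pool.Agent.CofSN2.Tower

/-!
# MP_3e8648_lc, second model (cof(SN) < non(N)): targets (helper90)
-/

set_option autoImplicit false

namespace CofSN2

open CofSN

/-! ## Null sets -/

open Classical in
/-- the set of at most `2 ^ j` words of length `2 j` coded by `k` -/
noncomputable def dec (j k : ℕ) : Finset (List Bool) :=
  match (Encodable.decode k : Option (Finset (List Bool))) with
  | some S => if S.card ≤ 2 ^ j ∧ ∀ s ∈ S, s.length = 2 * j then S else ∅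
  | none => ∅

theorem dec_prop (j k : ℕ) : (dec j k).card ≤ 2 ^ j ∧ ∀ s ∈ dec j k, s.length = 2 * j := by
  unfold dec
  split
  · split_ifs with h
    · exact h
    · simp
  · simp

theorem dec_surj (j : ℕ) (S : Finset (List Bool)) (h : S.card ≤ 2 ^ j)
    (h' : ∀ s ∈ S, s.length = 2 * j) : ∃ k, dec j k = S := by
  refine ⟨Encodable.encode S, ?_⟩
  unfold dec
  rw [Encodable.encodek]
  simp only
  rw [if_pos ⟨h, h'⟩]

section BV

variable {B : Type} [CompleteBooleanAlgebra B]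

/-- Boolean value of: for every `j` the set `φ(j)` consists of at most `2 ^ j` words of length
`2 j` -/
def small (φ : Nm B (Finset (List Bool))) : B :=
  ⨅ j, Nm.memv φ j {S | S.card ≤ 2 ^ j ∧ ∀ s ∈ S, s.length = 2 * j}

/-- Boolean value of: for infinitely many `j` some word of `φ(j)` is an initial segment
of `x` -/
def infm (φ : Nm B (Finset (List Bool))) (x : Nm B Bool) : B :=
  ⨅ m, ⨆ j, ⨆ (_ : m ≤ j), ⨆ S, φ.v j S ⊓ ⨆ s ∈ S, ini s x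

end BV

/-! ## The invariant -/

/-- at most `(j+1)^m` words, of length `2 j` -/
def VS (m j : ℕ) (S : Finset (List Bool)) : Prop :=
  S.card ≤ (j + 1) ^ m ∧ ∀ s ∈ S, s.length = 2 * j

/-- a width which is large compared with `j` -/
def H (j : ℕ) : ℕ := (j + 1) * 2 ^ 2 ^ (2 * j)

/-- `j` is in a gap of the mark: at some `k` the width is at least `H j`, but the number of
possible slaloms of length `k` is at most `j + 1` -/
def Gap {P : Type} [Preorder P] (G : Mk P) (j : ℕ) (q : P) : Prop :=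
  ∃ (k : ℕ) (b : ℕ → ℕ) (w : ℕ), (∀ i < k, q ∈ G.nv false i (b i)) ∧
    (∏ i ∈ Finset.range k, 2 ^ (cb (b i) + 1)) ≤ j + 1 ∧ q ∈ G.nv true k w ∧ H j ≤ w

/-- `η` is bad: `p` forces that for almost all `j` in the gaps the set `ψ(j)` is not contained
in the set coded by `c_η(j)` -/
def Bad {P0 P Θ : Type} [Preorder P] (D : Θ → ℕ → ℕ → P0 → Prop) (e : P0 → P)
    (W : Set (Mk P)) (m : ℕ) (ψ : ℕ → Finset (List Bool) → Set P) (η : Θ) (p : P) (m0 : ℕ) :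
    Prop :=
  ∀ j, m0 ≤ j → ∀ q ≤ p, (∀ G ∈ W, Gap G j q) → ∀ k, Dc D e η j k q →
    ∀ S, VS m j S → q ∈ ψ j S → ¬ S ⊆ dec j k

/-- the sets are closed under extension -/
def DC {P : Type} [Preorder P] (ψ : ℕ → Finset (List Bool) → Set P) : Prop :=
  ∀ j S p q, q ≤ p → p ∈ ψ j S → q ∈ ψ j S

/-- in the gaps some value of `ψ(j)` is allowed, densely -/
def TT {P : Type} [Preorder P] (W : Set (Mk P)) (m m1 : ℕ)
    (ψ : ℕ → Finset (List Bool) → Set P) : Prop :=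
  ∀ j, m1 ≤ j → ∀ q, (∀ G ∈ W, Gap G j q) → ∃ q' ≤ q, ∃ S, VS m j S ∧ q' ∈ ψ j S

/-- the invariant: every small family is contained, infinitely often in the gaps of finitely
many marks, in the sets coded by all but few of the basic reals -/
def INV (K : Type) {P0 P Θ : Type} [Preorder P] (D : Θ → ℕ → ℕ → P0 → Prop) (e : P0 → P)
    (μ : Set (Mk P)) : Prop :=
  ∀ (W : Set (Mk P)) (m m1 : ℕ) (ψ : ℕ → Finset (List Bool) → Set P), W.Finite → W ⊆ μ →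
    DC ψ → TT W m m1 ψ → Few K {η : Θ | ∃ p m0, Bad D e W m ψ η p m0}

/-- BIN: the invariant for the Cohen functions -/
def T_BIN : Prop := ∀ (K Θ : Type) [Infinite K],
  INV K (Co.D (Θ := Θ)) (id : Co Θ → Co Θ) ∅

/-- IMN: marks under projections -/
def T_IMN : Prop := ∀ (P Q : Type) [Preorder P] [Preorder Q] (e : P → Q) (π : Q → P)
  (_ : EP e π) (G : Mk P), (∀ b n k q, q ∈ (G.im e).nv b n k ↔ π q ∈ G.nv b n k) ∧
  (∀ j q, Gap (G.im e) j q ↔ Gap G j (π q)) ∧ (GM G → GM (G.im e))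

/-- LIN (from IMN): limits -/
def T_LIN : Prop := ∀ (K Θ P0 ι P : Type) [Infinite K] [Preorder P] (A : ι → Type)
  [∀ i, Preorder (A i)] (e : ∀ i, A i → P) (π : ∀ i, P → A i)
  (D : Θ → ℕ → ℕ → P0 → Prop) (e0 : P0 → P) (e1 : ∀ i, P0 → A i) (μ : Set (Mk P))
  (ν : ∀ i, Set (Mk (A i))), Cardinal.mk ι ≤ Cardinal.mk K → (∀ i, EP (e i) (π i)) →
  (∀ i p, e i (e1 i p) = e0 p) → (∀ i, INV K D (e1 i) (ν i)) →
  (∀ W : Set (Mk P), W.Finite → W ⊆ μ → ∀ p : P, ∃ (i : ι) (a : A i), e i a = p ∧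
    ∃ W' : Set (Mk (A i)), W'.Finite ∧ W' ⊆ ν i ∧ W = Mk.im (e i) '' W') → INV K D e0 μ

/-! ## The successor step -/

/-- EPS: the embedding -/
def T_EPS : Prop := ∀ (Ω P : Type) [Preorder P] (μ : Set (Mk P)),
  EP (S3.emb : P → S3 Ω P μ) (fun c => c.p)

/-- stems -/
structure Typ (Ω P : Type) [Preorder P] where
  cs : (Ω → Nm (RO P) ℕ) → List ℕ
  ds : (Ω → Nm (RO P) ℕ) → List ℕ
  st : Mk P → List (Finset ℕ)

/-- the stems of a condition -/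
def S3.typ {Ω P : Type} [Preorder P] {μ : Set (Mk P)} (c : S3 Ω P μ) : Typ Ω P :=
  ⟨c.cs, c.ds, c.st⟩

/-- LNK: conditions with the same stems and not too many promises are compatible -/
def T_LNK : Prop := ∀ (Ω P : Type) [Preorder P] (μ : Set (Mk P)), (∀ G ∈ μ, GM G) →
  ∀ (A : Set (Mk P)) (r : ℕ) (p : P) (t : Typ Ω P) (ι : Type) [Fintype ι] [Nonempty ι]
    (c : ι → S3 Ω P μ), (∀ v, (c v).p = p) → (∀ v, (c v).typ = t) →
    (∀ v G, ((c v).pr G).length ≤ r) → (∀ v G, G ∉ A → (c v).pr G = []) →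
    (∀ G ∈ A, ∃ k w, k ≤ (t.st G).length ∧ p ∈ G.nv true k w ∧ Fintype.card ι * r ≤ w) →
    A ⊆ μ → ∃ d : S3 Ω P μ, d.p = p ∧ d.typ = t ∧ ∀ v, d ≤ c v

/-- EXL: the slaloms can be made longer -/
def T_EXL : Prop := ∀ (Ω P : Type) [Preorder P] (μ : Set (Mk P)), (∀ G ∈ μ, GM G) →
  ∀ (c : S3 Ω P μ) (A : Set (Mk P)) (k : Mk P → ℕ), A.Finite → A ⊆ μ → ∃ d ≤ c,
    d.cs = c.cs ∧ d.ds = c.ds ∧ d.dp = c.dp ∧ d.pr = c.pr ∧ (∀ G, G ∉ A → d.st G = c.st G) ∧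
    ∀ G ∈ A, (d.st G).length = max (c.st G).length (k G)

/-- EXD: the dominating functions can be made longer -/
def T_EXD : Prop := ∀ (Ω P : Type) [Preorder P] (μ : Set (Mk P)) (c : S3 Ω P μ)
  (F : Ω → Nm (RO P) ℕ) (N : ℕ), ∃ d ≤ c, d.cs = c.cs ∧ d.dp = c.dp ∧ d.pr = c.pr ∧
    d.st = c.st ∧ N ≤ (d.ds F).length

/-- CCS (from EXL): the countable chain condition -/
def T_CCS : Prop := ∀ (Ω P : Type) [Preorder P] (μ : Set (Mk P)), (∀ G ∈ μ, GM G) → CCC P →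
  CCC (S3 Ω P μ)

/-- GMN: the new marks are good, and their heights are the maxima -/
def T_GMN : Prop := ∀ (Ω P : Type) [Preorder P] (μ : Set (Mk P)) (F : Ω → Nm (RO P) ℕ)
  (ξ : Ω), GM (newG F ξ : Mk (S3 Ω P μ)) ∧
  ∀ (q : S3 Ω P μ) (n : ℕ) (s a : ℕ → ℕ) (k : ℕ),
    (∀ i ≤ n, q ∈ (newG F ξ : Mk (S3 Ω P μ)).nv true i (s i)) →
    (∀ m < sm s n, q.p ∈ (F ξ).v m (a m)) → q ∈ (newG F ξ : Mk (S3 Ω P μ)).nv false n k →
    k = (Finset.range (sm s n)).sup a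

/-- SLA (from EXL): the generic slaloms -/
def T_SLA : Prop := ∀ (Ω P : Type) [Preorder P] (μ : Set (Mk P)), (∀ G ∈ μ, GM G) →
  ∀ (h : EP (S3.emb : P → S3 Ω P μ) (fun c => c.p)), ∀ G ∈ μ,
    ∃ S : Nm (RO (S3 Ω P μ)) (Finset ℕ),
      (∀ n T q k, q ∈ S.v n T → q ∈ (G.im S3.emb : Mk (S3 Ω P μ)).nv true n k → T.card ≤ k) ∧
      ∀ x : Nm (RO P) ℕ, (∀ n q a k, q ∈ x.v n a → q ∈ G.nv false n k → a ≤ cb k) →
        Nm.capt (x.cm h) S = ⊤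

/-- DMN (from EXD): the generic dominating functions -/
def T_DMN : Prop := ∀ (Ω P : Type) [Preorder P] (μ : Set (Mk P))
  (h : EP (S3.emb : P → S3 Ω P μ) (fun c => c.p)) (F : Ω → Nm (RO P) ℕ),
  ∃ E : Nm (RO (S3 Ω P μ)) ℕ, ∀ ξ, Nm.leS ((F ξ).cm h) E = ⊤

open Classical in
/-- restriction to sets of indices -/
noncomputable def S3.res {Ω P : Type} [Preorder P] {μ : Set (Mk P)}
    (J : Set (Ω → Nm (RO P) ℕ)) (J' : Set (Mk P)) (c : S3 Ω P μ) : S3 Ω P μ where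
  p := c.p
  cs F := if F ∈ J then c.cs F else []
  ds F := if F ∈ J then c.ds F else []
  dp F := if F ∈ J then c.dp F else []
  st G := if G ∈ J' then c.st G else []
  pr G := if G ∈ J' then c.pr G else []
  finF := c.finF.subset fun F hF => by
    by_cases h : F ∈ J
    · simpa [h] using hF
    · simp [h] at hF
  finG := c.finG.subset fun G hG => by
    by_cases h : G ∈ J'
    · simpa [h] using hG
    · simp [h] at hG
  sup G hG := by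
    have h1 := c.sup G hG
    by_cases h : G ∈ J'
    · simpa [h] using h1
    · simp [h]
  hgt G n h := by
    by_cases hJ : G ∈ J'
    · simp only [hJ, if_true] at h ⊢
      exact c.hgt G n h
    · simp [hJ] at h
  wid G n h := by
    by_cases hJ : G ∈ J'
    · simp only [hJ, if_true] at h ⊢
      exact c.wid G n h
    · simp [hJ] at h
  len G := by
    by_cases hJ : G ∈ J'
    · simp only [hJ, if_true]
      exact c.len G
    · simp [hJ]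
  bd G x hx := by
    by_cases hJ : G ∈ J'
    · simp only [hJ, if_true] at hx
      exact c.bd G x hx
    · simp [hJ] at hx

/-- ANT: countable supports -/
def T_ANT : Prop := ∀ (Ω P : Type) [Preorder P] (μ : Set (Mk P)), CCC (S3 Ω P μ) →
  ∀ (m : ℕ) (ψ : ℕ → Finset (List Bool) → Set (S3 Ω P μ)), DC ψ →
  ∃ (J : Set (Ω → Nm (RO P) ℕ)) (J' : Set (Mk P))
    (ψ' : ℕ → Finset (List Bool) → Set (S3 Ω P μ)), J.Countable ∧ J'.Countable ∧ DC ψ' ∧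
    (∀ j S c, c ∈ ψ' j S → c ∈ ψ j S) ∧
    (∀ j c, (∃ d ≤ c, ∃ S, VS m j S ∧ d ∈ ψ j S) → ∃ d ≤ c, ∃ S, VS m j S ∧ d ∈ ψ' j S) ∧
    ∀ I I', J ⊆ I → J' ⊆ I' → ∀ j S c, c ∈ ψ' j S → S3.res I I' c ∈ ψ' j S

/-- RES: conditions below a restriction are compatible with the condition -/
def T_RES : Prop := ∀ (Ω P : Type) [Preorder P] (μ : Set (Mk P))
  (J : Set (Ω → Nm (RO P) ℕ)) (J' : Set (Mk P)) (c q : S3 Ω P μ), q ≤ S3.res J J' c →
  ∃ d : S3 Ω P μ, d ≤ c ∧ S3.res J J' d = S3.res J J' q ∧ d.p = q.p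

/-- GTR: gaps of the new marks depend only on the Cohen function -/
def T_GTR : Prop := ∀ (Ω P : Type) [Preorder P] (μ : Set (Mk P)) (F : Ω → Nm (RO P) ℕ) (ξ : Ω)
  (c d : S3 Ω P μ) (j : ℕ), c.p = d.p → c.cs F = d.cs F →
  Gap (newG F ξ : Mk (S3 Ω P μ)) j c → Gap (newG F ξ : Mk (S3 Ω P μ)) j d

/-- the marks of a finite set of marks after the step -/
def mix {Ω P : Type} [Preorder P] {μ : Set (Mk P)} (W : Set (Mk P))
    (V : Set ((Ω → Nm (RO P) ℕ) × Ω)) : Set (Mk (S3 Ω P μ)) :=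
  {G' | (∃ G ∈ W, G' = G.im S3.emb) ∨ ∃ x ∈ V, G' = newG x.1 x.2}

/-- CNT: the number of possible longer slaloms -/
def T_CNT : Prop := ∀ (α : Type) (A : Set α) (s0 : α → List (Finset ℕ)) (k : α → ℕ)
  (b : α → ℕ → ℕ) (N : ℕ), A.Finite →
  (∀ g ∈ A, (∏ i ∈ Finset.range (k g), 2 ^ (b g i + 1)) ≤ N) →
  {s : α → List (Finset ℕ) | (∀ g, g ∉ A → s g = s0 g) ∧ ∀ g ∈ A, s0 g <+: s g ∧
    (s g).length = max (s0 g).length (k g) ∧ ∀ i (h : i < (s g).length),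
      (s0 g).length ≤ i → ∀ a ∈ (s g)[i], a ≤ b g i}.Finite ∧
  {s : α → List (Finset ℕ) | (∀ g, g ∉ A → s g = s0 g) ∧ ∀ g ∈ A, s0 g <+: s g ∧
    (s g).length = max (s0 g).length (k g) ∧ ∀ i (h : i < (s g).length),
      (s0 g).length ≤ i → ∀ a ∈ (s g)[i], a ≤ b g i}.ncard ≤ N ^ A.ncard

/-- GNW: gaps of the new marks -/
def T_GNW : Prop := ∀ (Ω P : Type) [Preorder P] (μ : Set (Mk P)) (F : Ω → Nm (RO P) ℕ) (ξ : Ω)
  (c : S3 Ω P μ) (s0 : List ℕ) (j : ℕ) (a : ℕ → ℕ), (s0 ++ [H j]) <+: c.cs F →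
  (∀ i < s0.length, ∀ l < sm (om s0) i, c.p ∈ (F ξ).v l (a l)) →
  (∏ i ∈ Finset.range s0.length,
    2 ^ (cb ((Finset.range (sm (om s0) i)).sup a) + 1)) ≤ j + 1 →
  Gap (newG F ξ : Mk (S3 Ω P μ)) j c

section typ

variable {Ω P : Type} [Preorder P] {μ : Set (Mk P)}

/-- the heights of the new marks below the known part of the Cohen functions are decided
and small compared with `j` -/
def okj (V : Set ((Ω → Nm (RO P) ℕ) × Ω)) (t : Typ Ω P) (j : ℕ) (p : P) : Prop :=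
  ∀ x ∈ V, ∃ a : ℕ → ℕ,
    (∀ i < (t.cs x.1).length, ∀ l < sm (om (t.cs x.1)) i, p ∈ (x.1 x.2).v l (a l)) ∧
    (∏ i ∈ Finset.range (t.cs x.1).length,
      2 ^ (cb ((Finset.range (sm (om (t.cs x.1)) i)).sup a) + 1)) ≤ j + 1

open Classical in
/-- the stems `t`, with the slaloms replaced by `s` and with one large new value of the Cohen
functions with an index in `V` -/
noncomputable def tpl (V : Set ((Ω → Nm (RO P) ℕ) × Ω)) (t : Typ Ω P) (j : ℕ)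
    (s : Mk P → List (Finset ℕ)) : Typ Ω P :=
  ⟨fun F => if ∃ ξ, (F, ξ) ∈ V then t.cs F ++ [H j] else t.cs F, t.ds, s⟩

/-- the possible longer slaloms -/
def Ext (A : Set (Mk P)) (s0 : Mk P → List (Finset ℕ)) (k : Mk P → ℕ) (b : Mk P → ℕ → ℕ) :
    Set (Mk P → List (Finset ℕ)) :=
  {s | (∀ g, g ∉ A → s g = s0 g) ∧ ∀ g ∈ A, s0 g <+: s g ∧
    (s g).length = max (s0 g).length (k g) ∧ ∀ i (h : i < (s g).length),
      (s0 g).length ≤ i → ∀ a ∈ (s g)[i], a ≤ cb (b g i)}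

/-- no condition with stems `t` over an extension of `p` excludes the value `v` -/
def NA (ψ : ℕ → Finset (List Bool) → Set (S3 Ω P μ)) (A : Set (Mk P)) (r : ℕ) (t : Typ Ω P)
    (v : Finset (List Bool)) (j : ℕ) (p : P) : Prop :=
  ∀ q ≤ p, ¬ ∃ c : S3 Ω P μ, c.p = q ∧ c.typ = t ∧ (∀ G, (c.pr G).length ≤ r) ∧
    (∀ G, G ∉ A → c.pr G = []) ∧ ∀ d ≤ c, d ∉ ψ j v

/-- the union of the possible values of `ψ(j)` for the conditions with stems `t` -/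
def psit (ψ : ℕ → Finset (List Bool) → Set (S3 Ω P μ)) (V : Set ((Ω → Nm (RO P) ℕ) × Ω))
    (A : Set (Mk P)) (r m : ℕ) (t : Typ Ω P) : ℕ → Finset (List Bool) → Set P := fun j S =>
  {p | (okj V t j p ∧ ∃ (k : Mk P → ℕ) (b : Mk P → ℕ → ℕ)
      (v : (Mk P → List (Finset ℕ)) → Finset (List Bool)),
      (∀ G ∈ A, (∀ i < k G, p ∈ G.nv false i (b G i)) ∧
        (∏ i ∈ Finset.range (k G), 2 ^ (cb (b G i) + 1)) ≤ j + 1 ∧
        ∃ w, H j ≤ w ∧ p ∈ G.nv true (k G) w) ∧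
      (∀ s ∈ Ext A t.st k b, VS m j (v s) ∧ NA ψ A r (tpl V t j s) (v s) j p) ∧
      ∀ u, u ∈ S ↔ ∃ s ∈ Ext A t.st k b, u ∈ v s) ∨
    (S = ∅ ∧ ∀ q ≤ p, ¬ okj V t j q)}

end typ

/-- TYA (from EPS, IMN, LNK, GNW, CNT): the family `psit` is small and total -/
def T_TYA : Prop := ∀ (Ω P : Type) [Preorder P] (μ : Set (Mk P)), (∀ G ∈ μ, GM G) →
  ∀ (W : Set (Mk P)) (V : Set ((Ω → Nm (RO P) ℕ) × Ω)) (m m1 : ℕ)
    (ψ : ℕ → Finset (List Bool) → Set (S3 Ω P μ)), W.Finite → W ⊆ μ → V.Finite → DC ψ →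
    TT (mix W V) m m1 ψ → ∀ (t : Typ Ω P) (A : Set (Mk P)) (r : ℕ), A.Finite → A ⊆ μ →
    DC (psit ψ V A r m t) ∧
    TT (W ∪ A) (m + A.ncard) (max m1 r) (psit ψ V A r m t)

/-- TYB (from EPS, IMN, EXL, GNW): bad indices stay bad for `psit` -/
def T_TYB : Prop := ∀ (Θ P0 Ω P : Type) [Preorder P] (μ : Set (Mk P))
  (D : Θ → ℕ → ℕ → P0 → Prop) (e0 : P0 → P), (∀ G ∈ μ, GM G) →
  ∀ (W : Set (Mk P)) (V : Set ((Ω → Nm (RO P) ℕ) × Ω)) (m : ℕ)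
    (ψ : ℕ → Finset (List Bool) → Set (S3 Ω P μ)), W ⊆ μ → V.Finite → DC ψ →
    ∀ (t : Typ Ω P) (A : Set (Mk P)) (r : ℕ), A.Finite → A ⊆ μ →
    ∀ (η : Θ) (c : S3 Ω P μ) (m0 : ℕ), c.typ = t → (∀ G, (c.pr G).length ≤ r) →
      (∀ G, G ∉ A → c.pr G = []) →
      (∀ x ∈ V, ∃ a : ℕ → ℕ, ∀ i < (c.cs x.1).length, ∀ l < sm (om (c.cs x.1)) i,
        c.p ∈ (x.1 x.2).v l (a l)) →
      Bad D (fun p => (S3.emb (e0 p) : S3 Ω P μ)) (mix W V) m ψ η c m0 →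
      ∃ m0', Bad D e0 (W ∪ A) (m + A.ncard) (psit ψ V A r m t) η c.p m0'

/-- TYP (from TYA, TYB): few bad indices for every type -/
def T_TYP : Prop := ∀ (K Θ P0 Ω P : Type) [Infinite K] [Preorder P] (μ : Set (Mk P))
  (D : Θ → ℕ → ℕ → P0 → Prop) (e0 : P0 → P), (∀ G ∈ μ, GM G) → INV K D e0 μ →
  ∀ (W : Set (Mk P)) (V : Set ((Ω → Nm (RO P) ℕ) × Ω)) (m m1 : ℕ)
    (ψ : ℕ → Finset (List Bool) → Set (S3 Ω P μ)), W.Finite → W ⊆ μ → V.Finite → DC ψ →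
    TT (mix W V) m m1 ψ → ∀ (t : Typ Ω P) (A : Set (Mk P)) (r : ℕ), A.Finite → A ⊆ μ →
    Few K {η : Θ | ∃ (c : S3 Ω P μ) (m0 : ℕ), c.typ = t ∧ (∀ G, (c.pr G).length ≤ r) ∧
      (∀ G, G ∉ A → c.pr G = []) ∧
      (∀ x ∈ V, ∃ a : ℕ → ℕ, ∀ i < (c.cs x.1).length, ∀ l < sm (om (c.cs x.1)) i,
        c.p ∈ (x.1 x.2).v l (a l)) ∧
      Bad D (fun p => (S3.emb (e0 p) : S3 Ω P μ)) (mix W V) m ψ η c m0}

/-- IST (from ANT, RES, GTR, TYP, EPS, IMN): the successor step for the invariant -/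
def T_IST : Prop := ∀ (K Θ P0 Ω P : Type) [Infinite K] [Preorder P] (μ : Set (Mk P))
  (D : Θ → ℕ → ℕ → P0 → Prop) (e0 : P0 → P), (∀ G ∈ μ, GM G) → CCC (S3 Ω P μ) →
  INV K D e0 μ → INV K D (fun p => (S3.emb (e0 p) : S3 Ω P μ)) (muS Ω μ)

/-! ## Towers of preorders -/

section tower

/-- PTE: projections -/
def T_PTE : Prop := ∀ (J : Type) [LinearOrder J] [OrderBot J] [SuccOrder J]
  [WellFoundedLT J] (T : PT J),
  (∀ j, ¬ IsMax j → ∃ π, EP (T.e j (Order.succ j) (Order.le_succ j)) π) →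
  ∀ (i j : J) (h : i ≤ j), ∃ π, EP (T.e i j h) π

/-- PTC: chain condition at countable stages -/
def T_PTC : Prop := ∀ (J : Type) [LinearOrder J] [OrderBot J] [SuccOrder J]
  [WellFoundedLT J] (T : PT J), CCC (T.A ⊥) →
  (∀ j, ¬ IsMax j → CCC (T.A j) → CCC (T.A (Order.succ j))) →
  (∀ (i j : J) (h : i ≤ j), ∃ π, EP (T.e i j h) π) →
  ∀ j, (Set.Iio j).Countable → CCC (T.A j)

/-- PTT: chain condition at stage `ω₁` -/
def T_PTT : Prop := ∀ (L : Type) [LinearOrder L] [OrderBot L] [SuccOrder L]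
  [NoMaxOrder L] [WellFoundedLT L] (T : PT (WithTop L)),
  (∀ (i j : WithTop L) (h : i ≤ j), ∃ π, EP (T.e i j h) π) → (∀ i : L, CCC (T.A i)) →
  (∀ i : L, (Set.Iio i).Countable) → (∀ s : ℕ → L, ∃ b, ∀ n, s n ≤ b) → CCC (T.A ⊤)

/-- PTR: every regular set has a level -/
def T_PTR : Prop := ∀ (L : Type) [LinearOrder L] [OrderBot L] [SuccOrder L]
  [NoMaxOrder L] [WellFoundedLT L] (T : PT (WithTop L))
  (π : ∀ i : L, T.A ⊤ → T.A i) (hE : ∀ i : L, EP (T.e i ⊤ le_top) (π i)),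
  (∀ s : ℕ → L, ∃ b, ∀ n, s n ≤ b) → CCC (T.A ⊤) →
  ∀ U : RO (T.A ⊤), ∃ (i : L) (U' : RO (T.A i)), U = RO.cm (hE i) U'

/-! ## The tower -/

/-- TWE (from EPS): projections from successors -/
def T_TWE : Prop := ∀ (J Ω P0 : Type) [LinearOrder J] [OrderBot J] [SuccOrder J]
  [WellFoundedLT J] [Preorder P0] (T : Tw J Ω P0),
  ∀ j, ¬ IsMax j → ∃ π, EP (T.e j (Order.succ j) (Order.le_succ j)) π

/-- TGM (from PTE, TWE, IMN, GMN): all marks are good -/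
def T_TGM : Prop := ∀ (J Ω P0 : Type) [LinearOrder J] [OrderBot J] [SuccOrder J]
  [WellFoundedLT J] [Preorder P0] (T : Tw J Ω P0), ∀ j, ∀ G ∈ T.mu j, GM G

/-- TWC (from PTE, PTC, PTT, TWE, TGM, CCS): chain conditions -/
def T_TWC : Prop := ∀ (L Ω P0 : Type) [LinearOrder L] [OrderBot L] [SuccOrder L]
  [NoMaxOrder L] [WellFoundedLT L] [Preorder P0] (T : Tw (WithTop L) Ω P0),
  (∀ i : L, (Set.Iio i).Countable) → (∀ s : ℕ → L, ∃ b, ∀ n, s n ≤ b) → CCC P0 →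
  ∀ j, CCC (T.A j)

/-- TIN (from PTE, TWE, TGM, LIN, IST): the invariant at all stages -/
def T_TIN : Prop := ∀ (K J Ω Θ P0 : Type) [Infinite K] [LinearOrder J] [OrderBot J]
  [SuccOrder J] [WellFoundedLT J] [Preorder P0] (T : Tw J Ω P0)
  (D : Θ → ℕ → ℕ → P0 → Prop), Cardinal.mk J ≤ Cardinal.mk K →
  (∀ j, CCC (T.A j)) → INV K D (id : P0 → P0) ∅ →
  ∀ j, INV K D (fun p => T.e ⊥ j bot_le (T.z.symm p)) (T.mu j)

/-- TSA (from PTE, TWE, TGM, IMN, EPS, SLA): slaloms for the marks -/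
def T_TSA : Prop := ∀ (L Ω P0 : Type) [LinearOrder L] [OrderBot L] [SuccOrder L]
  [NoMaxOrder L] [WellFoundedLT L] [Preorder P0] (T : Tw (WithTop L) Ω P0)
  (π : ∀ i : L, T.A ⊤ → T.A i) (hE : ∀ i : L, EP (T.e i ⊤ le_top) (π i)) (i : L),
  ∀ G ∈ T.mu i, ∃ S : Nm (RO (T.A ⊤)) (Finset ℕ),
    (∀ n T' q k, q ∈ S.v n T' → q ∈ (G.im (T.e i ⊤ le_top)).nv true n k → T'.card ≤ k) ∧
    ∀ x : Nm (RO (T.A i)) ℕ, (∀ n q a k, q ∈ x.v n a → q ∈ G.nv false n k → a ≤ cb k) →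
      Nm.capt (x.cm (hE i)) S = ⊤

/-- TDM (from PTE, TWE, EPS, DMN): dominating functions -/
def T_TDM : Prop := ∀ (L Ω P0 : Type) [LinearOrder L] [OrderBot L] [SuccOrder L]
  [NoMaxOrder L] [WellFoundedLT L] [Preorder P0] (T : Tw (WithTop L) Ω P0)
  (π : ∀ i : L, T.A ⊤ → T.A i) (hE : ∀ i : L, EP (T.e i ⊤ le_top) (π i)) (i : L)
  (F : Ω → Nm (RO (T.A i)) ℕ), ∃ E : Nm (RO (T.A ⊤)) ℕ, ∀ ξ, Nm.leS ((F ξ).cm (hE i)) E = ⊤

/-- TNM (from PTE, TWE, IMN, GMN): the marks of the functions of level `i` -/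
def T_TNM : Prop := ∀ (L Ω P0 : Type) [LinearOrder L] [OrderBot L] [SuccOrder L]
  [NoMaxOrder L] [WellFoundedLT L] [Preorder P0] [Nonempty Ω] (T : Tw (WithTop L) Ω P0)
  (π : ∀ i : L, T.A ⊤ → T.A i) (hE : ∀ i : L, EP (T.e i ⊤ le_top) (π i)) (i : L)
  (f : Nm (RO (T.A i)) ℕ), ∃ G ∈ T.mu ((Order.succ i : L) : WithTop L),
    ∀ (q : T.A ⊤) (n : ℕ) (s a : ℕ → ℕ) (k : ℕ),
      (∀ l ≤ n, q ∈ (G.im (T.e _ ⊤ le_top)).nv true l (s l)) →
      (∀ l < sm s n, q ∈ (f.cm (hE i)).v l (a l)) →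
      q ∈ (G.im (T.e _ ⊤ le_top)).nv false n k → k = (Finset.range (sm s n)).sup a

end tower

/-! ## Levels -/

/-- the levels capture: families of functions of a level indexed by `L` are dominated, and for
every function `f` of level `i` there are heights `fp` (of level `i'`) and widths `w` such that
slaloms of these widths capture all functions bounded by the heights -/
structure Cap {L P : Type} [LinearOrder L] [Preorder P] (Λ : Lev L P) : Prop where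
  dom : ∀ (i : L) (F : L → Nm (RO P) ℕ), (∀ ξ, Λ.In i (F ξ)) →
    ∃ E : Nm (RO P) ℕ, ∀ ξ, Nm.leS (F ξ) E = ⊤
  mark : ∀ i : L, ∃ i' : L, i ≤ i' ∧ ∀ f : Nm (RO P) ℕ, Λ.In i f → ∃ fp w : Nm (RO P) ℕ,
    Λ.In i' fp ∧ (∀ n p k, p ∈ w.v n k → 1 ≤ k) ∧
    (∀ (p : P) (n : ℕ) (s a : ℕ → ℕ) (k : ℕ), (∀ l ≤ n, p ∈ w.v l (s l)) →
      (∀ l < sm s n, p ∈ f.v l (a l)) → p ∈ fp.v n k → k = (Finset.range (sm s n)).sup a) ∧
    ∀ k : L, i' ≤ k → ∃ S : Nm (RO P) (Finset ℕ),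
      (∀ n T p l, p ∈ S.v n T → p ∈ w.v n l → T.card ≤ l) ∧
      ∀ x : Nm (RO P) ℕ, Λ.In k x → (∀ n p a b, p ∈ x.v n a → p ∈ fp.v n b → a ≤ cb b) →
        Nm.capt x S = ⊤

/-- TAW: small covers which swallow all finer covers of the level -/
def T_TAW : Prop := ∀ (L P : Type) [LinearOrder L] [Preorder P] (Λ : Lev L P) (k : L)
  (f fp w : Nm (RO P) ℕ) (S : Nm (RO P) (Finset ℕ)), Λ.In k fp →
  (∀ n p l, p ∈ w.v n l → 1 ≤ l) →
  (∀ (p : P) (n : ℕ) (s a : ℕ → ℕ) (l : ℕ), (∀ i ≤ n, p ∈ w.v i (s i)) →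
    (∀ i < sm s n, p ∈ f.v i (a i)) → p ∈ fp.v n l → l = (Finset.range (sm s n)).sup a) →
  (∀ n T p l, p ∈ S.v n T → p ∈ w.v n l → T.card ≤ l) →
  (∀ x : Nm (RO P) ℕ, Λ.In k x → (∀ n p a b, p ∈ x.v n a → p ∈ fp.v n b → a ≤ cb b) →
    Nm.capt x S = ⊤) →
  ∃ τ : Nm (RO P) (List Bool), ht f τ = ⊤ ∧
    ∀ σ : Nm (RO P) (List Bool), Λ.In k σ → ∀ x, htS fp σ ⊓ infv σ x ≤ infv τ x

/-- COW (from TAW): the strong measure zero sets have a small cofinal family -/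
def T_COW : Prop := ∀ (L P : Type) [LinearOrder L] [WellFoundedLT L] [Preorder P]
  (Λ : Lev L P), Cap Λ → ∃ Y : (L → L) → BSet (RO P), (∀ h, SN (Y h) = ⊤) ∧
    ∀ X : BSet (RO P), SN X ≤ ⨆ h, Sub X (Y h)

/-- FIW (from everything): the theorem -/
def T_FIW : Prop := ∃ (B : Type) (_ : CompleteBooleanAlgebra B) (I : Type), (⊥ : B) ≠ ⊤ ∧
  (∃ Y : I → BSet B, (∀ i, SN (Y i) = ⊤) ∧ ∀ X : BSet B, SN X ≤ ⨆ i, Sub X (Y i)) ∧
  ∀ x : I → Nm B Bool, ⨆ φ : Nm B (Finset (List Bool)), small φ ⊓ ⨅ i, infm φ (x i) = ⊤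

end CofSN2
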