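import Pool.Agent.CofSN2.Targets

/-!
# MP_3e8648_lc, second model: the dominating number is large too (helper90)
-/

set_option autoImplicit false

namespace CofSN2

open CofSN

/-- stems, indices of the dominating promises, numbers of the capturing promises -/
structure Ty (Ω P : Type) [Preorder P] where
  cs : (Ω → Nm (RO P) ℕ) → List ℕ
  ds : (Ω → Nm (RO P) ℕ) → List ℕ
  dp : (Ω → Nm (RO P) ℕ) → List Ω
  st : Mk P → List (Finset ℕ)
  nl : Mk P → ℕ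

/-- the full type of a condition -/
def S3.ty {Ω P : Type} [Preorder P] {μ : Set (Mk P)} (c : S3 Ω P μ) : Ty Ω P :=
  ⟨c.cs, c.ds, c.dp, c.st, fun G => (c.pr G).length⟩

/-- Boolean value (in `P`) of: some condition of type `t` forces `g(n) > j` -/
def Etw {Ω P : Type} [Preorder P] {μ : Set (Mk P)} (g : Nm (RO (S3 Ω P μ)) ℕ) (t : Ty Ω P)
    (n j : ℕ) : RO P := RO.gen {p | ∃ c : S3 Ω P μ, c.p = p ∧ c.ty = t ∧ c ∈ gtv g n j}

/-- SPW (from RES): regular sets have countable support -/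
def T_SPW : Prop := ∀ (Ω P : Type) [Preorder P] (μ : Set (Mk P)), CCC (S3 Ω P μ) →
  ∀ U : RO (S3 Ω P μ), ∃ (J : Set (Ω → Nm (RO P) ℕ)) (J' : Set (Mk P)), J.Countable ∧
    J'.Countable ∧ ∀ I I', J ⊆ I → J' ⊆ I' → ∀ c, (c ∈ U ↔ S3.res I I' c ∈ U)

/-- CPW (from BRA, EXL): compactness of the promises -/
def T_CPW : Prop := ∀ (Ω P : Type) [Preorder P] (μ : Set (Mk P)), (∀ G ∈ μ, GM G) →
  ∀ (g : Nm (RO (S3 Ω P μ)) ℕ) (t : Ty Ω P) (n : ℕ) (p : P), ¬ ∀ j, p ∈ Etw g t n j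

/-- STW (from CPW, SPW, RES): the successor step adds no real dominating many basic reals -/
def T_STW : Prop := ∀ (K Θ P0 Ω P : Type) [Infinite K] [Preorder P] (μ : Set (Mk P))
  (D : Θ → ℕ → ℕ → P0 → Prop) (e0 : P0 → P), Cardinal.mk Ω ≤ Cardinal.mk K →
  (∀ G ∈ μ, GM G) → CCC (S3 Ω P μ) → R3 K D e0 →
  R3 K D (fun p => (S3.emb (e0 p) : S3 Ω P μ))

/-- TRW (from PTE, TWE, TGM, LIM, STW): few dominated basic reals at all stages -/
def T_TRW : Prop := ∀ (K J Ω Θ P0 : Type) [Infinite K] [LinearOrder J] [OrderBot J]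
  [SuccOrder J] [WellFoundedLT J] [Preorder P0] (T : Tw J Ω P0)
  (D : Θ → ℕ → ℕ → P0 → Prop), Cardinal.mk Ω ≤ Cardinal.mk K → Cardinal.mk J ≤ Cardinal.mk K →
  (∀ j, CCC (T.A j)) → R3 K D (id : P0 → P0) →
  ∀ j, R3 K D (fun p => T.e ⊥ j bot_le (T.z.symm p))

/-- FIX (from everything): the theorem -/
def T_FIX : Prop := ∃ (B : Type) (_ : CompleteBooleanAlgebra B) (I : Type), (⊥ : B) ≠ ⊤ ∧
  (∃ Y : I → BSet B, (∀ i, SN (Y i) = ⊤) ∧ ∀ X : BSet B, SN X ≤ ⨆ i, Sub X (Y i)) ∧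
  (∀ g : I → Nm B ℕ, ⨆ f : Nm B ℕ, ⨅ i, (Nm.leS f (g i))ᶜ = ⊤) ∧
  ∀ x : I → Nm B Bool, ⨆ φ : Nm B (Finset (List Bool)), small φ ⊓ ⨅ i, infm φ (x i) = ⊤

end CofSN2
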