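import Pool.Agent.CofSN2.Targets2

/-!
# MP_3e8648_lc, case b: targets for the algebra `B_0` (helper90)
-/

set_option autoImplicit false

namespace CofSN2

open CofSN

/-- PTG: finite support iterations: chain condition at all stages.
PROOF. Well-founded induction on `j`. `j = ⊥` and successors: hypotheses. Let `j` be a limit and
`f : ι → T.A j` an antichain, `ι` uncountable. Let `W` be a well-order with countable initial
segments in which countable sets are bounded (`T_WOR`, as in `p_PTT`) and `g : W → ι` injective
(`TCT_.inj`); let `lev α < j` be a level of `f (g α)` (`T.lim`) for `α : W`.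
Case 1: for some `γ : W` the set of all `lev α`, `α < γ`, is cofinal in `j`. Then `W` is the union of
the countably many sets `{ξ | lev ξ ≤ lev α}`, `α < γ`; by the induction hypothesis for `T.A (lev α)`
each of them is countable. Contradiction.
Case 2: for all `γ` let `s γ < j` be the least `x` with `lev α < x` for all `α < γ`. For `β : W` let
`F β` be the set of all `γ > β` such that `π (f (g γ))`, `π : T.A j → T.A (s γ)` the projection, is
in the range of `T.e (s β) (s γ)` (`s` is monotone). `F β` is countable by the induction hypothesis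
for `T.A (s β)`: if `γ < γ'` in `F β` have compatible preimages, then `f (g γ)`, `f (g γ')` are
compatible, as in `p_PTT` (`lev γ < s γ'`). Let `h β` be a bound of `F β`. By `TCT_.closed` there is a
limit `γ` closed under `h` and successor. Then `γ ∈ F β` for some `β < γ`, a contradiction: if `s γ`
is a limit, `π (f (g γ))` comes from some level `x < s γ`, so `x ≤ lev α < s (succ α)` for some
`α < γ`, `β = succ α`; if `s γ` is not a limit (nor `⊥`), `s γ = succ x`, `x ≤ lev α`, so
`s γ ≤ succ (lev α) ≤ s (succ α)`, `β = succ α`. -/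
def T_PTG : Prop := ∀ (J : Type) [LinearOrder J] [OrderBot J] [SuccOrder J]
  [WellFoundedLT J] (T : PT J), CCC (T.A ⊥) →
  (∀ j, ¬ IsMax j → CCC (T.A j) → CCC (T.A (Order.succ j))) →
  (∀ (i j : J) (h : i ≤ j), ∃ π, EP (T.e i j h) π) → ∀ j, CCC (T.A j)

/-- WOG: long well-orders (the order type of a regular cardinal above `Ω`, `ℕ`). -/
def T_WOG : Prop := ∀ Ω : Type, ∃ (L : Type) (_ : LinearOrder L) (_ : OrderBot L)
  (_ : SuccOrder L) (_ : NoMaxOrder L) (_ : WellFoundedLT L),
  (∀ s : Ω → L, ∃ b, ∀ i, s i ≤ b) ∧ ∀ s : ℕ → L, ∃ b, ∀ n, s n ≤ b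

/-- BZ (from WOG, PTG, PTE, TWE, TGM, CCS, PTR, TDM, CMH): a ccc preorder forcing that families of
functions indexed by `Ω` are dominated. PROOF. `T` from `tw_exists (WithTop L) Ω PUnit`. All stages
are ccc by PTG, CCS, TGM. Every `g i` has its countably many values in one level (PTR, as in the
proof of `p_FIX`: `Λ`, `h_CMH`), a common level `l` for all `i`; TDM. -/
def T_BZ : Prop := ∀ Ω : Type, ∃ (P : Type) (_ : Preorder P), Nonempty P ∧ CCC P ∧
  ∀ g : Ω → Nm (RO P) ℕ, ∃ f : Nm (RO P) ℕ, ∀ i, Nm.leS (g i) f = ⊤

end CofSN2
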