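import Pool.Agent.CofSN2.Cat

/-!
# MP_3e8648_lc, second model: the iteration (helper90)
-/

set_option autoImplicit false

namespace CofSN2

open CategoryTheory CategoryTheory.Limits CofSN

/-- A continuous tower of preorders. -/
structure PT (J : Type) [LinearOrder J] where
  A : J → Type
  I : ∀ j, Preorder (A j)
  e : ∀ i j, i ≤ j → A i → A j
  e_mono : ∀ i j (h : i ≤ j) (p q : A i), p ≤ q → e i j h p ≤ e i j h q
  e_refl : ∀ i (h : i ≤ i) (p : A i), e i i h p = p
  e_trans : ∀ i j k (h : i ≤ j) (h' : j ≤ k) (p : A i), e j k h' (e i j h p) = e i k (h.trans h') p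
  lim : ∀ j, Order.IsSuccLimit j → ∀ q : A j, ∃ (i : J) (h : i < j) (p : A i), e i j h.le p = q
  lim_le : ∀ j, Order.IsSuccLimit j → ∀ (i : J) (h : i < j) (p q : A i),
    e i j h.le p ≤ e i j h.le q → ∃ (k : J) (h : i ≤ k), k < j ∧ e i k h p ≤ e i k h q

attribute [instance] PT.I

/-- A transfinite iteration of the successor step, starting from `P0` without marks. -/
structure Tw (J : Type) [LinearOrder J] [OrderBot J] [SuccOrder J] (Ω P0 : Type)
    [Preorder P0] extends PT J where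
  mu : ∀ j, Set (Mk (A j))
  z : A ⊥ ≃o P0
  mu_z : mu ⊥ = ∅
  s : ∀ j, ¬ IsMax j → (A (Order.succ j) ≃o S3 Ω (A j) (mu j))
  s_e : ∀ j (h : ¬ IsMax j) (p : A j), s j h (e j (Order.succ j) (Order.le_succ j) p) = S3.emb p
  mu_s : ∀ j (h : ¬ IsMax j) (G : Mk (A (Order.succ j))),
    G ∈ mu (Order.succ j) ↔ G.im (s j h) ∈ muS Ω (mu j)
  mu_e : ∀ i j (h : i ≤ j), ∀ G ∈ mu i, G.im (e i j h) ∈ mu j
  mu_l : ∀ j, Order.IsSuccLimit j → ∀ G ∈ mu j, ∃ (i : J) (h : i < j), ∃ G0 ∈ mu i,
    G = G0.im (e i j h.le)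

namespace MT

/-- the preorder generated by the relation -/
@[reducible] def gp (X : MT) : Preorder X.V where
  le := Relation.ReflTransGen X.r
  le_refl _ := Relation.ReflTransGen.refl
  le_trans _ _ _ h1 h2 := h1.trans h2

theorem gp_le {X : MT} (hr : ∀ a, X.r a a) (ht : ∀ a b c, X.r a b → X.r b c → X.r a c)
    (a b : X.V) : X.gp.le a b ↔ X.r a b := by
  constructor
  · intro h
    induction h with
    | refl => exact hr a
    | tail _ h ih => exact ht _ _ _ ih h
  · intro h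
    exact Relation.ReflTransGen.single h

/-- the successor structure -/
def ss (Ω P0 : Type) [Preorder P0] : SmallObject.SuccStruct MT where
  X₀ := ⟨P0, (· ≤ ·), ∅⟩
  succ X := letI := X.gp; ⟨S3 Ω X.V X.mu, (· ≤ ·), muS Ω X.mu⟩
  toSucc X := letI := X.gp; ⟨S3.emb, fun a b h => by
    have h' : a ≤ b := Relation.ReflTransGen.single h
    refine ⟨h', fun i => List.prefix_rfl, fun i => List.prefix_rfl,
      fun i => List.Subset.refl _, fun i n hn => ?_, fun i => List.prefix_rfl,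
      fun i => List.Subset.refl _, fun i n hn => ?_⟩
    · exact absurd hn (by simp [S3.emb])
    · exact absurd hn (by simp [S3.emb]), fun G h => Or.inl ⟨G, h, rfl⟩⟩

section directed

variable {K : Type} [LinearOrder K] (F : K ⥤ MT)

theorem ci_eq {k l : K} {a : (F.obj k).V} {b : (F.obj l).V} (h : ci F k a = ci F l b) :
    ∃ (m : K) (f : k ⟶ m) (g : l ⟶ m), mf (F.map f) a = mf (F.map g) b := by
  have key : ∀ x y : Σ k, (F.obj k).V, Relation.EqvGen (fun (x y : Σ k, (F.obj k).V) =>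
      ∃ f : x.1 ⟶ y.1, mf (F.map f) x.2 = y.2) x y →
      ∃ (m : K) (f : x.1 ⟶ m) (g : y.1 ⟶ m), mf (F.map f) x.2 = mf (F.map g) y.2 := by
    intro x y h
    induction h with
    | rel x y h =>
      obtain ⟨f, hf⟩ := h
      exact ⟨y.1, f, 𝟙 _, by rw [hf, F.map_id]; rfl⟩
    | refl x => exact ⟨x.1, 𝟙 _, 𝟙 _, rfl⟩
    | symm x y _ ih =>
      obtain ⟨m, f, g, h⟩ := ih
      exact ⟨m, g, f, h.symm⟩
    | trans x y z _ _ ih1 ih2 =>
      obtain ⟨m, f, g, h⟩ := ih1
      obtain ⟨m', f', g', h'⟩ := ih2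
      refine ⟨max m m', f ≫ homOfLE (le_max_left _ _), g' ≫ homOfLE (le_max_right _ _), ?_⟩
      rw [F.map_comp, F.map_comp, comp_f, comp_f, h, ← h', ← comp_f, ← comp_f, ← F.map_comp,
        ← F.map_comp]
      rfl
  exact key ⟨k, a⟩ ⟨l, b⟩ (Quot.eqvGen_exact h)

theorem cr_iff {k : K} {a b : (F.obj k).V} (h : cr F (ci F k a) (ci F k b)) :
    ∃ (m : K) (f : k ⟶ m), (F.obj m).r (mf (F.map f) a) (mf (F.map f) b) := by
  obtain ⟨l, c, d, hr, h1, h2⟩ := h
  obtain ⟨m1, f1, g1, h1⟩ := ci_eq F h1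
  obtain ⟨m2, f2, g2, h2⟩ := ci_eq F h2
  refine ⟨max m1 m2, g1 ≫ homOfLE (le_max_left _ _), ?_⟩
  have e1 : mf (F.map (g1 ≫ homOfLE (le_max_left m1 m2))) a =
      mf (F.map (f1 ≫ homOfLE (le_max_left m1 m2))) c := by
    rw [F.map_comp, F.map_comp, comp_f, comp_f, h1]
  have e2 : mf (F.map (g1 ≫ homOfLE (le_max_left m1 m2))) b =
      mf (F.map (f1 ≫ homOfLE (le_max_left m1 m2))) d := by
    have e3 : (g1 ≫ homOfLE (le_max_left m1 m2)) = (g2 ≫ homOfLE (le_max_right m1 m2)) := rfl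
    have e4 : (f1 ≫ homOfLE (le_max_left m1 m2)) = (f2 ≫ homOfLE (le_max_right m1 m2)) := rfl
    rw [e3, e4, F.map_comp, F.map_comp, comp_f, comp_f, h2]
  rw [e1, e2]
  exact mf_r _ hr

end directed

end MT


namespace MT

theorem iso_r {X Y : MT} (i : X ≅ Y) (a b : X.V) : X.r a b ↔ Y.r (mf i.hom a) (mf i.hom b) := by
  constructor
  · exact fun h => mf_r i.hom h
  · intro h
    have h1 := mf_r i.inv h
    rw [← comp_f, ← comp_f, i.hom_inv_id] at h1
    exact h1

theorem iso_inv {X Y : MT} (i : X ≅ Y) (a : X.V) : mf i.inv (mf i.hom a) = a := by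
  rw [← comp_f, i.hom_inv_id]; rfl

theorem iso_hom {X Y : MT} (i : X ≅ Y) (a : Y.V) : mf i.hom (mf i.inv a) = a := by
  rw [← comp_f, i.inv_hom_id]; rfl

section colim

variable {K : Type} [LinearOrder K] {F : K ⥤ MT} {c : Cocone F} (hc : IsColimit c)

include hc

theorem col_surj (x : c.pt.V) : ∃ (k : K) (a : (F.obj k).V), mf (c.ι.app k) a = x := by
  let i := (ccl F).coconePointUniqueUpToIso hc
  obtain ⟨⟨k, a⟩, hk⟩ := Quot.exists_rep (mf i.inv x)
  refine ⟨k, a, ?_⟩
  have h1 : (cc F).ι.app k ≫ i.hom = c.ι.app k :=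
    (ccl F).comp_coconePointUniqueUpToIso_hom hc k
  rw [← h1, comp_f]
  have h2 : mf ((cc F).ι.app k) a = mf i.inv x := hk
  rw [h2, iso_hom]

theorem col_m {G : Mk c.pt.V} (h : G ∈ c.pt.mu) : ∃ (k : K), ∃ G0 ∈ (F.obj k).mu,
    G = G0.im (mf (c.ι.app k)) := by
  let i := (ccl F).coconePointUniqueUpToIso hc
  obtain ⟨k, G0, h0, h1⟩ := (mf_m i.inv h : G.im (mf i.inv) ∈ (cc F).pt.mu)
  refine ⟨k, G0, h0, ?_⟩
  have h2 : (cc F).ι.app k ≫ i.hom = c.ι.app k :=
    (ccl F).comp_coconePointUniqueUpToIso_hom hc k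
  rw [← h2, comp_f', ← Mk.im_im]
  have h3 : G0.im (mf ((cc F).ι.app k)) = G.im (mf i.inv) := h1.symm
  rw [h3, Mk.im_im]
  have h4 : mf i.hom ∘ mf i.inv = fun x => x := by
    funext x
    exact iso_hom i x
  rw [h4, Mk.im_id]

theorem col_r {k : K} {a b : (F.obj k).V}
    (h : c.pt.r (mf (c.ι.app k) a) (mf (c.ι.app k) b)) :
    ∃ (m : K) (f : k ⟶ m), (F.obj m).r (mf (F.map f) a) (mf (F.map f) b) := by
  let i := (ccl F).coconePointUniqueUpToIso hc
  have h1 : (cc F).ι.app k ≫ i.hom = c.ι.app k :=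
    (ccl F).comp_coconePointUniqueUpToIso_hom hc k
  rw [← h1, comp_f, comp_f, ← iso_r i] at h
  exact cr_iff F h

end colim

instance : HasColimitsOfSize.{0, 0} MT := ⟨fun _ _ => inferInstance⟩

variable {J : Type} [LinearOrder J] [OrderBot J] [SuccOrder J] [WellFoundedLT J]
  (Ω P0 : Type) [Preorder P0]

/-- the iteration functor -/
noncomputable abbrev itf (J : Type) [LinearOrder J] [OrderBot J] [SuccOrder J] [WellFoundedLT J]
    (Ω P0 : Type) [Preorder P0] : J ⥤ MT :=
  (ss Ω P0).iterationFunctor J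

theorem itf_pre (j : J) : (∀ a, ((itf J Ω P0).obj j).r a a) ∧
    ∀ a b c, ((itf J Ω P0).obj j).r a b → ((itf J Ω P0).obj j).r b c →
      ((itf J Ω P0).obj j).r a c := by
  induction j using WellFoundedLT.induction with
  | ind j ih =>
  by_cases hj : Order.IsSuccPrelimit j
  · by_cases hm : IsMin j
    · have hj' : j = ⊥ := hm.eq_bot
      subst hj'
      have i : (itf J Ω P0).obj ⊥ ≅ (ss Ω P0).X₀ := (ss Ω P0).iterationFunctorObjBotIso J
      refine ⟨fun a => (iso_r i a a).2 (le_refl (α := P0) _), fun a b c h1 h2 => ?_⟩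
      exact (iso_r i a c).2 (le_trans (α := P0) ((iso_r i a b).1 h1) ((iso_r i b c).1 h2))
    · have hl : Order.IsSuccLimit j := ⟨hm, hj⟩
      let hc := (itf J Ω P0).isColimitOfIsWellOrderContinuous j hl
      refine ⟨fun x => ?_, fun x y z h1 h2 => ?_⟩
      · obtain ⟨k, a, ha⟩ := col_surj hc x
        have h := mf_r (((Set.principalSegIio j).cocone (itf J Ω P0)).ι.app k) ((ih k.1 k.2).1 a)
        rw [ha] at h
        exact h
      · obtain ⟨k1, a1, rfl⟩ := col_surj hc x
        obtain ⟨k2, a2, rfl⟩ := col_surj hc y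
        obtain ⟨k3, a3, rfl⟩ := col_surj hc z
        let m := max k1 (max k2 k3)
        have w : ∀ {k l : Set.Iio j} (f : k ⟶ l) (a : _),
            mf (((Set.principalSegIio j).cocone (itf J Ω P0)).ι.app l)
              (mf (((Set.principalSegIio j).monotone.functor ⋙ itf J Ω P0).map f) a) =
            mf (((Set.principalSegIio j).cocone (itf J Ω P0)).ι.app k) a := fun f a =>
          congrArg (fun g => mf g a) (((Set.principalSegIio j).cocone (itf J Ω P0)).w f)
        have f1 : k1 ⟶ m := homOfLE (le_max_left _ _)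
        have f2 : k2 ⟶ m := homOfLE ((le_max_left _ _).trans (le_max_right _ _))
        have f3 : k3 ⟶ m := homOfLE ((le_max_right _ _).trans (le_max_right _ _))
        rw [← w f1, ← w f2] at h1
        rw [← w f2, ← w f3] at h2
        rw [← w f1, ← w f3]
        obtain ⟨m1, g1, h1⟩ := col_r hc h1
        obtain ⟨m2, g2, h2⟩ := col_r hc h2
        let M := max m1 m2
        have l1 : m1 ⟶ M := homOfLE (le_max_left _ _)
        have l2 : m2 ⟶ M := homOfLE (le_max_right _ _)
        have h1' := mf_r (((Set.principalSegIio j).monotone.functor ⋙ itf J Ω P0).map l1) h1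
        have h2' := mf_r (((Set.principalSegIio j).monotone.functor ⋙ itf J Ω P0).map l2) h2
        have e4 : ∀ {k l : Set.Iio j} (g : k ⟶ l) (l' : l ⟶ M) (a : _),
            mf (((Set.principalSegIio j).monotone.functor ⋙ itf J Ω P0).map l')
              (mf (((Set.principalSegIio j).monotone.functor ⋙ itf J Ω P0).map g) a) =
            mf (((Set.principalSegIio j).monotone.functor ⋙ itf J Ω P0).map (g ≫ l')) a := by
          intro k l g l' a
          rw [Functor.map_comp, comp_f]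
        rw [e4 g1 l1, e4 g1 l1] at h1'
        rw [e4 g2 l2, e4 g2 l2] at h2'
        have e : g1 ≫ l1 = g2 ≫ l2 := rfl
        rw [e] at h1'
        have h3 := (ih M.1 M.2).2 _ _ _ h1' h2'
        rw [← w (g2 ≫ l2), ← w (g2 ≫ l2)]
        exact mf_r _ h3
  · rw [Order.not_isSuccPrelimit_iff] at hj
    obtain ⟨i, hij⟩ := hj
    have hi : ¬ IsMax i := hij.lt.not_isMax
    obtain rfl : Order.succ i = j := hij.succ_eq
    have is := (ss Ω P0).iterationFunctorObjSuccIso i hi
    let _ := ((itf J Ω P0).obj i).gp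
    refine ⟨fun a => (iso_r is a a).2 (le_refl (α := S3 Ω ((itf J Ω P0).obj i).V ((itf J Ω P0).obj i).mu) _),
      fun a b c h1 h2 => ?_⟩
    exact (iso_r is a c).2 (le_trans (α := S3 Ω ((itf J Ω P0).obj i).V ((itf J Ω P0).obj i).mu)
      ((iso_r is a b).1 h1) ((iso_r is b c).1 h2))

end MT

/-- The iteration exists. -/
theorem tw_exists (J : Type) [LinearOrder J] [OrderBot J] [SuccOrder J] [WellFoundedLT J]
    (Ω P0 : Type) [Preorder P0] : Nonempty (Tw J Ω P0) := by
  let F := MT.itf J Ω P0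
  have hpre := MT.itf_pre (J := J) Ω P0
  have hle : ∀ j (a b : (F.obj j).V), (F.obj j).gp.le a b ↔ (F.obj j).r a b := fun j a b =>
    MT.gp_le (hpre j).1 (hpre j).2 a b
  let z : (F.obj ⊥) ≅ (MT.ss Ω P0).X₀ := (MT.ss Ω P0).iterationFunctorObjBotIso J
  let s : ∀ j, ¬ IsMax j → (F.obj (Order.succ j) ≅ (MT.ss Ω P0).succ (F.obj j)) := fun j hj =>
    (MT.ss Ω P0).iterationFunctorObjSuccIso j hj
  have lim : ∀ j, Order.IsSuccLimit j → IsColimit ((Set.principalSegIio j).cocone F) :=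
    fun j hj => F.isColimitOfIsWellOrderContinuous j hj
  refine ⟨{
    A := fun j => (F.obj j).V
    I := fun j => (F.obj j).gp
    e := fun i j h => MT.mf (F.map (homOfLE h))
    e_mono := ?_
    e_refl := ?_
    e_trans := ?_
    lim := ?_
    lim_le := ?_
    mu := fun j => (F.obj j).mu
    z := ?_
    mu_z := ?_
    s := ?_
    s_e := ?_
    mu_s := ?_
    mu_e := ?_
    mu_l := ?_ }⟩
  · intro i j h p q hpq
    exact (hle j _ _).2 (MT.mf_r _ ((hle i _ _).1 hpq))
  · intro i h p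
    have : homOfLE h = 𝟙 i := rfl
    rw [this, F.map_id]
    rfl
  · intro i j k h h' p
    rw [← MT.comp_f, ← F.map_comp]
    rfl
  · intro j hj q
    obtain ⟨k, a, ha⟩ := MT.col_surj (lim j hj) q
    exact ⟨k.1, k.2, a, ha⟩
  · intro j hj i h p q hpq
    have h1 := (hle j _ _).1 hpq
    obtain ⟨m, f, hm⟩ := MT.col_r (lim j hj) (k := ⟨i, h⟩) (a := p) (b := q) h1
    exact ⟨m.1, leOfHom f, m.2, (hle _ _ _).2 hm⟩
  · exact {
      toFun := MT.mf z.hom
      invFun := MT.mf z.inv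
      left_inv := MT.iso_inv z
      right_inv := MT.iso_hom z
      map_rel_iff' := by
        intro a b
        exact ((hle ⊥ a b).trans (MT.iso_r z a b)).symm }
  · refine Set.eq_empty_of_forall_notMem fun G hG => ?_
    exact (MT.mf_m z.hom hG : G.im (MT.mf z.hom) ∈ (∅ : Set (Mk P0)))
  · intro j hj
    exact {
      toFun := MT.mf (s j hj).hom
      invFun := MT.mf (s j hj).inv
      left_inv := MT.iso_inv (s j hj)
      right_inv := MT.iso_hom (s j hj)
      map_rel_iff' := by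
        intro a b
        exact ((hle _ a b).trans (MT.iso_r (s j hj) a b)).symm }
  · intro j hj p
    have h := (MT.ss Ω P0).iterationFunctor_map_succ j hj
    change MT.mf (s j hj).hom (MT.mf (F.map (homOfLE (Order.le_succ j))) p) = _
    rw [show F.map (homOfLE (Order.le_succ j)) = (MT.ss Ω P0).toSucc (F.obj j) ≫ (s j hj).inv
      from h, MT.comp_f, MT.iso_hom]
    rfl
  · intro j hj G
    constructor
    · intro h
      exact MT.mf_m (s j hj).hom h
    · intro h
      have h1 : (G.im (MT.mf (s j hj).hom)).im (MT.mf (s j hj).inv) ∈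
          (F.obj (Order.succ j)).mu := MT.mf_m (s j hj).inv h
      rw [Mk.im_im] at h1
      have h4 : MT.mf (s j hj).inv ∘ MT.mf (s j hj).hom = fun x => x := by
        funext x
        exact MT.iso_inv (s j hj) x
      rwa [h4, Mk.im_id] at h1
  · intro i j h G hG
    exact MT.mf_m (F.map (homOfLE h)) hG
  · intro j hj G hG
    obtain ⟨k, G0, h0, h1⟩ := MT.col_m (lim j hj) hG
    exact ⟨k.1, k.2, G0, h0, h1⟩

end CofSN2
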